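import Pool.Agent.PF.Defs

/-!
# PRT: parafree groups of rank two (MP_548ad9_al): definitions

Paper proof: `PRT_paper.md` in the team store.  `FP`: finite 2-groups.  `ResP`: residually a finite
2-group.  `ClP A`: the subgroup `A` is closed in the pro-2 topology.  `Para x`: `x` is a para-basis
(every map of the index set to a nilpotent group extends uniquely).  `ParaS m x`: the same for
solvable groups of derived length at most `m`.  `FrOne ι a`: `E` is the free product of `G` (through
`ι`) and `⟨a⟩`; `FrTwo ι y v`: of `G`, `⟨y⟩` and `⟨v⟩`.  `shA z`, `shB z`: the subgroups generated by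
`z 0, .., z (n-1)` and by `z 1, .., z n`.  `IsShift z o t`: `P` is the HNN extension of `G` with stable
letter `t` and `t z_i t⁻¹ = z_(i+1)`.  `H2Inj j`: every 2-cocycle of `G` with values in `ℚ/ℤ` is, up
to a coboundary, the restriction of a 2-cocycle of `P`.
-/

set_option autoImplicit false

namespace PRT

/-- finite 2-groups -/
def FP (W : Type) [Group W] : Prop := Finite W ∧ IsPGroup 2 W

/-- residually a finite 2-group -/
def ResP (G : Type) [Group G] : Prop :=
  ∀ g : G, g ≠ 1 → ∃ (W : Type) (_ : Group W) (f : G →* W), FP W ∧ f g ≠ 1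

/-- `A` is closed in the pro-2 topology of `G` -/
def ClP {G : Type} [Group G] (A : Subgroup G) : Prop :=
  ∀ g : G, g ∉ A → ∃ (W : Type) (_ : Group W) (f : G →* W), FP W ∧ f g ∉ A.map f

/-- `x` is a para-basis of `G` -/
def Para {G X : Type} [Group G] (x : X → G) : Prop :=
  ∀ (W : Type) [Group W], Group.IsNilpotent W → ∀ f : X → W, ∃! h : G →* W, ∀ i, h (x i) = f i

/-- `x` is a para-basis of `G` for solvable groups of derived length at most `m` -/
def ParaS (m : ℕ) {G X : Type} [Group G] (x : X → G) : Prop :=
  ∀ (W : Type) [Group W], derivedSeries W m = ⊥ → ∀ f : X → W, ∃! h : G →* W, ∀ i, h (x i) = f i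

/-- `E` is the free product of `G` (through `ι`) and the infinite cyclic group `⟨a⟩` -/
def FrOne {G E : Type} [Group G] [Group E] (ι : G →* E) (a : E) : Prop :=
  ∀ (D : Type) [Group D] (f : G →* D) (d : D), ∃! h : E →* D, h.comp ι = f ∧ h a = d

/-- `E` is the free product of `G` (through `ι`) and the infinite cyclic groups `⟨y⟩`, `⟨v⟩` -/
def FrTwo {G E : Type} [Group G] [Group E] (ι : G →* E) (y v : E) : Prop :=
  ∀ (D : Type) [Group D] (f : G →* D) (d e : D),
    ∃! h : E →* D, h.comp ι = f ∧ h y = d ∧ h v = e

/-- the subgroup generated by `z 0, ..., z (n-1)` -/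
def shA {G : Type} [Group G] {n : ℕ} (z : Fin (n + 1) → G) : Subgroup G :=
  Subgroup.closure (Set.range fun i : Fin n => z i.castSucc)

/-- the subgroup generated by `z 1, ..., z n` -/
def shB {G : Type} [Group G] {n : ℕ} (z : Fin (n + 1) → G) : Subgroup G :=
  Subgroup.closure (Set.range fun i : Fin n => z i.succ)

/-- `P` is the HNN extension of `G` (through `o`) with stable letter `t` and
`t z_i t⁻¹ = z_(i+1)` for `i < n` -/
structure IsShift {G P : Type} [Group G] [Group P] {n : ℕ} (z : Fin (n + 1) → G) (o : G →* P)
    (t : P) : Prop where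
  inj : Function.Injective o
  rel : ∀ i : Fin n, t * o (z i.castSucc) = o (z i.succ) * t
  lift : ∀ (D : Type) [Group D] (f : G →* D) (d : D),
    (∀ i : Fin n, d * f (z i.castSucc) = f (z i.succ) * d) →
      ∃! h : P →* D, h.comp o = f ∧ h t = d

/-- compatible systems of finite 2-quotients -/
def Compat {G : Type} [Group G] (A B : Subgroup G) (φ : A ≃* B) : Prop :=
  ∀ (W : Type) [Group W] (f : G →* W), FP W → ∃ (Q : Type) (_ : Group Q) (π : G →* Q) (τ : Q),
    FP Q ∧ (∀ a : A, τ * π a = π (φ a) * τ) ∧ ∀ g h : G, π g = π h → f g = f h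

/-- every 2-cocycle of `G` with values in `ℚ/ℤ` is, up to a coboundary, the restriction of a
2-cocycle of `P` -/
def H2Inj {G P : Type} [Group G] [Group P] (j : G →* P) : Prop :=
  ∀ f : G → G → PF.QZ, PF.IsCoc f → ∃ f' : P → P → PF.QZ, PF.IsCoc f' ∧
    ∃ b : G → PF.QZ, ∀ g h : G, f' (j g) (j h) = f g h + (b g + b h - b (g * h))

/-- the action of `Q` on the free group on a `Q`-set -/
def actF (Q Ω : Type) [Group Q] [MulAction Q Ω] : Q →* MulAut (FreeGroup Ω) where
  toFun q := FreeGroup.freeGroupCongr (MulAction.toPerm q)
  map_one' := by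
    apply MulEquiv.ext
    intro w
    show FreeGroup.map (fun x : Ω => (1 : Q) • x) w = w
    rw [show (fun x : Ω => (1 : Q) • x) = id from funext fun x => one_smul Q x]
    exact FreeGroup.map.id w
  map_mul' q r := by
    apply MulEquiv.ext
    intro w
    show FreeGroup.map (fun x : Ω => (q * r) • x) w =
      FreeGroup.map (fun x : Ω => q • x) (FreeGroup.map (fun x : Ω => r • x) w)
    rw [FreeGroup.map.comp]
    congr 1
    exact congrArg FreeGroup.map (funext fun x => mul_smul q r x)

/-- the semidirect product of the free group on a `Q`-set with `Q` -/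
abbrev SF (Q Ω : Type) [Group Q] [MulAction Q Ω] : Type := FreeGroup Ω ⋊[actF Q Ω] Q

/-- the action of `Q` on the group of all maps from `W^Ω` to `W` -/
def actE (Q Ω W : Type) [Group Q] [MulAction Q Ω] [Group W] : Q →* MulAut ((Ω → W) → W) where
  toFun q :=
    { toFun := fun e f => e (fun x => f (q • x))
      invFun := fun e f => e (fun x => f (q⁻¹ • x))
      left_inv := fun e => funext fun f => congrArg e (funext fun x =>
        congrArg f (inv_smul_smul q x))
      right_inv := fun e => funext fun f => congrArg e (funext fun x =>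
        congrArg f (smul_inv_smul q x))
      map_mul' := fun _ _ => rfl }
  map_one' := by
    apply MulEquiv.ext
    intro e
    funext f
    exact congrArg e (funext fun x => by rw [one_smul])
  map_mul' q r := by
    apply MulEquiv.ext
    intro e
    funext f
    exact congrArg e (funext fun x => by rw [mul_smul])

/-- the semidirect product of the group of all maps from `W^Ω` to `W` with `Q` -/
abbrev SE (Q Ω W : Type) [Group Q] [MulAction Q Ω] [Group W] : Type := ((Ω → W) → W) ⋊[actE Q Ω W] Q

/-- the action of `Q` on the group of all maps from `Ω` to `W` -/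
def actW (Q Ω W : Type) [Group Q] [MulAction Q Ω] [Group W] : Q →* MulAut (Ω → W) where
  toFun q :=
    { toFun := fun F x => F (q⁻¹ • x)
      invFun := fun F x => F (q • x)
      left_inv := fun F => funext fun x => congrArg F (by rw [inv_smul_smul])
      right_inv := fun F => funext fun x => congrArg F (by rw [smul_inv_smul])
      map_mul' := fun _ _ => rfl }
  map_one' := by
    apply MulEquiv.ext
    intro F
    funext x
    exact congrArg F (by rw [inv_one, one_smul])
  map_mul' q r := by
    apply MulEquiv.ext
    intro F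
    funext x
    exact congrArg F (by rw [mul_inv_rev, mul_smul])

/-- the generators `y, v⁻¹ x_1 v, .., v⁻ʳ x_r v^r` of the subgroup `A` of Step 1 -/
def zA {G E : Type} [Group G] [Group E] (ι : G →* E) (y v : E) {r : ℕ} (x : Fin r → G) :
    Fin (r + 1) → E :=
  Fin.cons y (fun i : Fin r => (v ^ ((i : ℕ) + 1))⁻¹ * ι (x i) * v ^ ((i : ℕ) + 1))

/-- the para-basis of Step 1: `zA` followed by `y⁻¹ v` -/
def zz {G E : Type} [Group G] [Group E] (ι : G →* E) (y v : E) {r : ℕ} (x : Fin r → G) :
    Fin (r + 1 + 1) → E :=
  Fin.snoc (zA ι y v x) (y⁻¹ * v)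

/-- the trivial module `ℤ` over the group ring -/
noncomputable abbrev TrM (G : Type) [Group G] : ModuleCat (MonoidAlgebra ℤ G) :=
  ModuleCat.of (MonoidAlgebra ℤ G) (Representation.trivial ℤ G ℤ).asModule

/-- the invariants of the induction: `p` is a para-basis of the group `P`, also for solvable groups of
derived length at most `m + 1`, and `j : G → P` is an embedding into the `m`-th derived group -/
structure Stage (m : ℕ) {G P : Type} [Group G] [Group P] (j : G →* P) (p : Fin 2 → P) : Prop where
  fg : Group.FG P
  res : ResP P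
  para : Para p
  paraS : ParaS (m + 1) p
  inj : Function.Injective j
  deep : ∀ g, j g ∈ derivedSeries P m
  h2 : H2Inj j
  gen : Subgroup.closure (Set.range j ∪ Set.range p) = ⊤

end PRT
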