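import Pool.Agent.PRT.Defs

/-!
# PRT/Fpc (module PRT-Fpc): finite 2-groups

Finite 2-groups are the finite groups whose order is a power of two; products, semidirect products,
subgroups, quotients.
-/

set_option autoImplicit false

namespace PRT

private theorem fp_iff {W : Type} [Group W] : FP W ↔ Finite W ∧ ∃ n, Nat.card W = 2 ^ n := by
  constructor
  · rintro ⟨h1, h2⟩
    have := h1
    have : Fact (Nat.Prime 2) := ⟨Nat.prime_two⟩
    exact ⟨h1, IsPGroup.iff_card.1 h2⟩
  · rintro ⟨h1, h2⟩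
    have := h1
    have : Fact (Nat.Prime 2) := ⟨Nat.prime_two⟩
    exact ⟨h1, IsPGroup.iff_card.2 h2⟩

theorem fp_prod {W W' : Type} [Group W] [Group W'] (h : FP W) (h' : FP W') : FP (W × W') := by
  obtain ⟨h1, n, h2⟩ := fp_iff.1 h
  obtain ⟨h1', n', h2'⟩ := fp_iff.1 h'
  have := h1
  have := h1'
  exact fp_iff.2 ⟨inferInstance, n + n', by rw [Nat.card_prod, h2, h2', pow_add]⟩

theorem fp_pi {ι : Type} [Finite ι] (W : ι → Type) [∀ i, Group (W i)] (h : ∀ i, FP (W i)) :
    FP (∀ i, W i) := by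
  have : ∀ i, Finite (W i) := fun i => (h i).1
  have := Fintype.ofFinite ι
  choose n hn using fun i => (fp_iff.1 (h i)).2
  refine fp_iff.2 ⟨inferInstance, ∑ i, n i, ?_⟩
  rw [Nat.card_pi, ← Finset.prod_pow_eq_pow_sum]
  exact Finset.prod_congr rfl fun i _ => hn i

theorem fp_sdp {N Q : Type} [Group N] [Group Q] (φ : Q →* MulAut N) (h : FP N) (h' : FP Q) :
    FP (N ⋊[φ] Q) := by
  obtain ⟨h1, n, h2⟩ := fp_iff.1 h
  obtain ⟨h1', n', h2'⟩ := fp_iff.1 h'
  have := h1
  have := h1'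
  refine fp_iff.2 ⟨Finite.of_equiv (N × Q) SemidirectProduct.equivProd.symm, n + n', ?_⟩
  rw [Nat.card_congr SemidirectProduct.equivProd, Nat.card_prod, h2, h2', pow_add]

theorem fp_nilp {W : Type} [Group W] (h : FP W) : Group.IsNilpotent W := by
  have := h.1
  have : Fact (Nat.Prime 2) := ⟨Nat.prime_two⟩
  exact IsPGroup.isNilpotent h.2

theorem fp_zmod (e : ℕ) : FP (Multiplicative (ZMod (2 ^ e))) := by
  have : NeZero (2 ^ e) := ⟨pow_ne_zero e two_ne_zero⟩
  refine fp_iff.2 ⟨inferInstanceAs (Finite (ZMod (2 ^ e))), e, ?_⟩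
  exact (Nat.card_zmod (2 ^ e))

theorem fp_surj {W V : Type} [Group W] [Group V] (h : FP W) (f : W →* V)
    (hf : Function.Surjective f) : FP V := by
  have := h.1
  exact ⟨Finite.of_surjective f hf, h.2.of_surjective f hf⟩

theorem fp_inj {W V : Type} [Group W] [Group V] (h : FP V) (f : W →* V)
    (hf : Function.Injective f) : FP W := by
  have := h.1
  exact ⟨Finite.of_injective f hf, h.2.of_injective f hf⟩

theorem fp_SE (Q Ω W : Type) [Group Q] [MulAction Q Ω] [Group W] [Finite Ω] (hQ : FP Q)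
    (hW : FP W) : FP (SE Q Ω W) := by
  have := hW.1
  exact fp_sdp _ (fp_pi (fun _ => W) fun _ => hW) hQ

end PRT
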