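import Pool.Agent.PRT.Defs
import Pool.Agent.PFC.Defs
import Pool.Agent.PDC.MN.MagA

/-!
# PRT/MuMc (module PRT-MuMc): the two Magnus maps

`mc_of_mu`: the coefficient of the word `u` in `PFC.mu i g` is `mc g u` if `u` has length `i`, and `0` otherwise.
-/

set_option autoImplicit false

open Pool.Agent.PDC.MN

namespace PRT

private theorem sg_apply {M : Type} {a a' : M} {b : ℤ} [Decidable (a = a')] :
    (MonoidAlgebra.single a b : MonoidAlgebra ℤ M).coeff a' = if a = a' then b else 0 := Finsupp.single_apply

/-- the coefficient of a word -/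
private noncomputable def cf {X : Type} (u : List X) : FreeAlgebra ℤ X →+ ℤ where
  toFun a := (FreeAlgebra.equivMonoidAlgebraFreeMonoid a).coeff (FreeMonoid.ofList u)
  map_zero' := by
    rw [map_zero]
    rfl
  map_add' a b := by
    rw [map_add]
    rfl

private theorem cf_def {X : Type} (u : List X) (a : FreeAlgebra ℤ X) :
    cf u a = (FreeAlgebra.equivMonoidAlgebraFreeMonoid a).coeff (FreeMonoid.ofList u) := rfl

private theorem cf_mul {X : Type} (u : List X) (a b : FreeAlgebra ℤ X) :
    cf u (a * b) = ∑ i ∈ Finset.range (u.length + 1), cf (u.take i) a * cf (u.drop i) b := by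
  classical
  rw [cf_def, map_mul, MonoidAlgebra.coeff_mul_antidiag _ _ _ ((Finset.range (u.length + 1)).image
    fun i => (FreeMonoid.ofList (u.take i), FreeMonoid.ofList (u.drop i))), Finset.sum_image]
  · rfl
  · intro i hi j hj hij
    have h1 : u.take i = u.take j := congrArg Prod.fst hij
    have h2 := congrArg List.length h1
    have h3 : i < u.length + 1 := Finset.mem_range.1 hi
    have h4 : j < u.length + 1 := Finset.mem_range.1 hj
    rw [List.length_take, List.length_take] at h2
    omega
  · intro p
    rw [Finset.mem_image]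
    constructor
    · rintro ⟨i, -, rfl⟩
      show FreeMonoid.ofList (u.take i) * FreeMonoid.ofList (u.drop i) = FreeMonoid.ofList u
      rw [← FreeMonoid.ofList_append, List.take_append_drop]
    · intro h
      obtain ⟨p1, p2⟩ := p
      have h1 : p1.toList ++ p2.toList = u := by
        have h2 := congrArg FreeMonoid.toList h
        rw [FreeMonoid.toList_mul] at h2
        exact h2
      subst h1
      refine ⟨p1.toList.length, Finset.mem_range.2 ?_, ?_⟩
      · rw [List.length_append]
        omega
      · rw [List.take_left', List.drop_left']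
        · rfl
        · rfl
        · rfl

private theorem cf_ext {X : Type} (a : FreeAlgebra ℤ X) (h : ∀ u, cf u a = 0) : a = 0 := by
  have h1 : FreeAlgebra.equivMonoidAlgebraFreeMonoid a = 0 := by
    rw [← MonoidAlgebra.coeff_eq_zero]
    ext w
    exact h (FreeMonoid.toList w)
  rw [← map_zero (FreeAlgebra.equivMonoidAlgebraFreeMonoid (R := ℤ) (X := X))] at h1
  exact FreeAlgebra.equivMonoidAlgebraFreeMonoid.injective h1

private theorem cf_one {X : Type} (u : List X) : cf u (1 : FreeAlgebra ℤ X) = if u.length = 0 then 1 else 0 := by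
  classical
  rw [cf_def, map_one, MonoidAlgebra.one_def, sg_apply]
  cases u with
  | nil => exact if_pos rfl
  | cons x u =>
    rw [if_neg, if_neg]
    · rw [List.length_cons]
      omega
    · intro h
      have h1 := congrArg FreeMonoid.toList h
      exact absurd h1 (List.cons_ne_nil x u).symm

private theorem eqv_ι {X : Type} (x : X) : FreeAlgebra.equivMonoidAlgebraFreeMonoid (FreeAlgebra.ι ℤ x) =
    MonoidAlgebra.single (FreeMonoid.of x) (1 : ℤ) := by
  show FreeAlgebra.lift ℤ (fun x : X => MonoidAlgebra.of ℤ (FreeMonoid X) (FreeMonoid.of x)) (FreeAlgebra.ι ℤ x) = _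
  rw [FreeAlgebra.lift_ι_apply]
  rfl

private theorem cf_ι {X : Type} (x : X) (u : List X) [Decidable (u = [x])] :
    cf u (FreeAlgebra.ι ℤ x) = if u = [x] then 1 else 0 := by
  classical
  rw [cf_def, eqv_ι, sg_apply]
  by_cases h : u = [x]
  · rw [if_pos h, if_pos]
    rw [h]
    rfl
  · rw [if_neg h, if_neg]
    intro h1
    have h2 := congrArg FreeMonoid.toList h1
    exact h h2.symm

private theorem cf_pow {X : Type} (x : X) (k : ℕ) (u : List X) [Decidable (∀ y ∈ u, y = x)] :
    cf u ((-FreeAlgebra.ι ℤ x) ^ k) = if u.length = k then (if ∀ y ∈ u, y = x then (-1) ^ u.length else 0)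
      else 0 := by
  classical
  have h1 : (FreeMonoid.of x : FreeMonoid X) ^ k = FreeMonoid.ofList (List.replicate k x) := by
    induction k with
    | zero => rfl
    | succ k ih =>
      rw [pow_succ', ih, List.replicate_succ]
      rfl
  rw [cf_def, map_pow, map_neg, eqv_ι, ← MonoidAlgebra.single_neg, MonoidAlgebra.single_pow, h1,
    sg_apply]
  have h2 : (FreeMonoid.ofList (List.replicate k x) = FreeMonoid.ofList u) ↔ (u.length = k ∧ ∀ y ∈ u, y = x) := by
    rw [← List.eq_replicate_iff]
    constructor
    · intro h
      exact (congrArg FreeMonoid.toList h).symm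
    · intro h
      rw [h]
  by_cases h3 : u.length = k
  · rw [if_pos h3]
    by_cases h4 : ∀ y ∈ u, y = x
    · rw [if_pos h4, if_pos (h2.2 ⟨h3, h4⟩), h3]
    · rw [if_neg h4, if_neg (fun h => h4 (h2.1 h).2)]
  · rw [if_neg h3, if_neg (fun h => h3 (h2.1 h).1)]

private theorem cf_mu {X : Type} (g : FreeGroup X) (k : ℕ) (u : List X) :
    cf u (PFC.mu k g) = if u.length = k then mc g u else 0 := by
  classical
  have hz : ∀ (g : FreeGroup X) (u : List X), cf u (PFC.mu 0 g) = if u.length = 0 then mc g u else 0 := by
    intro g u
    rw [PFC.mu_zero, cf_one]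
    by_cases h : u.length = 0
    · rw [if_pos h, if_pos h, List.length_eq_zero_iff.1 h, mc_nil]
    · rw [if_neg h, if_neg h]
  induction g using FreeGroup.induction_on generalizing k u with
  | C1 =>
    rcases Nat.eq_zero_or_pos k with rfl | hk
    · exact hz _ _
    · rw [PFC.mu_one k (by omega), map_zero]
      by_cases h : u.length = k
      · rw [if_pos h, mc_one]
        cases u with
        | nil => rw [← h] at hk; exact absurd hk (lt_irrefl _)
        | cons x u => rfl
      · rw [if_neg h]
  | of x =>
    rcases Nat.eq_zero_or_pos k with rfl | hk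
    · exact hz _ _
    · have h1 : PFC.mu k (FreeGroup.of x) = if k = 1 then FreeAlgebra.ι ℤ x else 0 := by
        by_cases h : k = 1
        · rw [if_pos h, h, PFC.mu_of]
        · rw [if_neg h]
          show PowerSeries.coeff k (PFC.mag X (FreeGroup.of x)).1 = 0
          rw [PFC.mag, FreeGroup.lift_apply_of]
          show PowerSeries.coeff k (1 + PowerSeries.C (FreeAlgebra.ι ℤ x) * PowerSeries.X) = 0
          rw [map_add, PowerSeries.coeff_C_mul, PowerSeries.coeff_X, PowerSeries.coeff_one, if_neg h,
            if_neg (by omega), mul_zero, add_zero]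
      rw [h1]
      have h2 := mc_of x u
      rw [h2]
      by_cases h : k = 1
      · rw [if_pos h, cf_ι, h]
        by_cases h3 : u = [x]
        · rw [if_pos h3, if_pos (by rw [h3]; rfl), if_pos (Or.inr h3)]
        · rw [if_neg h3]
          by_cases h4 : u.length = 1
          · rw [if_pos h4, if_neg]
            rintro (h5 | h5)
            · rw [h5] at h4
              exact absurd h4 (by simp)
            · exact h3 h5
          · rw [if_neg h4]
      · rw [if_neg h, map_zero]
        by_cases h4 : u.length = k
        · rw [if_pos h4, if_neg]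
          rintro (h5 | h5)
          · rw [h5, List.length_nil] at h4
            omega
          · rw [h5, List.length_singleton] at h4
            omega
        · rw [if_neg h4]
  | inv_of x _ =>
    have h1 : PFC.mu k (FreeGroup.of x)⁻¹ = (-FreeAlgebra.ι ℤ x) ^ k := by
      show PowerSeries.coeff k (PFC.mag X (FreeGroup.of x)⁻¹).1 = _
      rw [map_inv, PFC.mag, FreeGroup.lift_apply_of]
      show PowerSeries.coeff k (PowerSeries.mk fun k => (-FreeAlgebra.ι ℤ x) ^ k) = _
      rw [PowerSeries.coeff_mk]
    have h2 := mc_of_inv x u
    rw [h1, cf_pow, h2]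
  | mul g h hg hh =>
    rw [PFC.mu_mul, map_sum]
    have h1 : ∀ j ∈ Finset.range (k + 1), cf u (PFC.mu j g * PFC.mu (k - j) h) =
        if u.length = k then mc g (u.take j) * mc h (u.drop j) else 0 := by
      intro j hj
      have hj' : j < k + 1 := Finset.mem_range.1 hj
      rw [cf_mul]
      by_cases h3 : u.length = k
      · rw [if_pos h3, Finset.sum_eq_single j]
        · rw [hg, hh, List.length_take, List.length_drop, if_pos (by omega), if_pos (by omega)]
        · intro i hi hij
          have hi' : i < u.length + 1 := Finset.mem_range.1 hi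
          rw [hg, List.length_take, if_neg (by omega), zero_mul]
        · intro hn
          exact absurd (Finset.mem_range.2 (by omega)) hn
      · rw [if_neg h3]
        apply Finset.sum_eq_zero
        intro i hi
        have hi' : i < u.length + 1 := Finset.mem_range.1 hi
        rw [hg, hh, List.length_take, List.length_drop]
        by_cases h4 : min i u.length = j
        · rw [if_neg (show ¬ u.length - i = k - j by omega), mul_zero]
        · rw [if_neg h4, zero_mul]
    rw [Finset.sum_congr rfl h1]
    by_cases h3 : u.length = k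
    · rw [if_pos h3, mc_mul, h3]
      exact Finset.sum_congr rfl fun j _ => if_pos rfl
    · rw [if_neg h3]
      exact Finset.sum_eq_zero fun j _ => if_neg h3

theorem mc_of_mu (X : Type) (g : FreeGroup X) (i : ℕ) (h : PFC.mu i g ≠ 0) :
    ∃ u : List X, u.length = i ∧ mc g u ≠ 0 := by
  by_contra hcon
  push Not at hcon
  apply h
  apply cf_ext
  intro u
  rw [cf_mu]
  by_cases h1 : u.length = i
  · rw [if_pos h1, hcon u h1]
  · rw [if_neg h1]

end PRT
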