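import Pool.Agent.PRT.FreeRep
import Pool.Agent.PRT.Fpc
import Pool.Agent.PRT.MuMc
import Pool.Agent.PFC.MWitt

/-!
# PRT/ParaRes (module PRT-ParaRes): parafree groups are residually finite 2-groups

A non-trivial element of a residually nilpotent group with a finite para-basis is congruent to a word
in the para-basis modulo a term of the lower central series; this word is not in the corresponding term
of the free group and is detected by a finite 2-group through its Magnus coefficients.
-/

set_option autoImplicit false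

namespace PRT

private theorem gam_mapP {G H : Type} [Group G] [Group H] (f : G →* H) (n : ℕ) {g : G}
    (hg : g ∈ PF.gam G n) : f g ∈ PF.gam H n := by
  have h1 : ((⊤ : Subgroup G).lowerCentralSeries n).map f ≤
      (⊤ : Subgroup H).lowerCentralSeries n := by
    rw [Subgroup.map_lowerCentralSeries]
    exact Subgroup.lowerCentralSeries_mono n le_top
  exact h1 ⟨g, hg, rfl⟩

private theorem nilp_quot (G : Type) [Group G] (c : ℕ) :
    Group.IsNilpotent (G ⧸ PF.gam G c) := by
  rw [Subgroup.nilpotent_iff_lowerCentralSeries]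
  refine ⟨c, ?_⟩
  have h1 : ((⊤ : Subgroup G).lowerCentralSeries c).map (QuotientGroup.mk' (PF.gam G c)) =
      (⊤ : Subgroup (G ⧸ PF.gam G c)).lowerCentralSeries c := by
    rw [Subgroup.map_lowerCentralSeries]
    congr 1
    exact Subgroup.map_top_of_surjective _ (QuotientGroup.mk'_surjective _)
  rw [← h1, eq_bot_iff]
  rintro _ ⟨y, hy, rfl⟩
  exact (QuotientGroup.eq_one_iff y).2 hy

theorem resP_parafree (G : Type) [Group G] (hres : (⨅ n : ℕ, PF.gam G n) = ⊥) {r : ℕ}
    (x : Fin r → G) (hx : Para x) : ResP G := by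
  intro g hg
  obtain ⟨c, hc⟩ : ∃ c, g ∉ PF.gam G c := by
    by_contra h
    push Not at h
    apply hg
    have h1 : g ∈ (⨅ n : ℕ, PF.gam G n) := Subgroup.mem_iInf.2 h
    rw [hres] at h1
    exact h1
  have hV : Group.IsNilpotent (G ⧸ PF.gam G c) := nilp_quot G c
  let q : FreeGroup (Fin r) →* G ⧸ PF.gam G c := FreeGroup.lift (fun i => (x i : G ⧸ PF.gam G c))
  have hS : ∀ y : G, ∃ w, q w = (y : G ⧸ PF.gam G c) := by
    obtain ⟨h, hh, -⟩ := hx q.range (Subgroup.isNilpotent _)
      (fun i => ⟨(x i : G ⧸ PF.gam G c), ⟨FreeGroup.of i, FreeGroup.lift_apply_of⟩⟩)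
    obtain ⟨h', hh', hu⟩ := hx (G ⧸ PF.gam G c) hV (fun i => (x i : G ⧸ PF.gam G c))
    have h1 : (q.range.subtype).comp h = h' := by
      apply hu
      intro i
      rw [MonoidHom.comp_apply, hh i]
      rfl
    have h2 : QuotientGroup.mk' (PF.gam G c) = h' := by
      apply hu
      intro i
      rfl
    intro y
    obtain ⟨w, hw⟩ := (h y).2
    refine ⟨w, ?_⟩
    rw [hw]
    have h3 : ((q.range.subtype).comp h) y = QuotientGroup.mk' (PF.gam G c) y := by rw [h1, h2]
    exact h3
  obtain ⟨w, hw⟩ := hS g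
  have hqx : ∀ v, q v = ((FreeGroup.lift x v : G) : G ⧸ PF.gam G c) := by
    intro v
    have h1 : q = (QuotientGroup.mk' (PF.gam G c)).comp (FreeGroup.lift x) := by
      ext i
      simp [q]
    rw [h1]
    rfl
  have hgw : g⁻¹ * FreeGroup.lift x w ∈ PF.gam G c := by
    rw [hqx] at hw
    exact QuotientGroup.eq.1 hw.symm
  have hwc : w ∉ PF.gam (FreeGroup (Fin r)) c := by
    intro h
    apply hc
    have h1 : FreeGroup.lift x w ∈ PF.gam G c := gam_mapP (FreeGroup.lift x) c h
    have h2 : g = FreeGroup.lift x w * (g⁻¹ * FreeGroup.lift x w)⁻¹ := by group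
    rw [h2]
    exact Subgroup.mul_mem _ h1 (Subgroup.inv_mem _ hgw)
  have hmu : ¬ PFC.MuDeep (c + 1) w := fun h => hwc (PFC.magnus_witt (Fin r) c w h)
  unfold PFC.MuDeep at hmu
  push Not at hmu
  obtain ⟨i, hi0, hic, hmui⟩ := hmu
  obtain ⟨u, hui, hu⟩ := mc_of_mu (Fin r) w i hmui
  obtain ⟨W, _, θ, hW, hθ, hgam⟩ := free_rep (Fin r) w u hu (by
    rintro rfl
    rw [List.length_nil] at hui
    omega)
  obtain ⟨h, hh, -⟩ := hx W (fp_nilp hW) (fun i => θ (FreeGroup.of i))
  refine ⟨W, _, h, hW, ?_⟩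
  have h1 : h.comp (FreeGroup.lift x) = θ := by
    ext i
    simp [hh]
  have h2 : h (g⁻¹ * FreeGroup.lift x w) = 1 := by
    have h3 : h (g⁻¹ * FreeGroup.lift x w) ∈ PF.gam W c := gam_mapP h c hgw
    have h4 : PF.gam W c ≤ PF.gam W u.length :=
      Subgroup.lowerCentralSeries_antitone _ (by omega)
    have h5 := h4 h3
    rw [hgam] at h5
    exact h5
  rw [map_mul, map_inv] at h2
  have h3 : h g = h (FreeGroup.lift x w) := inv_mul_eq_one.1 h2
  rw [h3]
  have h4 : h (FreeGroup.lift x w) = θ w := by rw [← h1]; rfl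
  rw [h4]
  exact hθ

end PRT
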