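import Pool.Agent.PRT.Defs
import Pool.Agent.PF.Hopf

/-!
# PRT/ParaEx (module PRT-ParaEx): finitely generated parafree groups have a para-basis

The generators of the free abelian quotient lift to a para-basis: modulo every term of the lower central series they
give an isomorphism with the free nilpotent group (Hopf property).
-/

set_option autoImplicit false

namespace PRT

/-- A homomorphism maps the lower central series into the lower central series. -/
private theorem map_gam_le {A B : Type} [Group A] [Group B] (f : A →* B) (n : ℕ) :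
    (PF.gam A n).map f ≤ PF.gam B n := by
  rw [Subgroup.map_lowerCentralSeries]
  exact Subgroup.lowerCentralSeries_mono n le_top

private theorem gam_hom {A B : Type} [Group A] [Group B] (f : A →* B) (n : ℕ) {a : A}
    (ha : a ∈ PF.gam A n) : f a ∈ PF.gam B n :=
  map_gam_le f n (Subgroup.mem_map_of_mem f ha)

/-- The free abelian quotient of a free group is finitely generated only if the rank is finite. -/
private theorem finite_of_fg (X : Type)
    (h : Group.FG (FreeGroup X ⧸ PF.gam (FreeGroup X) 1)) : Finite X := by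
  classical
  let f : FreeGroup X →* Multiplicative (X →₀ ℤ) :=
    FreeGroup.lift fun x => Multiplicative.ofAdd (Finsupp.single x 1)
  have hf : Function.Surjective f := by
    rw [← MonoidHom.range_eq_top, eq_top_iff]
    intro z _
    induction z using Multiplicative.rec with
    | ofAdd z =>
      induction z using Finsupp.induction_linear with
      | zero => exact one_mem _
      | add a b ha hb =>
        exact mul_mem (ha (Subgroup.mem_top _)) (hb (Subgroup.mem_top _))
      | single x n =>
        refine ⟨FreeGroup.of x ^ n, ?_⟩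
        rw [map_zpow]
        have : f (FreeGroup.of x) = Multiplicative.ofAdd (Finsupp.single x 1) :=
          FreeGroup.lift_apply_of
        rw [this, ← ofAdd_zsmul, Finsupp.smul_single]
        simp
  have hk : PF.gam (FreeGroup X) 1 ≤ f.ker := by
    have h0 : PF.gam (FreeGroup X) 1 = commutator (FreeGroup X) :=
      Subgroup.top_lowerCentralSeries_one
    rw [h0]
    exact Abelianization.commutator_subset_ker f
  let g : FreeGroup X ⧸ PF.gam (FreeGroup X) 1 →* Multiplicative (X →₀ ℤ) :=
    QuotientGroup.lift _ f hk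
  have hg : Function.Surjective g := by
    intro z
    obtain ⟨y, hy⟩ := hf z
    exact ⟨QuotientGroup.mk y, hy⟩
  have h1 : Group.FG (Multiplicative (X →₀ ℤ)) := Group.fg_of_surjective hg
  have h2 : AddGroup.FG (X →₀ ℤ) := by
    exact AddGroup.fg_iff_mul_fg.2 h1
  have h3 : Module.Finite ℤ (X →₀ ℤ) := Module.Finite.iff_addGroup_fg.2 h2
  exact Module.Finite.finite_basis (Finsupp.basisSingleOne (R := ℤ) (ι := X))

theorem exists_para (G : Type) [Group G] [Group.FG G] (hG : PF.IsParafree G) :
    ∃ (r : ℕ) (x : Fin r → G), Para x := by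
  classical
  obtain ⟨-, X, hX⟩ := hG
  let e := fun n => Classical.choice (hX n)
  have hfin : Finite X := by
    apply finite_of_fg
    exact Group.fg_of_surjective (f := (e 1).toMonoidHom) (e 1).surjective
  have hx : ∀ i : X, ∃ x : G, e 1 (QuotientGroup.mk x) = QuotientGroup.mk (FreeGroup.of i) := by
    intro i
    obtain ⟨y, hy⟩ := (e 1).surjective (QuotientGroup.mk (FreeGroup.of i))
    obtain ⟨x, rfl⟩ := QuotientGroup.mk_surjective y
    exact ⟨x, hy⟩
  choose x hx using hx
  let px : FreeGroup X →* G := FreeGroup.lift x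
  have hpo : ∀ i, px (FreeGroup.of i) = x i := fun i => FreeGroup.lift_apply_of
  have hpx : ∀ v : FreeGroup X, e 1 (QuotientGroup.mk (px v)) = QuotientGroup.mk v := by
    intro v
    have h1 : ((e 1).toMonoidHom.comp ((QuotientGroup.mk' (PF.gam G 1)).comp px)) =
        QuotientGroup.mk' (PF.gam (FreeGroup X) 1) := by
      apply FreeGroup.ext_hom
      intro i
      show e 1 (QuotientGroup.mk (px (FreeGroup.of i))) = _
      rw [hpo, hx]
      rfl
    exact DFunLike.congr_fun h1 v
  have hv : ∀ g : G, ∃ v : FreeGroup X, (px v)⁻¹ * g ∈ PF.gam G 1 := by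
    intro g
    obtain ⟨v, hv⟩ := QuotientGroup.mk_surjective (e 1 (QuotientGroup.mk g))
    refine ⟨v, ?_⟩
    rw [← QuotientGroup.eq]
    apply (e 1).injective
    rw [hpx, hv]
  have h0 : PF.gam G 1 = commutator G := Subgroup.top_lowerCentralSeries_one
  have hg1 : px.range ⊔ commutator G = ⊤ := by
    rw [eq_top_iff]
    intro g _
    obtain ⟨v, hv⟩ := hv g
    rw [h0] at hv
    have h2 : g = px v * ((px v)⁻¹ * g) := by group
    rw [h2]
    exact mul_mem (Subgroup.mem_sup_left ⟨v, rfl⟩) (Subgroup.mem_sup_right hv)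
  have hgen : ∀ n, px.range ⊔ PF.gam G n = ⊤ := fun n => PF.gen_of_comm G px.range hg1 n
  have hdec : ∀ n (g : G), ∃ v : FreeGroup X, ∃ c ∈ PF.gam G n, g = px v * c := by
    intro n g
    have hg : g ∈ px.range ⊔ PF.gam G n := by
      rw [hgen n]
      exact Subgroup.mem_top g
    obtain ⟨a, ⟨v, rfl⟩, c, hc, rfl⟩ := Subgroup.mem_sup_of_normal_right.1 hg
    exact ⟨v, c, hc, rfl⟩
  have hiso : ∀ n, ∃ E : (G ⧸ PF.gam G n) →* (FreeGroup X ⧸ PF.gam (FreeGroup X) n),
      ∀ i, E (QuotientGroup.mk (x i)) = QuotientGroup.mk (FreeGroup.of i) := by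
    intro m
    let θ : FreeGroup X →* G ⧸ PF.gam G m := (QuotientGroup.mk' (PF.gam G m)).comp px
    have hθk : PF.gam (FreeGroup X) m ≤ θ.ker := by
      intro f hf
      show (QuotientGroup.mk (px f) : G ⧸ PF.gam G m) = 1
      rw [QuotientGroup.eq_one_iff]
      exact gam_hom px m hf
    let ψ : (FreeGroup X ⧸ PF.gam (FreeGroup X) m) →* (G ⧸ PF.gam G m) := QuotientGroup.lift _ θ hθk
    have hψ : Function.Surjective ψ := by
      intro y
      obtain ⟨g, rfl⟩ := QuotientGroup.mk_surjective y
      obtain ⟨v, c, hc, rfl⟩ := hdec m g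
      refine ⟨QuotientGroup.mk v, ?_⟩
      show (QuotientGroup.mk (px v) : G ⧸ PF.gam G m) = QuotientGroup.mk (px v * c)
      rw [QuotientGroup.eq, inv_mul_cancel_left]
      exact hc
    let φ : (FreeGroup X ⧸ PF.gam (FreeGroup X) m) →* (FreeGroup X ⧸ PF.gam (FreeGroup X) m) :=
      (e m).toMonoidHom.comp ψ
    have hφ : Function.Surjective φ := (e m).surjective.comp hψ
    have hbot : PF.gam (FreeGroup X ⧸ PF.gam (FreeGroup X) m) m = ⊥ := by
      have h1 := Subgroup.map_lowerCentralSeries (⊤ : Subgroup (FreeGroup X))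
        (QuotientGroup.mk' (PF.gam (FreeGroup X) m)) m
      rw [← MonoidHom.range_eq_map, QuotientGroup.range_mk'] at h1
      refine h1.symm.trans ?_
      rw [Subgroup.map_eq_bot_iff, QuotientGroup.ker_mk']
    have hinj : Function.Injective φ := PF.hopf m _ hbot φ hφ
    have hψi : Function.Injective ψ := by
      intro a b hab
      apply hinj
      show e m (ψ a) = e m (ψ b)
      rw [hab]
    let E := MulEquiv.ofBijective ψ ⟨hψi, hψ⟩
    refine ⟨E.symm.toMonoidHom, fun i => ?_⟩
    show E.symm (QuotientGroup.mk (x i)) = QuotientGroup.mk (FreeGroup.of i)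
    rw [MulEquiv.symm_apply_eq]
    show (QuotientGroup.mk (x i) : G ⧸ PF.gam G m) = QuotientGroup.mk (px (FreeGroup.of i))
    rw [hpo]
  have hP : Para x := by
    intro W _ hW f
    obtain ⟨n, hn⟩ := Subgroup.nilpotent_iff_lowerCentralSeries.1 hW
    have hn' : PF.gam W n = ⊥ := hn
    obtain ⟨E, hE⟩ := hiso n
    have hk : PF.gam (FreeGroup X) n ≤ (FreeGroup.lift f).ker := by
      intro v hv
      have h1 := gam_hom (FreeGroup.lift f) n hv
      rw [hn'] at h1
      exact Subgroup.mem_bot.1 h1
    refine ⟨(QuotientGroup.lift (PF.gam (FreeGroup X) n) (FreeGroup.lift f) hk).comp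
      (E.comp (QuotientGroup.mk' (PF.gam G n))), ?_, ?_⟩
    · intro i
      show QuotientGroup.lift (PF.gam (FreeGroup X) n) (FreeGroup.lift f) hk
        (E (QuotientGroup.mk (x i))) = f i
      rw [hE]
      show FreeGroup.lift f (FreeGroup.of i) = f i
      exact FreeGroup.lift_apply_of
    · have key : ∀ h h' : G →* W, (∀ i, h (x i) = f i) → (∀ i, h' (x i) = f i) → h = h' := by
        intro h h' hh hh'
        apply MonoidHom.ext
        intro g
        obtain ⟨v, c, hc, rfl⟩ := hdec n g
        have e1 : ∀ h : G →* W, h c = 1 := by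
          intro h
          have h1 := gam_hom h n hc
          rw [hn'] at h1
          exact Subgroup.mem_bot.1 h1
        have e2 : h.comp px = h'.comp px := by
          apply FreeGroup.ext_hom
          intro i
          show h (px (FreeGroup.of i)) = h' (px (FreeGroup.of i))
          rw [hpo, hh, hh']
        rw [map_mul, map_mul, e1 h, e1 h', mul_one, mul_one]
        exact DFunLike.congr_fun e2 v
      intro h' hh'
      refine key h' _ hh' ?_
      intro i
      show QuotientGroup.lift (PF.gam (FreeGroup X) n) (FreeGroup.lift f) hk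
        (E (QuotientGroup.mk (x i))) = f i
      rw [hE]
      show FreeGroup.lift f (FreeGroup.of i) = f i
      exact FreeGroup.lift_apply_of
  obtain ⟨r, ⟨q⟩⟩ := Finite.exists_equiv_fin X
  refine ⟨r, fun i => x (q.symm i), ?_⟩
  intro W _ hW f
  obtain ⟨h, h1, h2⟩ := hP W hW (fun j => f (q j))
  refine ⟨h, ?_, ?_⟩
  · intro i
    have h3 := h1 (q.symm i)
    rwa [Equiv.apply_symm_apply] at h3
  · intro h' hh'
    apply h2
    intro j
    have h3 := hh' (q j)
    show h' (x j) = f (q j)
    rw [← h3]
    simp only [Equiv.symm_apply_apply]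

end PRT
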