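import Pool.Agent.PRT.Defs
import Pool.Agent.PF.ExtBuild

/-!
# PRT/CExt (module PRT-CExt): central extensions by `ℚ/ℤ` and `H2Inj`

If every central extension of `G` by `ℚ/ℤ` embeds, over `j`, in a central extension of `P` with the same kernel, then
every 2-cocycle of `G` is, up to a coboundary, the restriction of a 2-cocycle of `P`.
-/

set_option autoImplicit false

namespace PRT

/-- `E` is a central extension of `G` by `ℚ/ℤ` with kernel `i`, section `s` and cocycle `f` -/
structure CExt {G : Type} [Group G] (f : G → G → PF.QZ) {E : Type} [Group E] (p : E →* G)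
    (s : G → E) (i : PF.QZ → E) : Prop where
  sec : ∀ g, p (s g) = g
  add : ∀ a b, i (a + b) = i a * i b
  inj : Function.Injective i
  ker : ∀ e, p e = 1 ↔ ∃ a, i a = e
  cen : ∀ a e, i a * e = e * i a
  coc : ∀ g h, s g * s h = i (f g h) * s (g * h)

theorem exists_cext (G : Type) [Group G] (f : G → G → PF.QZ) (hf : PF.IsCoc f) :
    ∃ (E : Type) (_ : Group E) (p : E →* G) (s : G → E) (i : PF.QZ → E), CExt f p s i := by
  obtain ⟨E, iE, p, s, i, h1, h2, h3, h4, h5, h6⟩ := PF.exists_ext G f hf
  exact ⟨E, iE, p, s, i, ⟨h1, h2, h3, h4, h5, h6⟩⟩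

theorem h2inj_of_ext {G P : Type} [Group G] [Group P] (j : G →* P)
    (H : ∀ (f : G → G → PF.QZ) (E : Type) [Group E] (p : E →* G) (s : G → E) (i : PF.QZ → E),
      CExt f p s i → ∃ (D : Type) (_ : Group D) (q : D →* P) (e : E →* D),
        Function.Surjective q ∧ Function.Injective e ∧ (∀ x, q (e x) = j (p x)) ∧
        (∀ d, q d = 1 → ∃ a, e (i a) = d) ∧ ∀ a d, e (i a) * d = d * e (i a)) :
    H2Inj j := by
  intro f hf
  obtain ⟨E, iE, p, s, i, hE⟩ := exists_cext G f hf
  obtain ⟨D, iD, q, e, hq, he, hqe, hker, hcen⟩ := H f E p s i hE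
  choose σ hσ using hq
  have hinj : Function.Injective fun a => e (i a) := he.comp hE.inj
  have hadd : ∀ a b, e (i (a + b)) = e (i a) * e (i b) := fun a b => by rw [hE.add, map_mul]
  have h1 : ∀ g h : P, ∃ a, e (i a) = σ g * σ h * (σ (g * h))⁻¹ := fun g h => by
    apply hker
    rw [map_mul, map_mul, map_inv, hσ, hσ, hσ, mul_inv_cancel]
  choose f' hf' using h1
  have hf'' : ∀ g h : P, σ g * σ h = e (i (f' g h)) * σ (g * h) := fun g h => by
    rw [hf', inv_mul_cancel_right]
  have h2 : ∀ g : G, ∃ a, e (i a) = σ (j g) * (e (s g))⁻¹ := fun g => by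
    apply hker
    rw [map_mul, map_inv, hσ, hqe, hE.sec, mul_inv_cancel]
  choose b hb using h2
  have hb' : ∀ g : G, σ (j g) = e (i (b g)) * e (s g) := fun g => by
    rw [hb, inv_mul_cancel_right]
  refine ⟨f', ?_, b, ?_⟩
  · intro g h k
    apply hinj
    show e (i (f' h k + f' g (h * k))) = e (i (f' (g * h) k + f' g h))
    apply mul_right_cancel (b := σ (g * h * k))
    calc e (i (f' h k + f' g (h * k))) * σ (g * h * k)
        = e (i (f' h k)) * (e (i (f' g (h * k))) * σ (g * (h * k))) := by
          rw [hadd, mul_assoc, mul_assoc g h k]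
      _ = e (i (f' h k)) * (σ g * σ (h * k)) := by rw [hf'' g (h * k)]
      _ = σ g * (e (i (f' h k)) * σ (h * k)) := by rw [← mul_assoc, hcen, mul_assoc]
      _ = σ g * (σ h * σ k) := by rw [hf'' h k]
      _ = σ g * σ h * σ k := (mul_assoc _ _ _).symm
      _ = e (i (f' g h)) * (σ (g * h) * σ k) := by rw [hf'' g h, mul_assoc]
      _ = e (i (f' g h)) * (e (i (f' (g * h) k)) * σ (g * h * k)) := by rw [hf'' (g * h) k]
      _ = e (i (f' (g * h) k + f' g h)) * σ (g * h * k) := by
          rw [add_comm (f' (g * h) k) (f' g h), hadd, mul_assoc (e (i (f' g h)))]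
  · intro g h
    have h3 : e (i (f' (j g) (j h) + b (g * h))) = e (i (b g + b h + f g h)) := by
      apply mul_right_cancel (b := e (s (g * h)))
      calc e (i (f' (j g) (j h) + b (g * h))) * e (s (g * h))
          = e (i (f' (j g) (j h))) * (e (i (b (g * h))) * e (s (g * h))) := by
            rw [hadd, mul_assoc]
        _ = e (i (f' (j g) (j h))) * σ (j g * j h) := by rw [← hb' (g * h), map_mul]
        _ = σ (j g) * σ (j h) := (hf'' _ _).symm
        _ = e (i (b g)) * (e (s g) * e (i (b h))) * e (s h) := by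
            rw [hb' g, hb' h]; simp only [mul_assoc]
        _ = e (i (b g)) * (e (i (b h)) * e (s g)) * e (s h) := by rw [hcen (b h) (e (s g))]
        _ = e (i (b g)) * e (i (b h)) * e (s g * s h) := by
            rw [map_mul]; simp only [mul_assoc]
        _ = e (i (b g + b h + f g h)) * e (s (g * h)) := by
            rw [hE.coc, map_mul, hadd, hadd]; simp only [mul_assoc]
    have h4 := hinj h3
    rw [← eq_sub_iff_add_eq] at h4
    rw [h4]
    abel

end PRT
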