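import Pool.Agent.PRT.CdProj
import Pool.Agent.PFC.HShort

/-!
# PRT/CdInd (module PRT-CdInd): projective dimension of restricted modules, cd of subgroups

Induction on the projective dimension with short exact sequences.
-/

set_option autoImplicit false

open CategoryTheory PFC

namespace PRT

theorem pd_restrict {G P : Type} [Group G] [Group P] (j : G →* P)
    (hj : Function.Injective j) (n : ℕ) (M : Type) [AddCommGroup M] [Module (GR P) M]
    [Module (GR G) M] (hc : ∀ (a : GR G) (m : M), a • m = resH j a • m)
    (hM : PdLT P M n) : PdLT G M n := by
  induction n generalizing M with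
  | zero => exact pd_zero_iff.2 (pd_zero_iff.1 hM)
  | succ n ih =>
    rcases Nat.eq_zero_or_pos n with hn | hn
    · subst hn
      exact pd_proj (proj_restrict j hj M hc (proj_of_pd hM))
    · obtain ⟨n, rfl⟩ : ∃ m, n = m + 1 := ⟨n - 1, by omega⟩
      let π : (M →₀ GR P) →ₗ[GR P] M := Finsupp.linearCombination (GR P) id
      have hπ : Function.Surjective π := by
        intro m
        refine ⟨Finsupp.single m 1, ?_⟩
        show Finsupp.linearCombination (GR P) id (Finsupp.single m 1) = m
        rw [Finsupp.linearCombination_single, one_smul, id]
      let K : Submodule (GR P) (M →₀ GR P) := LinearMap.ker π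
      have hF : Module.Projective (GR P) (M →₀ GR P) := inferInstance
      have hK : PdLT P K (n + 1) :=
        pd_one K.subtype π K.injective_subtype hπ
          (LinearMap.exact_subtype_ker_map π) (n + 1)
          (pd_mono 1 (n + 1) (by omega) (pd_proj hF)) hM
      letI iF : Module (GR G) (M →₀ GR P) := Module.compHom (M →₀ GR P) (resH j)
      letI iK : Module (GR G) K := Module.compHom K (resH j)
      have hcF : ∀ (a : GR G) (m : M →₀ GR P), a • m = resH j a • m := fun _ _ => rfl
      have hcK : ∀ (a : GR G) (m : K), a • m = resH j a • m := fun _ _ => rfl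
      have hKG : PdLT G K (n + 1) := ih K hcK hK
      have hFG : Module.Projective (GR G) (M →₀ GR P) := proj_restrict j hj _ hcF hF
      let f : K →ₗ[GR G] (M →₀ GR P) :=
        { toFun := K.subtype
          map_add' := fun _ _ => rfl
          map_smul' := fun _ _ => rfl }
      let g : (M →₀ GR P) →ₗ[GR G] M :=
        { toFun := π
          map_add' := map_add _
          map_smul' := fun a m => by
            rw [hcF, map_smul, RingHom.id_apply, hc] }
      exact pd_three f g K.injective_subtype hπ (LinearMap.exact_subtype_ker_map π) (n + 1) hKG
        (pd_mono 1 (n + 1 + 1) (by omega) (pd_proj hFG))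

private theorem tr_single {G : Type} [Group G] (g : G) (n : ℤ) (m : Tr G) :
    Representation.asModuleEquiv _ (MonoidAlgebra.single g n • m : Tr G) =
      n * Representation.asModuleEquiv _ m := by
  rw [Representation.single_smul, Representation.trivial_apply]
  rfl

theorem cd_mono {G P : Type} [Group G] [Group P] (j : G →* P) (hj : Function.Injective j)
    (m : ℕ) (h : HasProjectiveDimensionLE (TrM P) m) : HasProjectiveDimensionLE (TrM G) m := by
  have h1 : PdLT P (Tr P) (m + 1) := h
  letI iP : Module (GR G) (Tr P) := Module.compHom (Tr P) (resH j)
  have h2 : PdLT G (Tr P) (m + 1) := pd_restrict j hj (m + 1) (Tr P) (fun _ _ => rfl) h1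
  let e0 : Tr P ≃+ Tr G :=
    (Representation.asModuleEquiv (Representation.trivial ℤ P ℤ)).toAddEquiv.trans
      (Representation.asModuleEquiv (Representation.trivial ℤ G ℤ)).symm.toAddEquiv
  have he0 : ∀ (a : GR G) (x : Tr P), e0 (resH j a • x) = a • e0 x := by
    intro a x
    induction a using MonoidAlgebra.induction_linear with
    | zero => rw [map_zero, zero_smul, zero_smul, map_zero]
    | add a b ha hb => rw [map_add, add_smul, map_add, ha, hb, add_smul]
    | single g n =>
      apply (Representation.asModuleEquiv (Representation.trivial ℤ G ℤ)).injective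
      rw [tr_single]
      have h3 : resH j (MonoidAlgebra.single g n) = MonoidAlgebra.single (j g) n := by
        show MonoidAlgebra.mapDomain j (MonoidAlgebra.single g n) = _
        rw [MonoidAlgebra.mapDomain_single]
      rw [h3]
      exact tr_single (j g) n x
  exact pd_equiv (G := G) { e0 with map_smul' := fun a x => he0 a x } (m + 1) h2

end PRT
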