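import Pool.Agent.PRT.Defs
import Pool.Agent.PFC.Defs

/-!
# PRT/CdProj (module PRT-CdProj): the group ring of a group is projective over the one of a subgroup

The group ring of `P` is free over the group ring of `G`, with a basis of representatives of the
right cosets of `j(G)`.
-/

set_option autoImplicit false

open PFC

namespace PRT

/-- the ring homomorphism of the group rings induced by a homomorphism of groups -/
noncomputable def resH {G P : Type} [Group G] [Group P] (j : G →* P) : GR G →+* GR P :=
  MonoidAlgebra.mapDomainRingHom ℤ j

private theorem resH_single {G P : Type} [Group G] [Group P] (j : G →* P) (g : G) (n : ℤ) :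
    resH j (MonoidAlgebra.single g n) = MonoidAlgebra.single (j g) n := by
  show MonoidAlgebra.mapDomain j (MonoidAlgebra.single g n) = _
  rw [MonoidAlgebra.mapDomain_single]

/-- the right cosets -/
private abbrev RC {G P : Type} [Group G] [Group P] (j : G →* P) : Type :=
  Quotient (QuotientGroup.rightRel j.range)

private theorem coset_bij {G P : Type} [Group G] [Group P] (j : G →* P)
    (hj : Function.Injective j) :
    Function.Bijective (fun x : RC j × G => j x.2 * Quotient.out x.1) := by
  have hcl : ∀ x : RC j × G,
      (Quotient.mk (QuotientGroup.rightRel j.range) (j x.2 * Quotient.out x.1)) = x.1 := by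
    intro x
    conv_rhs => rw [← Quotient.out_eq x.1]
    apply Quotient.sound
    show QuotientGroup.rightRel j.range _ _
    rw [QuotientGroup.rightRel_apply]
    refine ⟨x.2⁻¹, ?_⟩
    rw [map_inv]
    group
  constructor
  · intro x y hxy
    have h1 : x.1 = y.1 := by
      rw [← hcl x, ← hcl y]
      exact congrArg _ hxy
    have h2 : j x.2 * Quotient.out x.1 = j y.2 * Quotient.out y.1 := hxy
    rw [h1] at h2
    exact Prod.ext h1 (hj (mul_right_cancel h2))
  · intro p
    have h : QuotientGroup.rightRel j.range (Quotient.out (Quotient.mk _ p : RC j)) p := by
      exact Quotient.exact (Quotient.out_eq (Quotient.mk _ p : RC j))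
    rw [QuotientGroup.rightRel_apply] at h
    obtain ⟨g, hg⟩ := h
    refine ⟨(Quotient.mk _ p, g), ?_⟩
    show j g * Quotient.out (Quotient.mk _ p : RC j) = p
    rw [hg]
    group

/-- the additive isomorphism given by the cosets -/
private noncomputable def cosEquiv {G P : Type} [Group G] [Group P] (j : G →* P)
    (hj : Function.Injective j) : (RC j →₀ GR G) ≃+ GR P :=
  (Finsupp.mapRange.addEquiv (MonoidAlgebra.coeffAddEquiv (R := ℤ) (M := G))).trans
    ((Finsupp.curryAddEquiv (α := RC j) (β := G) (M := ℤ)).symm.trans
      ((Finsupp.domCongr (Equiv.ofBijective _ (coset_bij j hj))).trans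
        (MonoidAlgebra.coeffAddEquiv (R := ℤ) (M := P)).symm))

private theorem cosEquiv_single {G P : Type} [Group G] [Group P] (j : G →* P)
    (hj : Function.Injective j) (c : RC j) (g : G) (n : ℤ) :
    cosEquiv j hj (Finsupp.single c (MonoidAlgebra.single g n)) =
      MonoidAlgebra.single (j g * Quotient.out c) n := by
  simp [cosEquiv]

theorem proj_restrict {G P : Type} [Group G] [Group P] (j : G →* P)
    (hj : Function.Injective j) (M : Type) [AddCommGroup M] [Module (GR P) M]
    [Module (GR G) M] (hc : ∀ (a : GR G) (m : M), a • m = resH j a • m)
    (hM : Module.Projective (GR P) M) : Module.Projective (GR G) M := by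
  letI iP : Module (GR G) (GR P) := Module.compHom (GR P) (resH j)
  have hfree : Module.Free (GR G) (GR P) := by
    let Φ : (RC j →₀ GR G) →ₗ[GR G] GR P :=
      Finsupp.linearCombination (GR G) (fun c : RC j => (el (Quotient.out c) : GR P))
    have hΦ : ∀ x, Φ x = cosEquiv j hj x := by
      intro x
      have h : Φ.toAddMonoidHom = (cosEquiv j hj).toAddMonoidHom := by
        refine Finsupp.addHom_ext fun c a => ?_
        induction a using MonoidAlgebra.induction_linear with
        | zero => simp
        | add a b ha hb =>
          rw [Finsupp.single_add, map_add, map_add, ha, hb]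
        | single g n =>
          show Φ (Finsupp.single c (MonoidAlgebra.single g n)) =
            cosEquiv j hj (Finsupp.single c (MonoidAlgebra.single g n))
          rw [cosEquiv_single, Finsupp.linearCombination_single]
          show resH j (MonoidAlgebra.single g n) * el (Quotient.out c) = _
          rw [resH_single]
          show MonoidAlgebra.single (j g) n * MonoidAlgebra.single (Quotient.out c) 1 = _
          rw [MonoidAlgebra.single_mul_single, mul_one]
      exact DFunLike.congr_fun h x
    have hb : Function.Bijective Φ := by
      have : (Φ : (RC j →₀ GR G) → GR P) = cosEquiv j hj := funext hΦ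
      rw [this]
      exact (cosEquiv j hj).bijective
    exact Module.Free.of_equiv (LinearEquiv.ofBijective Φ hb)
  obtain ⟨s, hs⟩ := Module.projective_def'.1 hM
  let s' : M →ₗ[GR G] (M →₀ GR P) :=
    { toFun := s
      map_add' := s.map_add
      map_smul' := fun a m => by
        rw [hc, map_smul]
        rfl }
  let t' : (M →₀ GR P) →ₗ[GR G] M :=
    { toFun := Finsupp.linearCombination (GR P) id
      map_add' := map_add _
      map_smul' := fun a m => by
        show Finsupp.linearCombination (GR P) id (resH j a • m) = _
        rw [map_smul, RingHom.id_apply, hc] }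
  refine Module.Projective.of_split s' t' ?_
  ext m
  exact DFunLike.congr_fun hs m

end PRT
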