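import Pool.Agent.PRT.Fpc

/-!
# PRT/Rho (module PRT-Rho): the retraction of Step 1

The homomorphism `Θ` from `E` to the semidirect product of the group of the maps from `ZMod (2 ^ r)` to `A` with the
translations, its right component `p` with kernel `N`, and the value at `0` of the left component.
-/

set_option autoImplicit false

namespace PRT

open Multiplicative

theorem exists_rho {G E : Type} [Group G] [Group E] (ι : G →* E) (y v : E) (hE : FrTwo ι y v)
    {r : ℕ} (x : Fin r → G)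
    (hx : ∀ i, ∃ e : G →* Multiplicative ℤ, e (x i) = Multiplicative.ofAdd 1) :
    ∃ (N : Subgroup E) (_ : N.Normal) (hAN : Subgroup.closure (Set.range (zA ι y v x)) ≤ N)
      (ρ : N →* E), FP (E ⧸ N) ∧
        (∀ n, ρ n ∈ Subgroup.closure (Set.range (zA ι y v x))) ∧
        ∀ (a : E) (ha : a ∈ Subgroup.closure (Set.range (zA ι y v x))),
          ρ ⟨a, hAN ha⟩ = a := by
  classical
  choose e he using hx
  set A : Subgroup E := Subgroup.closure (Set.range (zA ι y v x)) with hA
  have hmem : ∀ j, zA ι y v x j ∈ A := fun j => Subgroup.subset_closure ⟨j, rfl⟩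
  let aa : Fin (r + 1) → A := fun j => ⟨zA ι y v x j, hmem j⟩
  let H : ℕ → (G →* A) := fun n =>
    if h : 0 < n ∧ n - 1 < r then (zpowersHom A (aa (Fin.succ ⟨n - 1, h.2⟩))).comp (e ⟨n - 1, h.2⟩)
    else 1
  have hH : ∀ i : Fin r, H ((i : ℕ) + 1) = (zpowersHom A (aa i.succ)).comp (e i) := by
    intro i
    have h : 0 < (i : ℕ) + 1 ∧ (i : ℕ) + 1 - 1 < r := ⟨Nat.succ_pos _, by
      rw [Nat.add_sub_cancel]; exact i.isLt⟩
    show (if h : 0 < (i : ℕ) + 1 ∧ (i : ℕ) + 1 - 1 < r then
      (zpowersHom A (aa (Fin.succ ⟨(i : ℕ) + 1 - 1, h.2⟩))).comp (e ⟨(i : ℕ) + 1 - 1, h.2⟩)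
      else 1) = _
    rw [dif_pos h]
    rfl
  let FG : G →* (ZMod (2 ^ r) → A) := MonoidHom.pi fun c => H c.val
  let Fy : ZMod (2 ^ r) → A := fun c => if c = 0 then aa 0 else 1
  obtain ⟨Θ, ⟨h1, h2, h3⟩, -⟩ := hE ((ZMod (2 ^ r) → A) ⋊[actW (Multiplicative (ZMod (2 ^ r)))
    (ZMod (2 ^ r)) A] (Multiplicative (ZMod (2 ^ r))))
    (SemidirectProduct.inl.comp FG) (SemidirectProduct.inl Fy) (SemidirectProduct.inr (ofAdd 1))
  have h1' : ∀ g, Θ (ι g) = SemidirectProduct.inl (FG g) := fun g => DFunLike.congr_fun h1 g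
  let p : E →* Multiplicative (ZMod (2 ^ r)) := SemidirectProduct.rightHom.comp Θ
  have hp1 : ∀ g, p (ι g) = 1 := fun g => by
    show SemidirectProduct.rightHom (Θ (ι g)) = 1
    rw [h1']
    exact SemidirectProduct.rightHom_inl _
  have hp2 : p y = 1 := by
    show SemidirectProduct.rightHom (Θ y) = 1
    rw [h2]
    exact SemidirectProduct.rightHom_inl _
  have hAN : A ≤ p.ker := by
    rw [hA, Subgroup.closure_le]
    rintro _ ⟨j, rfl⟩
    refine Fin.cases ?_ (fun i => ?_) j
    · exact MonoidHom.mem_ker.2 hp2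
    · refine MonoidHom.mem_ker.2 ?_
      show p ((v ^ ((i : ℕ) + 1))⁻¹ * ι (x i) * v ^ ((i : ℕ) + 1)) = 1
      rw [map_mul, map_mul, hp1, mul_one, map_inv, inv_mul_cancel]
  have hright : ∀ n : p.ker, (Θ n).right = 1 := fun n => MonoidHom.mem_ker.1 n.2
  let ρ : p.ker →* E :=
    { toFun := fun n => ((Θ n).left 0 : A)
      map_one' := by
        show (((Θ (1 : E)).left 0 : A) : E) = 1
        rw [map_one]
        rfl
      map_mul' := fun n m => by
        show (((Θ ((n : E) * (m : E))).left 0 : A) : E) = _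
        rw [map_mul, SemidirectProduct.mul_left, hright n, map_one]
        rfl }
  refine ⟨p.ker, inferInstance, hAN, ρ, ?_, ?_, ?_⟩
  · exact fp_inj (fp_zmod r) (QuotientGroup.kerLift p) (QuotientGroup.kerLift_injective p)
  · intro n
    exact ((Θ n).left 0 : A).2
  · have hgen : ∀ j, (((Θ (zA ι y v x j)).left 0 : A) : E) = zA ι y v x j := by
      intro j
      refine Fin.cases ?_ (fun i => ?_) j
      · show (((Θ y).left 0 : A) : E) = y
        rw [h2]
        show (((if (0 : ZMod (2 ^ r)) = 0 then aa 0 else 1 : A)) : E) = y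
        rw [if_pos rfl]
        rfl
      · have hk : Θ (zA ι y v x i.succ) = SemidirectProduct.inl
            ((actW (Multiplicative (ZMod (2 ^ r))) (ZMod (2 ^ r)) A
              ((ofAdd (1 : ZMod (2 ^ r))) ^ ((i : ℕ) + 1)))⁻¹ (FG (x i))) := by
          rw [SemidirectProduct.inl_aut_inv]
          show Θ ((v ^ ((i : ℕ) + 1))⁻¹ * ι (x i) * v ^ ((i : ℕ) + 1)) = _
          rw [map_mul, map_mul, h1', map_inv, map_pow, h3, map_inv, map_pow]
        rw [hk, SemidirectProduct.left_inl]
        show ((FG (x i) (((ofAdd (1 : ZMod (2 ^ r))) ^ ((i : ℕ) + 1)) • (0 : ZMod (2 ^ r))) : A) : E)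
          = _
        have hs : ((ofAdd (1 : ZMod (2 ^ r))) ^ ((i : ℕ) + 1)) • (0 : ZMod (2 ^ r)) =
            (((i : ℕ) + 1 : ℕ) : ZMod (2 ^ r)) := by
          rw [← ofAdd_nsmul, nsmul_one]
          show (((i : ℕ) + 1 : ℕ) : ZMod (2 ^ r)) + 0 = _
          rw [add_zero]
        rw [hs]
        show ((H ((((i : ℕ) + 1 : ℕ) : ZMod (2 ^ r)).val) (x i) : A) : E) = _
        rw [ZMod.val_natCast_of_lt (lt_of_le_of_lt i.isLt Nat.lt_two_pow_self), hH]
        show (((zpowersHom A (aa i.succ)) (e i (x i)) : A) : E) = _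
        rw [he, zpowersHom_apply, toAdd_ofAdd, zpow_one]
    intro a ha
    induction ha using Subgroup.closure_induction with
    | mem a h =>
      obtain ⟨j, rfl⟩ := h
      exact hgen j
    | one => exact ρ.map_one
    | mul a b ha hb h h' =>
      have := ρ.map_mul ⟨a, hAN ha⟩ ⟨b, hAN hb⟩
      rw [h, h'] at this
      exact this
    | inv a ha h =>
      have := ρ.map_inv ⟨a, hAN ha⟩
      rw [h] at this
      exact this

end PRT
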