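import Pool.Agent.PRT.Retr
import Pool.Agent.PRT.Rho

/-!
# PRT/ClA (module PRT-ClA): closedness in Step 1

PLAN.  `exists_rho`, `clP_of_retract`.
-/

set_option autoImplicit false

namespace PRT

theorem clA {G E : Type} [Group G] [Group E] (ι : G →* E) (y v : E) (hE : FrTwo ι y v)
    (hres : ResP E) {r : ℕ} (x : Fin r → G)
    (hx : ∀ i, ∃ e : G →* Multiplicative ℤ, e (x i) = Multiplicative.ofAdd 1) :
    ClP (Subgroup.closure (Set.range (zA ι y v x))) := by
  obtain ⟨N, iN, hAN, ρ, h1, h2, h3⟩ := exists_rho ι y v hE x hx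
  exact clP_of_retract E hres _ N h1 hAN ρ h2 h3

end PRT
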