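import Pool.Agent.PRT.Retr

/-!
# PRT/ClR (module PRT-ClR): closedness in Step 2
-/

set_option autoImplicit false

namespace PRT

theorem clR {G E : Type} [Group G] [Group E] (ι : G →* E) (a : E) (hE : FrOne ι a)
    (hres : ResP E) (g : G) (e : G →* Multiplicative ℤ) (he : e g = Multiplicative.ofAdd 1) :
    ClP (Subgroup.closure {a, a * ι g}) := by
  obtain ⟨A, hA⟩ : ∃ A, A = Subgroup.closure {a, a * ι g} := ⟨_, rfl⟩
  have ha : a ∈ A := by
    rw [hA]
    exact Subgroup.subset_closure (Or.inl rfl)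
  have hag : a * ι g ∈ A := by
    rw [hA]
    exact Subgroup.subset_closure (Or.inr rfl)
  have hg : ι g ∈ A := by
    have h := A.mul_mem (A.inv_mem ha) hag
    rwa [inv_mul_cancel_left] at h
  obtain ⟨h, ⟨h1, h2⟩, -⟩ := hE A ((zpowersHom A ⟨ι g, hg⟩).comp e) ⟨a, ha⟩
  have h3 : ((h (ι g) : A) : E) = ι g := by
    have h4 : h (ι g) = (zpowersHom A ⟨ι g, hg⟩) (e g) := DFunLike.congr_fun h1 g
    rw [h4, he, zpowersHom_apply, toAdd_ofAdd, zpow_one]
  have h5 : ((h a : A) : E) = a := by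
    rw [h2]
  have hN : FP (E ⧸ (⊤ : Subgroup E)) := by
    have := QuotientGroup.subsingleton_quotient_top (G := E)
    exact ⟨inferInstance, fun x => ⟨0, Subsingleton.elim _ _⟩⟩
  rw [← hA]
  refine clP_of_retract E hres A ⊤ hN le_top ((A.subtype.comp h).comp (⊤ : Subgroup E).subtype)
    (fun n => (h _).2) ?_
  have h6 : Set.EqOn (A.subtype.comp h) (MonoidHom.id E) (Subgroup.closure {a, a * ι g}) := by
    refine MonoidHom.eqOn_closure ?_
    rintro x (rfl | rfl)
    · exact h5
    · show ((h (a * ι g) : A) : E) = a * ι g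
      rw [map_mul, Subgroup.coe_mul, h5, h3]
  intro x hx
  rw [hA] at hx
  exact h6 hx

end PRT
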