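import Pool.Agent.PRT.Fpc

/-!
# PRT/CompatSh (module PRT-CompatSh): the compatible system for the shift

PLAN.  Given `f : G → W`, `FP W`.  Choose `e` with `n + 1 ≤ 2 ^ e` (`Nat.lt_two_pow_self`), `Z := ZMod (2 ^ e)`,
`Q0 := Multiplicative Z` acting on `Ω := Z` by translation (`a • x = toAdd a + x`; use an explicit `MulAction` instance or a
copy of `Z`), `Q := SE Q0 Ω W` (`fp_SE`, `fp_zmod`).  `W` is nilpotent (`fp_nilp`), so for `u : Ω → W` let `h u : G →* W` be the
homomorphism of `hz` with `h u (z i) = u (i : Z)`.  `π g := inl (fun u => h u g)`, `τ := inr (ofAdd 1)`.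
`τ * π a * τ⁻¹ = inl (fun u => h (fun x => u (1 + x)) a)` (`SemidirectProduct.inl_aut` etc.).  For `a ∈ shA z`:
`h (fun x => u (1 + x)) a = h u (φ a)`: two homomorphisms `shA z →* W` which agree on the generators `z i.castSucc`
(`u (1 + i) = u (i + 1)`, value of `i.succ`).  Finally `f = h u0`, `u0 x = f (z i)` if `x = i`, `i ≤ n` (the casts
`Fin (n + 1) → Z` are injective), `1` otherwise; so `π g = π g'` implies `f g = f g'`.
-/

set_option autoImplicit false

namespace PRT

private theorem hom_eq_of_gen {G W : Type} [Group G] [Group W] {n : ℕ} (z : Fin (n + 1) → G)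
    (f g : shA z →* W)
    (h : ∀ (i : Fin n) (hi : z i.castSucc ∈ shA z), f ⟨z i.castSucc, hi⟩ = g ⟨z i.castSucc, hi⟩) :
    f = g := by
  have hle : shA z ≤ (f.eqLocus g).map (shA z).subtype := by
    unfold shA
    rw [Subgroup.closure_le]
    rintro _ ⟨i, rfl⟩
    exact ⟨⟨z i.castSucc, Subgroup.subset_closure ⟨i, rfl⟩⟩, h i _, rfl⟩
  apply MonoidHom.ext
  intro a
  obtain ⟨b, hb, hba⟩ := hle a.2
  have : b = a := Subtype.ext hba
  rw [← this]
  exact hb

theorem compat_shift (G : Type) [Group G] {n : ℕ} (z : Fin (n + 1) → G) (hz : Para z)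
    (φ : shA z ≃* shB z)
    (hφ : ∀ (i : Fin n) (h : z i.castSucc ∈ shA z), (φ ⟨z i.castSucc, h⟩ : G) = z i.succ) :
    Compat (shA z) (shB z) φ := by
  intro W _ f hW
  have he : n + 1 < 2 ^ (n + 1) := Nat.lt_two_pow_self
  have : NeZero (2 ^ (n + 1)) := ⟨by positivity⟩
  have hnil := fp_nilp hW
  have H : ∀ u : ZMod (2 ^ (n + 1)) → W,
      ∃! h : G →* W, ∀ i, h (z i) = u (((i : ℕ) : ℕ) : ZMod (2 ^ (n + 1))) :=
    fun u => hz W hnil _
  choose h h1 h2 using H
  have key : ∀ (u : ZMod (2 ^ (n + 1)) → W) (a : shA z),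
      h (fun x => u (1 + x)) (a : G) = h u (φ a : G) := by
    intro u a
    have := hom_eq_of_gen z ((h (fun x => u (1 + x))).comp (shA z).subtype)
      ((h u).comp ((shB z).subtype.comp φ.toMonoidHom)) (by
        intro i hi
        show h (fun x => u (1 + x)) (z i.castSucc) = h u (φ ⟨z i.castSucc, hi⟩ : G)
        rw [hφ, h1, h1]
        congr 1
        simp [add_comm])
    exact DFunLike.congr_fun this a
  refine ⟨SE (Multiplicative (ZMod (2 ^ (n + 1)))) (ZMod (2 ^ (n + 1))) W, inferInstance,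
    SemidirectProduct.inl.comp (MonoidHom.pi fun u => h u),
    SemidirectProduct.inr (Multiplicative.ofAdd 1), fp_SE _ _ _ (fp_zmod _) hW, ?_, ?_⟩
  · intro a
    have h3 : ∀ (q : Multiplicative (ZMod (2 ^ (n + 1)))) (e : (ZMod (2 ^ (n + 1)) → W) → W),
        (SemidirectProduct.inr q : SE (Multiplicative (ZMod (2 ^ (n + 1))))
          (ZMod (2 ^ (n + 1))) W) * SemidirectProduct.inl e
        = SemidirectProduct.inl (actE (Multiplicative (ZMod (2 ^ (n + 1))))
          (ZMod (2 ^ (n + 1))) W q e) * SemidirectProduct.inr q := by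
      intro q e
      rw [SemidirectProduct.inl_aut]
      simp
    rw [MonoidHom.comp_apply, MonoidHom.comp_apply, h3]
    congr 2
    funext u
    exact key u a
  · intro g g' hg
    have h4 : (MonoidHom.pi fun u => h u) g = (MonoidHom.pi fun u => h u) g' :=
      SemidirectProduct.inl_injective hg
    have h5 : ∀ u, h u g = h u g' := fun u => congrFun h4 u
    have hval : ∀ i : Fin (n + 1), ((i : ℕ) : ZMod (2 ^ (n + 1))).val = (i : ℕ) := by
      intro i
      rw [ZMod.val_natCast]
      exact Nat.mod_eq_of_lt (lt_trans i.2 he)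
    let u0 : ZMod (2 ^ (n + 1)) → W := fun x =>
      if hx : x.val < n + 1 then f (z ⟨x.val, hx⟩) else 1
    have hf : f = h u0 := by
      refine h2 u0 f ?_
      intro i
      have hlt : ((i : ℕ) : ZMod (2 ^ (n + 1))).val < n + 1 := by rw [hval]; exact i.2
      show f (z i) = if hx : ((i : ℕ) : ZMod (2 ^ (n + 1))).val < n + 1 then
        f (z ⟨((i : ℕ) : ZMod (2 ^ (n + 1))).val, hx⟩) else 1
      rw [dif_pos hlt]
      congr 2
      exact Fin.ext (hval i).symm
    rw [hf]
    exact h5 u0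

end PRT
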