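import Pool.Agent.PRT.Defs

/-!
# PRT/FrVar (module PRT-FrVar): changing the free generators, generation
-/

set_option autoImplicit false

namespace PRT

theorem frTwo_of_frOne {G E1 E : Type} [Group G] [Group E1] [Group E] (ι1 : G →* E1) (y : E1)
    (h1 : FrOne ι1 y) (ι2 : E1 →* E) (v : E) (h2 : FrOne ι2 v) :
    FrTwo (ι2.comp ι1) (ι2 y) v := by
  intro D _ f d e
  obtain ⟨k1, ⟨hk1, hk1y⟩, hk1u⟩ := h1 D f d
  obtain ⟨k2, ⟨hk2, hk2v⟩, hk2u⟩ := h2 D k1 e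
  refine ⟨k2, ⟨?_, ?_, hk2v⟩, ?_⟩
  · rw [← MonoidHom.comp_assoc, hk2, hk1]
  · have h := DFunLike.congr_fun hk2 y
    rw [← hk1y, ← h]
    rfl
  · rintro k' ⟨ha, hb, hc⟩
    apply hk2u
    refine ⟨?_, hc⟩
    apply hk1u
    refine ⟨?_, hb⟩
    rw [MonoidHom.comp_assoc]
    exact ha

theorem frTwo_change {G E : Type} [Group G] [Group E] (ι : G →* E) (y v : E)
    (hE : FrTwo ι y v) : FrTwo ι (y⁻¹ * v) v := by
  intro D _ f d e
  obtain ⟨k, ⟨hk, hky, hkv⟩, hku⟩ := hE D f (e * d⁻¹) e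
  refine ⟨k, ⟨hk, ?_, hkv⟩, ?_⟩
  · rw [map_mul, map_inv, hky, hkv]
    group
  · rintro k' ⟨ha, hb, hc⟩
    apply hku
    refine ⟨ha, ?_, hc⟩
    rw [map_mul, map_inv, hc] at hb
    rw [← hb]
    group

theorem frOne_change {G E : Type} [Group G] [Group E] (ι : G →* E) (a : E)
    (hE : FrOne ι a) (g : G) : FrOne ι (a * ι g) := by
  intro D _ f d
  obtain ⟨k, ⟨hk, hka⟩, hku⟩ := hE D f (d * (f g)⁻¹)
  refine ⟨k, ⟨hk, ?_⟩, ?_⟩
  · have h : k (ι g) = f g := DFunLike.congr_fun hk g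
    rw [map_mul, hka, h]
    group
  · rintro k' ⟨ha, hb⟩
    apply hku
    refine ⟨ha, ?_⟩
    have h : k' (ι g) = f g := DFunLike.congr_fun ha g
    rw [map_mul, h] at hb
    rw [← hb]
    group

theorem frOne_gen {G E : Type} [Group G] [Group E] (ι : G →* E) (a : E)
    (hE : FrOne ι a) : Subgroup.closure (Set.range ι ∪ {a}) = ⊤ := by
  have h1 : ∀ g, ι g ∈ Subgroup.closure (Set.range ι ∪ {a}) := fun g =>
    Subgroup.subset_closure (Or.inl ⟨g, rfl⟩)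
  have h2 : a ∈ Subgroup.closure (Set.range ι ∪ {a}) := Subgroup.subset_closure (Or.inr rfl)
  obtain ⟨k, ⟨hk, hka⟩, -⟩ := hE (Subgroup.closure (Set.range ι ∪ {a})) (ι.codRestrict _ h1) ⟨a, h2⟩
  obtain ⟨m, -, hmu⟩ := hE E ι a
  have h3 : (Subgroup.closure (Set.range ι ∪ {a})).subtype.comp k = m := by
    apply hmu
    refine ⟨?_, ?_⟩
    · rw [MonoidHom.comp_assoc, hk]
      rfl
    · show ((k a : Subgroup.closure (Set.range ι ∪ {a})) : E) = a
      rw [hka]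
  have h4 : MonoidHom.id E = m := hmu _ ⟨rfl, rfl⟩
  rw [eq_top_iff]
  intro x _
  have h5 : ((k x : Subgroup.closure (Set.range ι ∪ {a})) : E) = x := by
    have h6 := DFunLike.congr_fun (h3.trans h4.symm) x
    exact h6
  rw [← h5]
  exact (k x).2

theorem frTwo_gen {G E : Type} [Group G] [Group E] (ι : G →* E) (y v : E)
    (hE : FrTwo ι y v) : Subgroup.closure (Set.range ι ∪ {y, v}) = ⊤ := by
  have h1 : ∀ g, ι g ∈ Subgroup.closure (Set.range ι ∪ {y, v}) := fun g =>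
    Subgroup.subset_closure (Or.inl ⟨g, rfl⟩)
  have h2 : y ∈ Subgroup.closure (Set.range ι ∪ {y, v}) :=
    Subgroup.subset_closure (Or.inr (Or.inl rfl))
  have h2' : v ∈ Subgroup.closure (Set.range ι ∪ {y, v}) :=
    Subgroup.subset_closure (Or.inr (Or.inr rfl))
  obtain ⟨k, ⟨hk, hky, hkv⟩, -⟩ := hE (Subgroup.closure (Set.range ι ∪ {y, v}))
    (ι.codRestrict _ h1) ⟨y, h2⟩ ⟨v, h2'⟩
  obtain ⟨m, -, hmu⟩ := hE E ι y v
  have h3 : (Subgroup.closure (Set.range ι ∪ {y, v})).subtype.comp k = m := by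
    apply hmu
    refine ⟨?_, ?_, ?_⟩
    · rw [MonoidHom.comp_assoc, hk]
      rfl
    · show ((k y : Subgroup.closure (Set.range ι ∪ {y, v})) : E) = y
      rw [hky]
    · show ((k v : Subgroup.closure (Set.range ι ∪ {y, v})) : E) = v
      rw [hkv]
  have h4 : MonoidHom.id E = m := hmu _ ⟨rfl, rfl, rfl⟩
  rw [eq_top_iff]
  intro x _
  have h5 : ((k x : Subgroup.closure (Set.range ι ∪ {y, v})) : E) = x := by
    have h6 := DFunLike.congr_fun (h3.trans h4.symm) x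
    exact h6
  rw [← h5]
  exact (k x).2

theorem frOne_retr {G E : Type} [Group G] [Group E] (ι : G →* E) (a : E)
    (hE : FrOne ι a) : ∃ ρ : E →* G, ρ.comp ι = MonoidHom.id G := by
  obtain ⟨k, ⟨hk, -⟩, -⟩ := hE G (MonoidHom.id G) 1
  exact ⟨k, hk⟩

end PRT
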