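import Pool.Agent.PRT.Defs

/-!
# PRT/H2Basic (module PRT-H2Basic): formal properties of `H2Inj`

The property `H2Inj` of a composition (restrict twice) and of a homomorphism with a retraction `ρ` (the cocycle of the
large group is `f (ρ ·) (ρ ·)`).
-/

set_option autoImplicit false

namespace PRT

theorem h2inj_comp {G H P : Type} [Group G] [Group H] [Group P] (j : G →* H) (k : H →* P)
    (hj : H2Inj j) (hk : H2Inj k) : H2Inj (k.comp j) := by
  intro f hf
  obtain ⟨f1, hf1, b1, h1⟩ := hj f hf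
  obtain ⟨f2, hf2, b2, h2⟩ := hk f1 hf1
  refine ⟨f2, hf2, fun g => b1 g + b2 (j g), fun g h => ?_⟩
  show f2 (k (j g)) (k (j h)) =
    f g h + (b1 g + b2 (j g) + (b1 h + b2 (j h)) - (b1 (g * h) + b2 (j (g * h))))
  rw [h2, h1, map_mul]
  abel

theorem h2inj_of_retr {G P : Type} [Group G] [Group P] (j : G →* P) (ρ : P →* G)
    (h : ρ.comp j = MonoidHom.id G) : H2Inj j := by
  have hr : ∀ g, ρ (j g) = g := fun g => DFunLike.congr_fun h g
  intro f hf
  refine ⟨fun x y => f (ρ x) (ρ y), ?_, fun _ => 0, fun g g' => ?_⟩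
  · intro x y z
    show f (ρ y) (ρ z) + f (ρ x) (ρ (y * z)) = f (ρ (x * y)) (ρ z) + f (ρ x) (ρ y)
    rw [map_mul, map_mul]
    exact hf _ _ _
  · show f (ρ (j g)) (ρ (j g')) = f g g' + (0 + 0 - 0)
    rw [hr, hr, add_zero, sub_zero, add_zero]

end PRT
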