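import Pool.Agent.PRT.Fpc

/-! # PRT/Retr (module PRT-Retr): retracts of normal subgroups of 2-power index are closed -/

set_option autoImplicit false

namespace PRT

private theorem retr_exp {W : Type} [Group W] (h : FP W) : ∃ b : ℕ, ∀ w : W, w ^ (2 ^ b) = 1 := by
  obtain ⟨h1, h2⟩ := h
  have : Fact (Nat.Prime 2) := ⟨Nat.prime_two⟩
  obtain ⟨b, hb⟩ := IsPGroup.iff_card.1 h2
  exact ⟨b, fun w => by rw [← hb]; exact pow_card_eq_one'⟩

private theorem retr_core {G V : Type} [Group G] [Group V] (N : Subgroup G) [N.Normal]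
    (hN : FP (G ⧸ N)) (hV : FP V) (f : N →* V) :
    FP (G ⧸ (f.ker.map N.subtype).normalCore) := by
  have := hN.1
  have := hV.1
  have hfi : (f.ker.map N.subtype).FiniteIndex := by
    constructor
    have h1 : (f.ker.map N.subtype).relIndex N * N.index = (f.ker.map N.subtype).index := by
      refine Subgroup.relIndex_mul_index ?_
      rintro _ ⟨x, -, rfl⟩
      exact x.2
    rw [← h1]
    refine mul_ne_zero ?_ ?_
    · unfold Subgroup.relIndex
      have h2 : (f.ker.map N.subtype).subgroupOf N = f.ker :=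
        Subgroup.comap_map_eq_self_of_injective N.subtype_injective _
      rw [h2, Subgroup.index_ker]
      exact Nat.card_pos.ne'
    · unfold Subgroup.index
      exact Nat.card_pos.ne'
  refine ⟨?_, ?_⟩
  · have : ((f.ker.map N.subtype).normalCore).FiniteIndex := Subgroup.finiteIndex_normalCore _
    exact Subgroup.finite_quotient_of_finiteIndex
  · intro y
    obtain ⟨x, rfl⟩ := QuotientGroup.mk_surjective y
    obtain ⟨b, hb⟩ := retr_exp hV
    obtain ⟨a, ha⟩ := hN.2 (x : G ⧸ N)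
    refine ⟨a + b, ?_⟩
    rw [← QuotientGroup.mk_pow, QuotientGroup.eq_one_iff] at ha
    rw [← QuotientGroup.mk_pow, QuotientGroup.eq_one_iff]
    intro c
    have h1 : c * x ^ 2 ^ a * c⁻¹ ∈ N := ‹N.Normal›.conj_mem _ ha c
    refine ⟨(⟨c * x ^ 2 ^ a * c⁻¹, h1⟩ : N) ^ (2 ^ b), ?_, ?_⟩
    · show f _ = 1
      rw [map_pow, hb]
    · rw [map_pow]
      show (c * x ^ 2 ^ a * c⁻¹) ^ 2 ^ b = c * x ^ 2 ^ (a + b) * c⁻¹
      rw [conj_pow, ← pow_mul, ← pow_add]

theorem clP_of_retract (G : Type) [Group G] (hG : ResP G) (A N : Subgroup G) [N.Normal]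
    (hN : FP (G ⧸ N)) (hAN : A ≤ N) (ρ : N →* G) (hρ : ∀ n, ρ n ∈ A)
    (hρA : ∀ (a : G) (ha : a ∈ A), ρ ⟨a, hAN ha⟩ = a) : ClP A := by
  intro g hg
  by_cases hgN : g ∈ N
  · have h1 : g⁻¹ * ρ ⟨g, hgN⟩ ≠ 1 := by
      intro h
      apply hg
      have h2 : ρ ⟨g, hgN⟩ = g := by
        rw [inv_mul_eq_one] at h
        exact h.symm
      rw [← h2]
      exact hρ _
    obtain ⟨W, _, κ, hW, hκ⟩ := hG _ h1
    refine ⟨G ⧸ ((((κ.comp N.subtype).prod (κ.comp ρ)).ker.map N.subtype).normalCore), inferInstance,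
      QuotientGroup.mk' _, retr_core N hN (fp_prod hW hW) _, ?_⟩
    rintro ⟨a, ha, hag⟩
    have h2 : a⁻¹ * g ∈ (((κ.comp N.subtype).prod (κ.comp ρ)).ker.map N.subtype).normalCore :=
      QuotientGroup.eq.1 hag
    obtain ⟨m, hm, hmg⟩ := Subgroup.normalCore_le _ h2
    have hm' : ((κ.comp N.subtype).prod (κ.comp ρ)) m = 1 := hm
    have hm1 : κ (m : G) = 1 := congrArg Prod.fst hm'
    have hm2 : κ (ρ m) = 1 := congrArg Prod.snd hm'
    have h3 : g = a * (m : G) := by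
      have : (m : G) = a⁻¹ * g := hmg
      rw [this, mul_inv_cancel_left]
    have h4 : (⟨g, hgN⟩ : N) = ⟨a, hAN ha⟩ * m := Subtype.ext h3
    apply hκ
    have h5 : κ g = κ a := by rw [h3, map_mul, hm1, mul_one]
    rw [map_mul, map_inv, h4, map_mul, hρA a ha, map_mul, hm2, mul_one, h5, inv_mul_cancel]
  · refine ⟨G ⧸ N, inferInstance, QuotientGroup.mk' N, hN, ?_⟩
    rintro ⟨a, ha, hag⟩
    apply hgN
    have h2 : a⁻¹ * g ∈ N := QuotientGroup.eq.1 hag
    have h3 := N.mul_mem (hAN ha) h2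
    rwa [mul_inv_cancel_left] at h3

theorem clP_bot (G : Type) [Group G] (hG : ResP G) : ClP (⊥ : Subgroup G) := by
  intro g hg
  obtain ⟨W, _, f, hW, hf⟩ := hG g (fun h => hg (Subgroup.mem_bot.2 h))
  refine ⟨W, _, f, hW, ?_⟩
  rw [Subgroup.map_bot, Subgroup.mem_bot]
  exact hf

end PRT
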