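import Pool.Agent.PRT.HnnRes
import Pool.Agent.PRT.Retr
import Pool.Agent.PRT.FrVar
import Pool.Agent.PRT.H2Basic

/-!
# PRT/FrEx (module PRT-FrEx): free product with an infinite cyclic group

The free product is realized as an HNN extension with trivial associated subgroups.
-/

set_option autoImplicit false

namespace PRT

theorem exists_frOne (G : Type) [Group G] (hG : ResP G) :
    ∃ (E : Type) (_ : Group E) (ι : G →* E) (a : E), FrOne ι a ∧ ResP E ∧
      Function.Injective ι ∧ H2Inj ι := by
  have hA : ∀ a : (⊥ : Subgroup G), a = 1 := fun a => Subtype.ext (Subgroup.mem_bot.1 a.2)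
  have hc : Compat (⊥ : Subgroup G) ⊥ (MulEquiv.refl _) := by
    intro W _ f hW
    refine ⟨W, inferInstance, f, 1, hW, fun a => ?_, fun g h hgh => hgh⟩
    rw [hA a]
    simp
  have hF : FrOne (HNNExtension.of : G →* HNNExtension G ⊥ ⊥ (MulEquiv.refl _)) HNNExtension.t := by
    intro D _ f d
    have hx : ∀ a : (⊥ : Subgroup G), d * f ↑a = f ((MulEquiv.refl _ : (⊥ : Subgroup G) ≃* (⊥ : Subgroup G)) a : G) * d := by
      intro a
      rw [hA a]
      simp
    refine ⟨HNNExtension.lift f d hx, ⟨?_, HNNExtension.lift_t f d hx⟩, ?_⟩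
    · apply MonoidHom.ext
      intro g
      exact HNNExtension.lift_of f d hx g
    · rintro h ⟨h1, h2⟩
      apply HNNExtension.hom_ext
      · rw [h1]
        apply MonoidHom.ext
        intro g
        exact (HNNExtension.lift_of f d hx g).symm
      · rw [h2, HNNExtension.lift_t]
  obtain ⟨ρ, hρ⟩ := frOne_retr _ _ hF
  exact ⟨HNNExtension G ⊥ ⊥ (MulEquiv.refl _), inferInstance, HNNExtension.of, HNNExtension.t, hF,
    resP_hnn G ⊥ ⊥ (MulEquiv.refl _) hG (clP_bot G hG) (clP_bot G hG) hc,
    HNNExtension.of_injective _, h2inj_of_retr _ ρ hρ⟩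

end PRT
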