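import Pool.Agent.PRT.FreeRep
import Pool.Agent.PDC.MN.MagB

/-!
# PRT/FreeRes (module PRT-FreeRes): free groups are residually finite 2-groups

PLAN.  `mc_inj` (injectivity of the Magnus map) and `free_rep`.
-/

set_option autoImplicit false

open Pool.Agent.PDC.MN

namespace PRT

theorem resP_free (X : Type) : ResP (FreeGroup X) := by
  intro w hw
  obtain ⟨u, hne, hu⟩ := mc_inj w hw
  obtain ⟨W, iW, f, h1, h2, -⟩ := free_rep X w u hu hne
  exact ⟨W, iW, f, h1, h2⟩

end PRT
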