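import Pool.Agent.PRT.Fpc
import Pool.Agent.PRT.FreeRes

/-!
# PRT/ParaInj (module PRT-ParaInj): para-bases generate free groups, the isomorphism of the shift

PLAN.  `lift_inj`: let `w ≠ 1` in `FreeGroup Y`, `θ : FreeGroup Y → W`, `FP W`, `θ w ≠ 1` (`resP_free`); `u : X → W` with
`u (f y) = θ (of y)` (`Function.extend f (θ ∘ of) 1`, `f` injective); `hx` (`fp_nilp`) gives `h : G → W`; `h ∘ lift (x ∘ f) = θ`.
`exists_phi`: `F := FreeGroup (Fin n)`; `lift (z ∘ castSucc)` and `lift (z ∘ succ)` are injective with ranges `shA z`, `shB z`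
(`FreeGroup.range_lift_eq_closure` or the like); `φ := (ofInjective).symm.trans (ofInjective)` (`MonoidHom.ofInjective`),
with `MulEquiv.subgroupCongr` for the equality of the range with the closure.
-/

set_option autoImplicit false

namespace PRT

theorem lift_inj {G X Y : Type} [Group G] (x : X → G) (hx : Para x) (f : Y → X)
    (hf : Function.Injective f) : Function.Injective (FreeGroup.lift (x ∘ f)) := by
  rw [injective_iff_map_eq_one]
  intro w hw
  by_contra hne
  obtain ⟨W, iW, θ, hW, hθ⟩ := resP_free Y w hne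
  obtain ⟨h, h1, -⟩ := hx W (fp_nilp hW)
    (Function.extend f (fun y => θ (FreeGroup.of y)) (fun _ => 1))
  have hc : h.comp (FreeGroup.lift (x ∘ f)) = θ := by
    apply FreeGroup.ext_hom
    intro y
    rw [MonoidHom.comp_apply, FreeGroup.lift_apply_of, Function.comp_apply, h1,
      hf.extend_apply]
  apply hθ
  rw [← hc, MonoidHom.comp_apply, hw, map_one]

theorem exists_phi {G : Type} [Group G] {n : ℕ} (z : Fin (n + 1) → G) (hz : Para z) :
    ∃ φ : shA z ≃* shB z,
      ∀ (i : Fin n) (h : z i.castSucc ∈ shA z), (φ ⟨z i.castSucc, h⟩ : G) = z i.succ := by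
  have h1 := lift_inj z hz (Fin.castSucc : Fin n → Fin (n + 1)) (Fin.castSucc_injective n)
  have h2 := lift_inj z hz (Fin.succ : Fin n → Fin (n + 1)) (Fin.succ_injective n)
  have e1 : (FreeGroup.lift (z ∘ (Fin.castSucc : Fin n → Fin (n + 1)))).range = shA z :=
    FreeGroup.range_lift_eq_closure
  have e2 : (FreeGroup.lift (z ∘ (Fin.succ : Fin n → Fin (n + 1)))).range = shB z :=
    FreeGroup.range_lift_eq_closure
  let ψ1 : FreeGroup (Fin n) ≃* shA z :=
    (MonoidHom.ofInjective h1).trans (MulEquiv.subgroupCongr e1)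
  let ψ2 : FreeGroup (Fin n) ≃* shB z :=
    (MonoidHom.ofInjective h2).trans (MulEquiv.subgroupCongr e2)
  have k1 : ∀ w, (ψ1 w : G) = FreeGroup.lift (z ∘ (Fin.castSucc : Fin n → Fin (n + 1))) w :=
    fun w => rfl
  have k2 : ∀ w, (ψ2 w : G) = FreeGroup.lift (z ∘ (Fin.succ : Fin n → Fin (n + 1))) w :=
    fun w => rfl
  refine ⟨ψ1.symm.trans ψ2, ?_⟩
  intro i h
  have h3 : ψ1.symm ⟨z i.castSucc, h⟩ = FreeGroup.of i := by
    rw [MulEquiv.symm_apply_eq]
    apply Subtype.ext
    rw [k1, FreeGroup.lift_apply_of]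
    rfl
  rw [MulEquiv.trans_apply, h3, k2, FreeGroup.lift_apply_of]
  rfl

end PRT
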