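import Pool.Agent.PRT.Defs

/-!
# PRT/ShiftPara (module PRT-ShiftPara): generation and para-basis of the shift HNN extension
-/

set_option autoImplicit false

namespace PRT

theorem shift_gen {G P : Type} [Group G] [Group P] {n : ℕ} (z : Fin (n + 1) → G) (o : G →* P)
    (t : P) (h : IsShift z o t) : Subgroup.closure (Set.range o ∪ {t}) = ⊤ := by
  set S : Subgroup P := Subgroup.closure (Set.range o ∪ {t}) with hS
  have ho : ∀ g, o g ∈ S := fun g => Subgroup.subset_closure (Or.inl ⟨g, rfl⟩)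
  have ht : t ∈ S := Subgroup.subset_closure (Or.inr rfl)
  obtain ⟨k, ⟨hk1, hk2⟩, -⟩ := h.lift S (o.codRestrict S ho) ⟨t, ht⟩ (fun i => Subtype.ext (h.rel i))
  obtain ⟨m, -, hm⟩ := h.lift P o t h.rel
  have h1 : S.subtype.comp k = m := by
    refine hm _ ⟨?_, ?_⟩
    · rw [MonoidHom.comp_assoc, hk1]
      rfl
    · rw [MonoidHom.comp_apply, hk2]
      rfl
  have h2 : MonoidHom.id P = m := hm _ ⟨rfl, rfl⟩
  rw [eq_top_iff]
  intro p _
  have h3 : S.subtype.comp k = MonoidHom.id P := h1.trans h2.symm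
  have h4 : ((k p : S) : P) = p := DFunLike.congr_fun h3 p
  rw [← h4]
  exact (k p).2

theorem shift_rel {G P : Type} [Group G] [Group P] {n : ℕ} (z : Fin (n + 1) → G) (o : G →* P)
    (t : P) (h : IsShift z o t) (i : Fin (n + 1)) :
    o (z i) = t ^ (i : ℕ) * o (z 0) * (t ^ (i : ℕ))⁻¹ := by
  induction i using Fin.induction with
  | zero => simp
  | succ i ih =>
    have h1 := h.rel i
    have h2 : o (z i.succ) = t * o (z i.castSucc) * t⁻¹ := by
      rw [h1, mul_inv_cancel_right]
    rw [h2, ih, Fin.val_castSucc, Fin.val_succ]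
    generalize o (z 0) = a
    rw [pow_succ' t, mul_inv_rev]
    group

private theorem shift_step {W : Type} [Group W] (a b : W) (n : ℕ) :
    b * (b ^ n * a * (b ^ n)⁻¹) = b ^ (n + 1) * a * (b ^ (n + 1))⁻¹ * b := by
  rw [pow_succ' b, mul_inv_rev]
  group

theorem shift_para {G P : Type} [Group G] [Group P] {n : ℕ} (z : Fin (n + 1) → G) (hz : Para z)
    (o : G →* P) (t : P) (h : IsShift z o t) : Para ![o (z 0), t] := by
  intro W _ hW f
  obtain ⟨g, hg, hgu⟩ := hz W hW (fun i => f 1 ^ (i : ℕ) * f 0 * (f 1 ^ (i : ℕ))⁻¹)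
  have hrel : ∀ i : Fin n, f 1 * g (z i.castSucc) = g (z i.succ) * f 1 := by
    intro i
    rw [hg, hg]
    exact shift_step (f 0) (f 1) i
  obtain ⟨k, ⟨hk1, hk2⟩, hku⟩ := h.lift W g (f 1) hrel
  refine ⟨k, ?_, ?_⟩
  · intro i
    refine Fin.cases ?_ (fun j => ?_) i
    · show k (o (z 0)) = f 0
      have h1 : k (o (z 0)) = g (z 0) := DFunLike.congr_fun hk1 (z 0)
      rw [h1, hg]
      simp
    · have hj : j = 0 := Subsingleton.elim _ _
      subst hj
      exact hk2
  · intro k' hk'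
    have h0 : k' (o (z 0)) = f 0 := hk' 0
    have h1 : k' t = f 1 := hk' 1
    refine hku k' ⟨?_, h1⟩
    refine hgu _ fun i => ?_
    show k' (o (z i)) = _
    rw [shift_rel z o t h i, map_mul, map_mul, map_inv, map_pow, h0, h1]

theorem shift_fg {G P : Type} [Group G] [Group P] {n : ℕ} (z : Fin (n + 1) → G) (o : G →* P)
    (t : P) (h : IsShift z o t) (hG : Group.FG G) : Group.FG P := by
  obtain ⟨S, hS, hf⟩ := Group.fg_iff.1 hG
  refine Group.fg_iff.2 ⟨o '' S ∪ {t}, ?_, (hf.image o).union (Set.finite_singleton t)⟩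
  rw [eq_top_iff, ← shift_gen z o t h, Subgroup.closure_le]
  rintro p (⟨g, rfl⟩ | hp)
  · have h1 : g ∈ Subgroup.closure S := by
      rw [hS]
      exact Subgroup.mem_top g
    have h2 : o g ∈ (Subgroup.closure S).map o := Subgroup.mem_map_of_mem o h1
    rw [MonoidHom.map_closure] at h2
    exact Subgroup.closure_mono Set.subset_union_left h2
  · exact Subgroup.subset_closure (Or.inr hp)

end PRT
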