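import Pool.Agent.PRT.CExt
import Pool.Agent.PRT.ParaInj
import Pool.Agent.PRT.ShiftPara

/-!
# PRT/H2Hnn (module PRT-H2Hnn): the HNN extension of a central extension

PLAN.  `h2inj_of_ext`.  Let `E, p, s, i` be a central extension of `G`.  `F := FreeGroup (Fin n)`, `α, β : F → E`,
`α (of k) = s (z k.castSucc)`, `β (of k) = s (z k.succ)`; `p ∘ α = lift (z ∘ castSucc)` and `p ∘ β = lift (z ∘ succ)` are injective
(`lift_inj`).  `Multiplicative ℚ/ℤ × F → E`, `(c, w) ↦ i c * α w` is an injective homomorphism (`i 0 = 1`; if `i c * α w = 1` apply `p`);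
let `A` be its range, `B` the range of the one with `β`, `φ : A ≃* B` the induced isomorphism (`MonoidHom.ofInjective`):
`φ (i c) = i c`, `φ (α w) = β w`.  `D := HNNExtension E A B φ`, `e = of` (`of_injective`), `q := HNNExtension.lift (o.comp p) t`: the
condition `t * o (p a) = o (p (φ a)) * t` on `A`: for `a = i c * α w` it is `t * o (lift (z ∘ castSucc) w) = o (lift (z ∘ succ) w) * t`,
by induction on `w` from `h.rel`.  Surjective: `shift_gen`.  `e (i a)` is central in `D`: it commutes with `of` and with `t`
(`t * of a = of (φ a) * t`); induction (`HNNExtension.induction_on`) or: its centralizer contains the generators.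
Kernel: `K := range (e ∘ i)` is a central, so normal, subgroup; `h.lift` with `D ⧸ K`: `g ↦ mk (e (s g))` is a homomorphism (`coc`),
`t ↦ mk t` (relation: `s (z k.castSucc) = α (of k)`, `φ (α (of k)) = β (of k) = s (z k.succ)`): `r : P → D ⧸ K`.
`r ∘ q = mk`: `HNNExtension.hom_ext` (`e x` and `e (s (p x))` differ by an element of `K`: `x * (s (p x))⁻¹` is in the kernel of `p`).  So `q d = 1` implies `d ∈ K`.
-/

set_option autoImplicit false

open HNNExtension

namespace PRT

section

variable {G E : Type} [Group G] [Group E] {f : G → G → PF.QZ} {p : E →* G} {s : G → E}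
  {i : PF.QZ → E}

private theorem i_zero (hc : CExt f p s i) : i 0 = 1 := by
  have h := hc.add 0 0
  rw [add_zero] at h
  exact mul_eq_left.1 h.symm

private theorem p_i (hc : CExt f p s i) (a : PF.QZ) : p (i a) = 1 := (hc.ker _).2 ⟨a, rfl⟩

/-- `(c, w) ↦ i c * α w` -/
private def em (hc : CExt f p s i) {Y : Type} (α : FreeGroup Y →* E) :
    Multiplicative PF.QZ × FreeGroup Y →* E where
  toFun x := i (Multiplicative.toAdd x.1) * α x.2
  map_one' := by
    show i 0 * α 1 = 1
    rw [i_zero hc, map_one, one_mul]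
  map_mul' x y := by
    show i (Multiplicative.toAdd x.1 + Multiplicative.toAdd y.1) * α (x.2 * y.2) =
      i (Multiplicative.toAdd x.1) * α x.2 * (i (Multiplicative.toAdd y.1) * α y.2)
    rw [hc.add, map_mul]
    calc i (Multiplicative.toAdd x.1) * i (Multiplicative.toAdd y.1) * (α x.2 * α y.2)
        = i (Multiplicative.toAdd x.1) * (i (Multiplicative.toAdd y.1) * α x.2) * α y.2 := by
          group
      _ = i (Multiplicative.toAdd x.1) * (α x.2 * i (Multiplicative.toAdd y.1)) * α y.2 := by
          rw [hc.cen (Multiplicative.toAdd y.1) (α x.2)]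
      _ = _ := by group

private theorem em_apply (hc : CExt f p s i) {Y : Type} (α : FreeGroup Y →* E) (c : PF.QZ)
    (w : FreeGroup Y) : em hc α (Multiplicative.ofAdd c, w) = i c * α w := rfl

private theorem em_inj (hc : CExt f p s i) {Y : Type} (α : FreeGroup Y →* E)
    (hα : Function.Injective (p.comp α)) : Function.Injective (em hc α) := by
  rw [injective_iff_map_eq_one]
  rintro ⟨c, w⟩ h
  have h0 : i (Multiplicative.toAdd c) * α w = 1 := h
  have h1 : (p.comp α) w = 1 := by
    have := congrArg p h0
    rw [map_mul, p_i hc, one_mul, map_one] at this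
    exact this
  have h2 : w = 1 := hα (by rw [h1, map_one])
  subst h2
  rw [map_one, mul_one, ← i_zero hc] at h0
  have h3 : c = 1 := hc.inj h0
  rw [h3]
  rfl

end

theorem h2inj_shift {G P : Type} [Group G] [Group P] {n : ℕ} (z : Fin (n + 1) → G)
    (hz : Para z) (o : G →* P) (t : P) (h : IsShift z o t) : H2Inj o := by
  apply h2inj_of_ext
  intro f E _ p s i hc
  let α : FreeGroup (Fin n) →* E := FreeGroup.lift fun k => s (z k.castSucc)
  let β : FreeGroup (Fin n) →* E := FreeGroup.lift fun k => s (z k.succ)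
  have hα0 : ∀ k, α (FreeGroup.of k) = s (z k.castSucc) := fun k => FreeGroup.lift_apply_of
  have hβ0 : ∀ k, β (FreeGroup.of k) = s (z k.succ) := fun k => FreeGroup.lift_apply_of
  have hpα : p.comp α = FreeGroup.lift (z ∘ Fin.castSucc) := by
    apply FreeGroup.ext_hom
    intro k
    rw [MonoidHom.comp_apply, hα0, hc.sec, FreeGroup.lift_apply_of]
    rfl
  have hpβ : p.comp β = FreeGroup.lift (z ∘ Fin.succ) := by
    apply FreeGroup.ext_hom
    intro k
    rw [MonoidHom.comp_apply, hβ0, hc.sec, FreeGroup.lift_apply_of]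
    rfl
  have hα : Function.Injective (p.comp α) := by
    rw [hpα]
    exact lift_inj z hz _ (Fin.castSucc_injective n)
  have hβ : Function.Injective (p.comp β) := by
    rw [hpβ]
    exact lift_inj z hz _ (Fin.succ_injective n)
  let eα := MonoidHom.ofInjective (em_inj hc α hα)
  let eβ := MonoidHom.ofInjective (em_inj hc β hβ)
  let A : Subgroup E := (em hc α).range
  let B : Subgroup E := (em hc β).range
  let φ : A ≃* B := eα.symm.trans eβ
  have hφ : ∀ x, φ ⟨em hc α x, x, rfl⟩ = ⟨em hc β x, x, rfl⟩ := by
    intro x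
    have h1 : eα x = ⟨em hc α x, x, rfl⟩ := rfl
    show eβ (eα.symm ⟨em hc α x, x, rfl⟩) = _
    rw [← h1, MulEquiv.symm_apply_apply]
    rfl
  have hrel : ∀ w : FreeGroup (Fin n),
      t * o (p (α w)) = o (p (β w)) * t := by
    have h1 : ((MulAut.conj t).toMonoidHom.comp o).comp (p.comp α) = o.comp (p.comp β) := by
      apply FreeGroup.ext_hom
      intro k
      show t * o (p (α (FreeGroup.of k))) * t⁻¹ = o (p (β (FreeGroup.of k)))
      rw [hα0, hβ0, hc.sec, hc.sec, h.rel k, mul_inv_cancel_right]
    intro w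
    have h2 : t * o (p (α w)) * t⁻¹ = o (p (β w)) := DFunLike.congr_fun h1 w
    rw [← h2, inv_mul_cancel_right]
  let q : HNNExtension E A B φ →* P := HNNExtension.lift (o.comp p) t (by
    rintro ⟨_, ⟨c, w⟩, rfl⟩
    rw [hφ]
    show t * o (p (i (Multiplicative.toAdd c) * α w)) =
      o (p (i (Multiplicative.toAdd c) * β w)) * t
    rw [map_mul p, map_mul p, p_i hc, one_mul, one_mul]
    exact hrel w)
  have hq1 : ∀ e : E, q (of e) = o (p e) := fun e => HNNExtension.lift_of _ _ _ e
  have hq2 : q HNNExtension.t = t := HNNExtension.lift_t _ _ _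
  have hof : Function.Injective (of : E →* HNNExtension E A B φ) := HNNExtension.of_injective φ
  have hcent : ∀ (a : PF.QZ) (d : HNNExtension E A B φ), Commute (of (i a)) d := by
    intro a d
    induction d using HNNExtension.induction_on with
    | of g =>
      show of (i a) * of g = of g * of (i a)
      rw [← map_mul, ← map_mul, hc.cen]
    | t =>
      show of (i a) * HNNExtension.t = HNNExtension.t * of (i a)
      have h1 := HNNExtension.t_mul_of (φ := φ)
        ⟨em hc α (Multiplicative.ofAdd a, 1), (Multiplicative.ofAdd a, 1), rfl⟩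
      rw [hφ] at h1
      have h2 : em hc α (Multiplicative.ofAdd a, 1) = i a := by
        rw [em_apply, map_one, mul_one]
      have h3 : em hc β (Multiplicative.ofAdd a, 1) = i a := by
        rw [em_apply, map_one, mul_one]
      simp only [h2, h3] at h1
      exact h1.symm
    | mul x y hx hy => exact hx.mul_right hy
    | inv x hx => exact hx.inv_right
  let kk : Multiplicative PF.QZ →* HNNExtension E A B φ :=
    of.comp ((em hc α).comp (MonoidHom.inl _ _))
  have hkk : ∀ c : PF.QZ, kk (Multiplicative.ofAdd c) = of (i c) := by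
    intro c
    show of (i c * α 1) = of (i c)
    rw [map_one, mul_one]
  let K : Subgroup (HNNExtension E A B φ) := kk.range
  have hK : K.Normal := by
    refine ⟨?_⟩
    rintro _ ⟨c, rfl⟩ d
    have h1 : kk c = of (i (Multiplicative.toAdd c)) := hkk _
    have h2 := hcent (Multiplicative.toAdd c) d
    rw [h1, ← h2.eq, mul_inv_cancel_right]
    exact ⟨c, h1⟩
  have hmk : ∀ (a : PF.QZ) (d : HNNExtension E A B φ),
      (QuotientGroup.mk (of (i a) * d) : HNNExtension E A B φ ⧸ K) = QuotientGroup.mk d := by
    intro a d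
    have h1 : (QuotientGroup.mk (of (i a)) : HNNExtension E A B φ ⧸ K) = 1 :=
      (QuotientGroup.eq_one_iff _).2 ⟨Multiplicative.ofAdd a, hkk a⟩
    rw [QuotientGroup.mk_mul, h1, one_mul]
  let g0 : G →* HNNExtension E A B φ ⧸ K := MonoidHom.mk'
    (fun g => QuotientGroup.mk (of (s g))) (by
      intro g g'
      rw [← QuotientGroup.mk_mul, ← map_mul, hc.coc, map_mul, hmk])
  obtain ⟨r, ⟨hr1, hr2⟩, -⟩ := h.lift (HNNExtension E A B φ ⧸ K) g0
    (QuotientGroup.mk HNNExtension.t) (by
      intro k
      show (QuotientGroup.mk HNNExtension.t * QuotientGroup.mk (of (s (z k.castSucc))) :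
        HNNExtension E A B φ ⧸ K) = QuotientGroup.mk (of (s (z k.succ))) *
          QuotientGroup.mk HNNExtension.t
      have h1 := HNNExtension.t_mul_of (φ := φ)
        ⟨em hc α (Multiplicative.ofAdd 0, FreeGroup.of k),
          (Multiplicative.ofAdd 0, FreeGroup.of k), rfl⟩
      rw [hφ] at h1
      have h2 : em hc α (Multiplicative.ofAdd 0, FreeGroup.of k) = s (z k.castSucc) := by
        rw [em_apply, i_zero hc, one_mul, hα0]
      have h3 : em hc β (Multiplicative.ofAdd 0, FreeGroup.of k) = s (z k.succ) := by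
        rw [em_apply, i_zero hc, one_mul, hβ0]
      simp only [h2, h3] at h1
      rw [← QuotientGroup.mk_mul, ← QuotientGroup.mk_mul, h1])
  have hrq : r.comp q = QuotientGroup.mk' K := by
    apply HNNExtension.hom_ext
    · apply MonoidHom.ext
      intro e
      show r (q (of e)) = QuotientGroup.mk (of e)
      rw [hq1]
      have h1 : r (o (p e)) = g0 (p e) := DFunLike.congr_fun hr1 (p e)
      rw [h1]
      show (QuotientGroup.mk (of (s (p e))) : HNNExtension E A B φ ⧸ K) = QuotientGroup.mk (of e)
      obtain ⟨a, ha⟩ := (hc.ker (e * (s (p e))⁻¹)).1 (by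
        rw [map_mul, map_inv, hc.sec, mul_inv_cancel])
      have h2 : e = i a * s (p e) := by rw [ha, inv_mul_cancel_right]
      conv_rhs => rw [h2, map_mul, hmk]
    · show r (q HNNExtension.t) = QuotientGroup.mk HNNExtension.t
      rw [hq2, hr2]
  refine ⟨HNNExtension E A B φ, inferInstance, q, of, ?_, hof, hq1, ?_, fun a d => hcent a d⟩
  · rw [← MonoidHom.range_eq_top, eq_top_iff, ← shift_gen z o t h, Subgroup.closure_le]
    rintro _ (⟨g, rfl⟩ | hx)
    · exact ⟨of (s g), by rw [hq1, hc.sec]⟩
    · rw [Set.mem_singleton_iff] at hx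
      subst hx
      exact ⟨HNNExtension.t, hq2⟩
  · intro d hd
    have h1 : (QuotientGroup.mk d : HNNExtension E A B φ ⧸ K) = 1 := by
      have h2 : r (q d) = QuotientGroup.mk d := DFunLike.congr_fun hrq d
      rw [← h2, hd, map_one]
    obtain ⟨c, hc'⟩ := (QuotientGroup.eq_one_iff _).1 h1
    exact ⟨Multiplicative.toAdd c, by rw [← hc']; exact (hkk _).symm⟩

end PRT
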