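import Pool.Agent.PRT.Defs
import Pool.Agent.PF.CohSurj

/-!
# PRT/H2Map (module PRT-H2Map): `H2Inj` and the map on homology

Characters of the group of 2-chains and cocycles with values in `ℚ/ℤ`.
-/

set_option autoImplicit false

open CategoryTheory groupHomology

namespace PRT

/-- the map on `H_2(·;ℤ)` induced by a homomorphism -/
noncomputable def H2map {G P : Type} [Group G] [Group P] (j : G →* P) :
    groupHomology (Rep.trivial ℤ G ℤ) 2 ⟶ groupHomology (Rep.trivial ℤ P ℤ) 2 :=
  groupHomology.map (A := Rep.trivial ℤ G ℤ) (B := Rep.trivial ℤ P ℤ) j (𝟙 _) 2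

private noncomputable def idJ {G P : Type} [Group G] [Group P] (j : G →* P) :
    Rep.trivial ℤ G ℤ ⟶ Rep.res j (Rep.trivial ℤ P ℤ) := 𝟙 _

private theorem hm_d21 (H : Type) [Group H] (g h : H) (a : ℤ) :
    (d₂₁ (Rep.trivial ℤ H ℤ)).hom (Finsupp.single (g, h) a)
      = Finsupp.single h a - Finsupp.single (g * h) a + Finsupp.single g a := by
  have := d₂₁_single (A := Rep.trivial ℤ H ℤ) (g, h) a
  simpa using this

private theorem hm_d32 (H : Type) [Group H] (g h j : H) (a : ℤ) :
    (d₃₂ (Rep.trivial ℤ H ℤ)).hom (Finsupp.single (g, h, j) a)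
      = Finsupp.single (h, j) a - Finsupp.single (g * h, j) a + Finsupp.single (g, h * j) a
        - Finsupp.single (g, h) a := by
  have := d₃₂_single (A := Rep.trivial ℤ H ℤ) (g, h, j) a
  simpa using this

private theorem hm_map {G P : Type} [Group G] [Group P] (j : G →* P) (g h : G) (a : ℤ) :
    (chainsMap₂ j (idJ j)).hom (Finsupp.single (g, h) a)
      = Finsupp.single (j g, j h) a := by
  simp [idJ]
  rfl

/-- a character of `ℤ[H × H]` which kills the boundaries gives a cocycle -/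
private theorem hm_coc (H : Type) [Group H] (ψ : (H × H →₀ ℤ) →+ PF.QZ)
    (hψ : ∀ w : H × H × H →₀ ℤ, ψ ((d₃₂ (Rep.trivial ℤ H ℤ)).hom w) = 0) :
    PF.IsCoc (fun g h : H => ψ (Finsupp.single (g, h) 1)) := by
  intro g h j
  have h1 := hψ (Finsupp.single (g, h, j) 1)
  rw [hm_d32, map_sub, map_add, map_sub] at h1
  simp only
  rw [← sub_eq_zero, ← h1]
  abel

/-- a character of `ℤ[H × H]` whose cocycle is a coboundary factors through `d₂₁` -/
private theorem hm_fac (H : Type) [Group H] (ψ : (H × H →₀ ℤ) →+ PF.QZ) (b : H → PF.QZ)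
    (hb : ∀ g h : H, ψ (Finsupp.single (g, h) 1) = b g + b h - b (g * h))
    (z : H × H →₀ ℤ) (hz : (d₂₁ (Rep.trivial ℤ H ℤ)).hom z = 0) : ψ z = 0 := by
  let β : (H →₀ ℤ) →+ PF.QZ := Finsupp.liftAddHom fun g => (zmultiplesHom PF.QZ) (b g)
  have hβ : ∀ (g : H) (a : ℤ), β (Finsupp.single g a) = a • b g := fun g a => by
    simp [β]
  have key : ψ = β.comp ((d₂₁ (Rep.trivial ℤ H ℤ)).hom.toAddMonoidHom) := by
    refine Finsupp.addHom_ext fun x a => ?_
    obtain ⟨g, h⟩ := x
    have e1 : (Finsupp.single (g, h) a : H × H →₀ ℤ) = a • Finsupp.single (g, h) 1 := by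
      rw [Finsupp.smul_single, smul_eq_mul, mul_one]
    have e2 : (d₂₁ (Rep.trivial ℤ H ℤ)).hom.toAddMonoidHom (Finsupp.single (g, h) a)
        = Finsupp.single h a - Finsupp.single (g * h) a + Finsupp.single g a := hm_d21 H g h a
    rw [AddMonoidHom.comp_apply, e2, map_add, map_sub, hβ, hβ, hβ, e1, map_zsmul, hb, smul_sub,
      smul_add]
    abel
  rw [key, AddMonoidHom.comp_apply]
  have e3 : (d₂₁ (Rep.trivial ℤ H ℤ)).hom.toAddMonoidHom z = 0 := hz
  rw [e3, map_zero]

/-- the character of a cocycle kills the boundaries -/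
private theorem hm_bd (H : Type) [Group H] (f : H → H → PF.QZ) (hf : PF.IsCoc f)
    (w : H × H × H →₀ ℤ) :
    (Finsupp.liftAddHom fun x : H × H => (zmultiplesHom PF.QZ) (f x.1 x.2))
      ((d₃₂ (Rep.trivial ℤ H ℤ)).hom w) = 0 := by
  let ψ : (H × H →₀ ℤ) →+ PF.QZ :=
    Finsupp.liftAddHom fun x : H × H => (zmultiplesHom PF.QZ) (f x.1 x.2)
  have hψ : ∀ (g h : H) (a : ℤ), ψ (Finsupp.single (g, h) a) = a • f g h := fun g h a => by
    simp [ψ]
  have key : ψ.comp ((d₃₂ (Rep.trivial ℤ H ℤ)).hom.toAddMonoidHom) = 0 := by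
    refine Finsupp.addHom_ext fun x a => ?_
    obtain ⟨g, h, k⟩ := x
    have e2 : (d₃₂ (Rep.trivial ℤ H ℤ)).hom.toAddMonoidHom (Finsupp.single (g, h, k) a)
        = Finsupp.single (h, k) a - Finsupp.single (g * h, k) a + Finsupp.single (g, h * k) a
          - Finsupp.single (g, h) a := hm_d32 H g h k a
    rw [AddMonoidHom.comp_apply, e2, map_sub, map_add, map_sub, hψ, hψ, hψ, hψ,
      AddMonoidHom.zero_apply, ← smul_sub, ← smul_add, ← smul_sub]
    have h1 := hf g h k
    have h2 : f h k - f (g * h) k + f g (h * k) - f g h = 0 := by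
      rw [sub_add_eq_add_sub, h1]
      abel
    rw [h2, smul_zero]
  exact DFunLike.congr_fun key w

theorem h2map_injective {G P : Type} [Group G] [Group P] (j : G →* P) (hj : H2Inj j) :
    Function.Injective (H2map j) := by
  have key : ∀ y : groupHomology (Rep.trivial ℤ G ℤ) 2, (H2map j).hom y = 0 → y = 0 := by
    intro y hy
    induction y using H2_induction_on with
    | h z =>
      rw [H2π_eq_zero_iff]
      by_contra hz
      let W : Submodule ℤ (G × G →₀ ℤ) := boundaries₂ (Rep.trivial ℤ G ℤ)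
      have hne : W.mkQ z.1 ≠ 0 := by
        rw [Submodule.mkQ_apply, Ne, Submodule.Quotient.mk_eq_zero]
        exact hz
      obtain ⟨c, hc⟩ := CharacterModule.exists_character_apply_ne_zero_of_ne_zero hne
      let ψ : (G × G →₀ ℤ) →+ PF.QZ := AddMonoidHom.comp c W.mkQ.toAddMonoidHom
      have hW : ∀ w ∈ W, ψ w = 0 := by
        intro w hw
        change c (W.mkQ w) = 0
        rw [Submodule.mkQ_apply, (Submodule.Quotient.mk_eq_zero W).2 hw, map_zero]
      have h1 : PF.IsCoc (fun g h : G => ψ (Finsupp.single (g, h) 1)) :=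
        hm_coc G ψ fun w => hW _ (LinearMap.mem_range_self _ w)
      obtain ⟨f', hf', b, hb⟩ := hj _ h1
      let ψ' : (P × P →₀ ℤ) →+ PF.QZ :=
        Finsupp.liftAddHom fun x : P × P => (zmultiplesHom PF.QZ) (f' x.1 x.2)
      let ι : (G × G →₀ ℤ) →ₗ[ℤ] (P × P →₀ ℤ) := (chainsMap₂ j (idJ j)).hom
      have e1 : (H2map j).hom (H2π (Rep.trivial ℤ G ℤ) z)
          = H2π (Rep.trivial ℤ P ℤ) (mapCycles₂ j (idJ j) z) := by
        unfold H2map
        exact H2π_comp_map_apply _ _ _
      have h2 : ψ' (ι z.1) = 0 := by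
        rw [e1, H2π_eq_zero_iff, coe_mapCycles₂] at hy
        obtain ⟨w, hw⟩ := hy
        have h3 := hm_bd P f' hf' w
        have h4 : (d₃₂ (Rep.trivial ℤ P ℤ)).hom w = ι z.1 := hw
        rw [h4] at h3
        exact h3
      have h5 : (ψ'.comp ι.toAddMonoidHom - ψ) z.1 = 0 := by
        refine hm_fac G _ b (fun g h => ?_) z.1 z.2
        have h6 : ψ' (ι (Finsupp.single (g, h) 1)) = f' (j g) (j h) := by
          have h7 : ι (Finsupp.single (g, h) 1) = Finsupp.single (j g, j h) 1 := hm_map j g h 1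
          rw [h7]
          simp [ψ']
        show ψ' (ι (Finsupp.single (g, h) 1)) - ψ (Finsupp.single (g, h) 1) = _
        rw [h6, hb g h]
        abel
      apply hc
      have h8 : ψ' (ι z.1) - ψ z.1 = 0 := h5
      rw [h2, zero_sub, neg_eq_zero] at h8
      exact h8
  intro x y hxy
  rw [← sub_eq_zero]
  apply key
  rw [map_sub]
  exact sub_eq_zero.2 hxy

theorem h2_isZero {G P : Type} [Group G] [Group P] (j : G →* P)
    (hj : Function.Injective (H2map j))
    (h : Limits.IsZero (groupHomology (Rep.trivial ℤ P ℤ) 2)) :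
    Limits.IsZero (groupHomology (Rep.trivial ℤ G ℤ) 2) := by
  rw [ModuleCat.isZero_iff_subsingleton] at h ⊢
  exact hj.subsingleton

end PRT
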