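import Pool.Agent.PRT.Fpc
import Pool.Agent.PRT.FreeRes

/-!
# PRT/SemiRes (module PRT-SemiRes): `F(Ω) ⋊ Q` is residually a finite 2-group

A nontrivial element of `F(Ω)` is seen in a finite 2-group `W` by a map of the generators; the maps of `F(Ω)` to `W`
given by all families of elements of `W` form an equivariant map of `F(Ω)` to the group of all functions `W^Ω → W`.
-/

set_option autoImplicit false

namespace PRT

private def sr_k (Ω W : Type) [Group W] : FreeGroup Ω →* ((Ω → W) → W) :=
  FreeGroup.lift fun ω f => f ω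

private theorem sr_k_apply (Ω W : Type) [Group W] (v : FreeGroup Ω) (f : Ω → W) :
    sr_k Ω W v f = FreeGroup.lift f v := by
  have h : (Pi.evalMonoidHom (fun _ : Ω → W => W) f).comp (sr_k Ω W) = FreeGroup.lift f := by
    apply FreeGroup.ext_hom
    intro ω
    show sr_k Ω W (FreeGroup.of ω) f = _
    unfold sr_k
    rw [FreeGroup.lift_apply_of, FreeGroup.lift_apply_of]
  exact DFunLike.congr_fun h v

private theorem sr_eq (Q Ω W : Type) [Group Q] [MulAction Q Ω] [Group W] (q : Q) :
    (sr_k Ω W).comp (actF Q Ω q).toMonoidHom = (actE Q Ω W ((MonoidHom.id Q) q)).toMonoidHom.comp (sr_k Ω W) := by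
  apply FreeGroup.ext_hom
  intro ω
  have h1 : (actF Q Ω q) (FreeGroup.of ω) = FreeGroup.of (q • ω) := FreeGroup.map.of
  show sr_k Ω W ((actF Q Ω q) (FreeGroup.of ω)) = actE Q Ω W q (sr_k Ω W (FreeGroup.of ω))
  rw [h1]
  unfold sr_k
  rw [FreeGroup.lift_apply_of, FreeGroup.lift_apply_of]
  rfl

theorem resP_SF (Q Ω : Type) [Group Q] [MulAction Q Ω] [Finite Ω] (hQ : FP Q) :
    ResP (SF Q Ω) := by
  intro x hx
  by_cases h1 : x.right = 1
  · have h2 : x.left ≠ 1 := by
      intro h
      exact hx (SemidirectProduct.ext h h1)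
    obtain ⟨W, iW, θ, hW, hθ⟩ := resP_free Ω x.left h2
    refine ⟨SE Q Ω W, inferInstance, SemidirectProduct.map (sr_k Ω W) (MonoidHom.id Q) (sr_eq Q Ω W),
      fp_SE Q Ω W hQ hW, ?_⟩
    intro h
    have h3 : sr_k Ω W x.left = 1 := congrArg SemidirectProduct.left h
    apply hθ
    have h4 : θ = FreeGroup.lift fun ω => θ (FreeGroup.of ω) := by
      apply FreeGroup.ext_hom
      intro ω
      rw [FreeGroup.lift_apply_of]
    rw [h4, ← sr_k_apply, h3]
    rfl
  · exact ⟨Q, inferInstance, SemidirectProduct.rightHom, hQ, h1⟩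

end PRT
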