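import Pool.Agent.PRT.Defs

/-! # PRT/Word (module PRT-Word): reduced words of the HNN extension go to reduced words of a free group -/

set_option autoImplicit false

open HNNExtension HNNExtension.NormalWord

namespace PRT

/-- the letters of the image of a word -/
private def ltl {G Q Ω : Type} [Group G] [Group Q] (π : G →* Q) (τ : Q) (mk : Q → Ω) :
    Q → List (ℤˣ × G) → List (Ω × Bool)
  | _, [] => []
  | x, p :: L => if p.1 = 1 then (mk x, true) :: ltl π τ mk (x * τ * π p.2) L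
      else (mk (x * τ⁻¹), false) :: ltl π τ mk (x * τ⁻¹ * π p.2) L

private lemma ltl_one {G Q Ω : Type} [Group G] [Group Q] (π : G →* Q) (τ : Q) (mk : Q → Ω)
    (x : Q) (g : G) (L : List (ℤˣ × G)) :
    ltl π τ mk x ((1, g) :: L) = (mk x, true) :: ltl π τ mk (x * τ * π g) L := by
  simp [ltl]

private lemma ltl_neg {G Q Ω : Type} [Group G] [Group Q] (π : G →* Q) (τ : Q) (mk : Q → Ω)
    (x : Q) (g : G) (L : List (ℤˣ × G)) :
    ltl π τ mk x ((-1, g) :: L) = (mk (x * τ⁻¹), false) :: ltl π τ mk (x * τ⁻¹ * π g) L := by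
  have h : ¬ ((-1 : ℤˣ) = 1) := by decide
  simp [ltl, h]

private lemma ltl_red {G Q Ω : Type} [Group G] [Group Q] (π : G →* Q) (τ : Q) (mk : Q → Ω)
    (A B : Subgroup G) : ∀ (L : List (ℤˣ × G)) (x : Q),
    L.IsChain (fun a b => a.2 ∈ toSubgroup A B a.1 → a.1 = b.1) →
    (∀ p ∈ L, ∀ x, mk x = mk (x * τ * π p.2 * τ⁻¹) → p.2 ∈ A) →
    (∀ p ∈ L, ∀ x, mk (x * τ⁻¹) = mk (x * τ⁻¹ * π p.2) → p.2 ∈ B) →
    FreeGroup.IsReduced (ltl π τ mk x L)
  | [], x, _, _, _ => by
    simp only [ltl]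
    exact FreeGroup.IsReduced.nil
  | [(u, g)], x, _, _, _ => by
    rcases Int.units_eq_one_or u with rfl | rfl
    · rw [ltl_one]
      exact FreeGroup.IsReduced.singleton
    · rw [ltl_neg]
      exact FreeGroup.IsReduced.singleton
  | (u, g) :: (v, k) :: L, x, hc, h1, h2 => by
    have ih : ∀ y, FreeGroup.IsReduced (ltl π τ mk y ((v, k) :: L)) := fun y =>
      ltl_red π τ mk A B ((v, k) :: L) y (List.isChain_cons_cons.1 hc).2
        (fun p hp => h1 p (List.mem_cons_of_mem _ hp)) (fun p hp => h2 p (List.mem_cons_of_mem _ hp))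
    have hc1 := (List.isChain_cons_cons.1 hc).1
    have m1 := h1 (u, g) List.mem_cons_self
    have m2 := h2 (u, g) List.mem_cons_self
    rcases Int.units_eq_one_or u with rfl | rfl <;> rcases Int.units_eq_one_or v with rfl | rfl
    · have i := ih (x * τ * π g)
      rw [ltl_one] at i
      rw [ltl_one, ltl_one]
      exact FreeGroup.isReduced_cons_cons.2 ⟨fun _ => rfl, i⟩
    · have i := ih (x * τ * π g)
      rw [ltl_neg] at i
      rw [ltl_one, ltl_neg]
      refine FreeGroup.isReduced_cons_cons.2 ⟨fun h => ?_, i⟩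
      have hA : g ∈ A := m1 x h
      have h3 : (1 : ℤˣ) = -1 := hc1 hA
      exact absurd h3 (by decide)
    · have i := ih (x * τ⁻¹ * π g)
      rw [ltl_one] at i
      rw [ltl_neg, ltl_one]
      refine FreeGroup.isReduced_cons_cons.2 ⟨fun h => ?_, i⟩
      have hB : g ∈ B := m2 x h
      have h3 : (-1 : ℤˣ) = 1 := hc1 hB
      exact absurd h3 (by decide)
    · have i := ih (x * τ⁻¹ * π g)
      rw [ltl_neg] at i
      rw [ltl_neg, ltl_neg]
      exact FreeGroup.isReduced_cons_cons.2 ⟨fun _ => rfl, i⟩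

private lemma ltl_ne {G Q Ω : Type} [Group G] [Group Q] (π : G →* Q) (τ : Q) (mk : Q → Ω)
    (L : List (ℤˣ × G)) (hL : L ≠ []) (x : Q) : ltl π τ mk x L ≠ [] := by
  cases L with
  | nil => exact absurd rfl hL
  | cons p L =>
    obtain ⟨u, g⟩ := p
    rcases Int.units_eq_one_or u with rfl | rfl
    · rw [ltl_one]
      exact List.cons_ne_nil _ _
    · rw [ltl_neg]
      exact List.cons_ne_nil _ _

private lemma ltl_prod {G Q Ω : Type} [Group G] [Group Q] [MulAction Q Ω] (π : G →* Q) (τ : Q)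
    (mk : Q → Ω) (S : ℤˣ × G → SF Q Ω)
    (hp : ∀ (w : FreeGroup Ω) (x : Q) (g : G),
      (⟨w, x⟩ : SF Q Ω) * S (1, g) = ⟨w * FreeGroup.of (mk x), x * τ * π g⟩)
    (hm : ∀ (w : FreeGroup Ω) (x : Q) (g : G),
      (⟨w, x⟩ : SF Q Ω) * S (-1, g) = ⟨w * (FreeGroup.of (mk (x * τ⁻¹)))⁻¹, x * τ⁻¹ * π g⟩)
    (L : List (ℤˣ × G)) : ∀ (w : FreeGroup Ω) (x : Q), ∃ y : Q,
      (⟨w, x⟩ : SF Q Ω) * (L.map S).prod = ⟨w * FreeGroup.mk (ltl π τ mk x L), y⟩ := by
  induction L with
  | nil =>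
    intro w x
    refine ⟨x, ?_⟩
    simp only [ltl, List.map_nil, List.prod_nil, mul_one]
    rw [← FreeGroup.one_eq_mk, mul_one]
  | cons p L ih =>
    intro w x
    obtain ⟨u, g⟩ := p
    rcases Int.units_eq_one_or u with rfl | rfl
    · obtain ⟨y, hy⟩ := ih (w * FreeGroup.of (mk x)) (x * τ * π g)
      refine ⟨y, ?_⟩
      rw [List.map_cons, List.prod_cons, ← mul_assoc, hp, hy, ltl_one, mul_assoc]
      congr 2
    · obtain ⟨y, hy⟩ := ih (w * (FreeGroup.of (mk (x * τ⁻¹)))⁻¹) (x * τ⁻¹ * π g)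
      refine ⟨y, ?_⟩
      rw [List.map_cons, List.prod_cons, ← mul_assoc, hm, hy, ltl_neg, mul_assoc]
      congr 2

theorem exists_xi (G : Type) [Group G] (A B : Subgroup G) (φ : A ≃* B) (Q : Type) [Group Q]
    (π : G →* Q) (τ : Q) (hτ : ∀ a : A, τ * π a = π (φ a) * τ) :
    ∃ Ξ : HNNExtension G A B φ →* SF Q (Q ⧸ B.map π),
      (∀ g, Ξ (HNNExtension.of g) = SemidirectProduct.inr (π g)) ∧
      ∀ w : ReducedWord G A B, w.toList ≠ [] →
        (∀ p ∈ w.toList, p.2 ∉ A → π p.2 ∉ A.map π) →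
        (∀ p ∈ w.toList, p.2 ∉ B → π p.2 ∉ B.map π) → Ξ (w.prod φ) ≠ 1 := by
  have hb1 : ∀ b : B, (π b) • (QuotientGroup.mk 1 : Q ⧸ B.map π) = QuotientGroup.mk 1 := by
    intro b
    show (QuotientGroup.mk (π b * 1) : Q ⧸ B.map π) = QuotientGroup.mk 1
    rw [mul_one]
    exact QuotientGroup.eq.2 (by
      rw [mul_one]
      exact (B.map π).inv_mem (Subgroup.mem_map_of_mem π b.2))
  obtain ⟨s, hs⟩ : ∃ s : SF Q (Q ⧸ B.map π), s =
      SemidirectProduct.inl (FreeGroup.of (QuotientGroup.mk 1 : Q ⧸ B.map π)) := ⟨_, rfl⟩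
  have hcomm : ∀ b : B, (SemidirectProduct.inr (π b) : SF Q (Q ⧸ B.map π)) * s =
      s * SemidirectProduct.inr (π b) := by
    intro b
    rw [hs]
    apply SemidirectProduct.ext
    · rw [SemidirectProduct.mul_left, SemidirectProduct.mul_left]
      rw [SemidirectProduct.left_inr, SemidirectProduct.right_inr,
        SemidirectProduct.left_inl, SemidirectProduct.right_inl, map_one, one_mul, mul_one]
      show FreeGroup.map (fun x : Q ⧸ B.map π => π b • x) (FreeGroup.of (QuotientGroup.mk 1)) = _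
      rw [FreeGroup.map.of, hb1]
    · rw [SemidirectProduct.mul_right, SemidirectProduct.mul_right, SemidirectProduct.right_inr,
        SemidirectProduct.right_inl, one_mul, mul_one]
  have hx : ∀ a : A, (s * SemidirectProduct.inr τ) *
      ((SemidirectProduct.inr : Q →* SF Q (Q ⧸ B.map π)).comp π) (a : G) =
      ((SemidirectProduct.inr : Q →* SF Q (Q ⧸ B.map π)).comp π) (φ a : G) *
        (s * SemidirectProduct.inr τ) := by
    intro a
    rw [MonoidHom.comp_apply, MonoidHom.comp_apply, mul_assoc, ← map_mul, hτ, map_mul, ← mul_assoc,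
      ← hcomm, mul_assoc]
  obtain ⟨Ξ, hΞ⟩ : ∃ Ξ : HNNExtension G A B φ →* SF Q (Q ⧸ B.map π),
      Ξ = HNNExtension.lift ((SemidirectProduct.inr : Q →* SF Q (Q ⧸ B.map π)).comp π)
        (s * SemidirectProduct.inr τ) hx := ⟨_, rfl⟩
  have hof : ∀ g, Ξ (HNNExtension.of g) = SemidirectProduct.inr (π g) := by
    intro g
    rw [hΞ, HNNExtension.lift_of]
    rfl
  have ht : Ξ HNNExtension.t = s * SemidirectProduct.inr τ := by
    rw [hΞ, HNNExtension.lift_t]
  refine ⟨Ξ, hof, ?_⟩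
  intro w hw h1 h2 h0
  have hp : ∀ (v : FreeGroup (Q ⧸ B.map π)) (x : Q) (g : G),
      (⟨v, x⟩ : SF Q (Q ⧸ B.map π)) *
        Ξ (HNNExtension.t ^ (((1 : ℤˣ), g).1 : ℤ) * HNNExtension.of ((1 : ℤˣ), g).2) =
      ⟨v * FreeGroup.of (QuotientGroup.mk x), x * τ * π g⟩ := by
    intro v x g
    show (⟨v, x⟩ : SF Q (Q ⧸ B.map π)) *
        Ξ (HNNExtension.t ^ ((1 : ℤˣ) : ℤ) * HNNExtension.of g) = _
    rw [Units.val_one, zpow_one, map_mul, ht, hof, hs]
    apply SemidirectProduct.ext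
    · simp only [SemidirectProduct.mul_left, SemidirectProduct.left_inr,
        SemidirectProduct.left_inl, SemidirectProduct.right_inl, map_one, mul_one]
      show v * FreeGroup.map (fun y : Q ⧸ B.map π => x • y) (FreeGroup.of (QuotientGroup.mk 1)) = _
      rw [FreeGroup.map.of]
      show v * FreeGroup.of (QuotientGroup.mk (x * 1)) = _
      rw [mul_one]
    · simp only [SemidirectProduct.mul_right, SemidirectProduct.right_inr,
        SemidirectProduct.right_inl, one_mul, mul_assoc]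
  have hm : ∀ (v : FreeGroup (Q ⧸ B.map π)) (x : Q) (g : G),
      (⟨v, x⟩ : SF Q (Q ⧸ B.map π)) *
        Ξ (HNNExtension.t ^ (((-1 : ℤˣ), g).1 : ℤ) * HNNExtension.of ((-1 : ℤˣ), g).2) =
      ⟨v * (FreeGroup.of (QuotientGroup.mk (x * τ⁻¹)))⁻¹, x * τ⁻¹ * π g⟩ := by
    intro v x g
    show (⟨v, x⟩ : SF Q (Q ⧸ B.map π)) *
        Ξ (HNNExtension.t ^ ((-1 : ℤˣ) : ℤ) * HNNExtension.of g) = _
    rw [Units.val_neg, Units.val_one, zpow_neg, zpow_one, map_mul, map_inv, ht, hof, hs,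
      mul_inv_rev, ← map_inv, ← map_inv]
    apply SemidirectProduct.ext
    · simp only [SemidirectProduct.mul_left, SemidirectProduct.left_inr,
        SemidirectProduct.left_inl, SemidirectProduct.right_inr, map_one, mul_one, one_mul,
        SemidirectProduct.mul_right, SemidirectProduct.right_inl]
      rw [← MulAut.mul_apply, ← map_mul]
      show v * FreeGroup.map (fun y : Q ⧸ B.map π => (x * τ⁻¹) • y)
        (FreeGroup.of (QuotientGroup.mk 1))⁻¹ = _
      rw [map_inv, FreeGroup.map.of]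
      show v * (FreeGroup.of (QuotientGroup.mk ((x * τ⁻¹) * 1)))⁻¹ = _
      rw [mul_one]
    · simp only [SemidirectProduct.mul_right, SemidirectProduct.right_inr,
        SemidirectProduct.right_inl, mul_one, one_mul, mul_assoc]
  obtain ⟨y, hy⟩ := ltl_prod π τ (QuotientGroup.mk : Q → Q ⧸ B.map π)
    (fun p => Ξ (HNNExtension.t ^ (p.1 : ℤ) * HNNExtension.of p.2)) hp hm w.toList 1 (π w.head)
  have hprod : Ξ (w.prod φ) = (⟨1, π w.head⟩ : SF Q (Q ⧸ B.map π)) *
      (w.toList.map (fun p => Ξ (HNNExtension.t ^ (p.1 : ℤ) * HNNExtension.of p.2))).prod := by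
    unfold ReducedWord.prod
    rw [map_mul, hof, map_list_prod, List.map_map]
    rfl
  rw [hprod, hy, one_mul] at h0
  have hl : FreeGroup.mk (ltl π τ (QuotientGroup.mk : Q → Q ⧸ B.map π) (π w.head) w.toList) = 1 := by
    have := congrArg SemidirectProduct.left h0
    exact this
  have hred : FreeGroup.IsReduced
      (ltl π τ (QuotientGroup.mk : Q → Q ⧸ B.map π) (π w.head) w.toList) := by
    refine ltl_red π τ _ A B w.toList (π w.head) w.chain ?_ ?_
    · intro p hp x hx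
      by_contra hA
      refine h1 p hp hA ?_
      have hq := QuotientGroup.eq.1 hx
      have hq2 : τ * π p.2 * τ⁻¹ ∈ B.map π := by
        have e : x⁻¹ * (x * τ * π p.2 * τ⁻¹) = τ * π p.2 * τ⁻¹ := by group
        rwa [e] at hq
      obtain ⟨b, hb, hbe⟩ := Subgroup.mem_map.1 hq2
      have ha := hτ (φ.symm ⟨b, hb⟩)
      rw [MulEquiv.apply_symm_apply] at ha
      have e2 : π p.2 = π (φ.symm ⟨b, hb⟩ : A) := by
        have e3 : τ * π (φ.symm ⟨b, hb⟩ : A) = τ * π p.2 := by
          rw [ha]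
          show π b * τ = _
          rw [hbe, mul_assoc, inv_mul_cancel, mul_one]
        exact (mul_left_cancel e3).symm
      rw [e2]
      exact Subgroup.mem_map_of_mem π (φ.symm ⟨b, hb⟩).2
    · intro p hp x hx
      by_contra hB
      refine h2 p hp hB ?_
      have hq := QuotientGroup.eq.1 hx
      have e : (x * τ⁻¹)⁻¹ * (x * τ⁻¹ * π p.2) = π p.2 := by group
      rwa [e] at hq
  have hne := ltl_ne π τ (QuotientGroup.mk : Q → Q ⧸ B.map π) w.toList hw (π w.head)
  classical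
  apply hne
  rw [← hred.reduce_eq]
  have := congrArg FreeGroup.toWord hl
  rw [FreeGroup.toWord_mk, FreeGroup.toWord_one] at this
  exact this

end PRT
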