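import Pool.Agent.PRT.Fpc
import Pool.Agent.PRT.SemiRes
import Pool.Agent.PRT.Word

/-!
# PRT/HnnRes (module PRT-HnnRes): HNN extensions which are residually finite 2-groups

For a reduced word with finitely many letters a finite 2-quotient of `G` is chosen which separates
them from `A`, `B` and `1`; the compatible quotient given by `Compat` and `exists_xi` map the word to
a non-trivial element of a semidirect product which is residually a finite 2-group.
-/

set_option autoImplicit false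

open HNNExtension HNNExtension.NormalWord

namespace PRT

private theorem fp_ker {G W : Type} [Group G] [Group W] (f : G →* W) (h : FP W) :
    FP (G ⧸ f.ker) :=
  fp_inj h (QuotientGroup.kerLift f) (QuotientGroup.kerLift_injective f)

private theorem fp_infq {G : Type} [Group G] (K L : Subgroup G) [K.Normal] [L.Normal]
    (hK : FP (G ⧸ K)) (hL : FP (G ⧸ L)) :
    ∃ M : Subgroup G, ∃ _ : M.Normal, FP (G ⧸ M) ∧ M ≤ K ∧ M ≤ L := by
  let f : G →* (G ⧸ K) × (G ⧸ L) := (QuotientGroup.mk' K).prod (QuotientGroup.mk' L)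
  refine ⟨f.ker, inferInstance, fp_ker f (fp_prod hK hL), ?_, ?_⟩
  · intro x hx
    have h1 : f x = 1 := hx
    have h2 : (QuotientGroup.mk' K) x = 1 := congrArg Prod.fst h1
    exact (QuotientGroup.eq_one_iff x).1 h2
  · intro x hx
    have h1 : f x = 1 := hx
    have h2 : (QuotientGroup.mk' L) x = 1 := congrArg Prod.snd h1
    exact (QuotientGroup.eq_one_iff x).1 h2

private theorem exK {G : Type} [Group G] (R : G → Subgroup G → Prop)
    (hR : ∀ g K L, K ≤ L → R g L → R g K)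
    (h : ∀ g, ∃ K : Subgroup G, ∃ _ : K.Normal, FP (G ⧸ K) ∧ R g K) (S : List G) :
    ∃ K : Subgroup G, ∃ _ : K.Normal, FP (G ⧸ K) ∧ ∀ g ∈ S, R g K := by
  induction S with
  | nil =>
    obtain ⟨K, hK, h1, -⟩ := h 1
    exact ⟨K, hK, h1, fun g hg => absurd hg (by simp)⟩
  | cons x S ih =>
    obtain ⟨K, hK, h1, h2⟩ := h x
    obtain ⟨L, hL, h3, h4⟩ := ih
    obtain ⟨M, hM, h5, h6, h7⟩ := fp_infq K L h1 h3
    refine ⟨M, hM, h5, ?_⟩
    intro g hg
    rcases List.mem_cons.1 hg with rfl | hg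
    · exact hR _ _ _ h6 h2
    · exact hR _ _ _ h7 (h4 g hg)

private theorem exOne {G : Type} [Group G] (A : Subgroup G) (hA : ClP A) (g : G) :
    ∃ K : Subgroup G, ∃ _ : K.Normal, FP (G ⧸ K) ∧ (g ∉ A → ∀ a ∈ A, a⁻¹ * g ∉ K) := by
  by_cases hg : g ∈ A
  · have h1 : FP (G ⧸ (1 : G →* Unit).ker) := by
      apply fp_ker
      exact ⟨inferInstance, fun x => ⟨0, Subsingleton.elim _ _⟩⟩
    exact ⟨_, inferInstance, h1, fun h => absurd hg h⟩
  · obtain ⟨W, _, f, hW, hf⟩ := hA g hg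
    refine ⟨f.ker, inferInstance, fp_ker f hW, ?_⟩
    intro _ a ha hk
    apply hf
    refine ⟨a, ha, ?_⟩
    have h1 : f (a⁻¹ * g) = 1 := hk
    rw [map_mul, map_inv] at h1
    exact (inv_mul_eq_one.1 h1)

theorem resP_hnn (G : Type) [Group G] (A B : Subgroup G) (φ : A ≃* B) (hG : ResP G)
    (hA : ClP A) (hB : ClP B) (hc : Compat A B φ) : ResP (HNNExtension G A B φ) := by
  classical
  intro p hp
  obtain ⟨d⟩ : Nonempty (TransversalPair G A B) := TransversalPair.nonempty G A B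
  obtain ⟨w, hw⟩ : ∃ w : ReducedWord G A B, w.prod φ = p :=
    ⟨(p • (NormalWord.empty : NormalWord d)).toReducedWord, by
      rw [prod_smul, prod_empty, mul_one]⟩
  obtain ⟨K, hKn, hK, hS⟩ := exK
    (fun g K => (g ∉ A → ∀ a ∈ A, a⁻¹ * g ∉ K) ∧ (g ∉ B → ∀ b ∈ B, b⁻¹ * g ∉ K) ∧
      (g ≠ 1 → g ∉ K))
    (fun g K L hKL hL => ⟨fun h1 a ha h2 => hL.1 h1 a ha (hKL h2),
      fun h1 a ha h2 => hL.2.1 h1 a ha (hKL h2), fun h1 h2 => hL.2.2 h1 (hKL h2)⟩)
    (by
      intro g
      obtain ⟨K1, n1, h1, k1⟩ := exOne A hA g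
      obtain ⟨K2, n2, h2, k2⟩ := exOne B hB g
      obtain ⟨K3, n3, h3, k3⟩ := exOne (⊥ : Subgroup G) (by
        intro x hx
        obtain ⟨W, _, f, hW, hf⟩ := hG x (fun h => hx (by rw [h]; exact Subgroup.one_mem _))
        refine ⟨W, _, f, hW, ?_⟩
        rintro ⟨y, hy, hxy⟩
        have h1 : y = 1 := hy
        rw [h1, map_one] at hxy
        exact hf hxy.symm) g
      obtain ⟨K4, n4, h4, k4, k4'⟩ := fp_infq K1 K2 h1 h2
      obtain ⟨K5, n5, h5, k5, k5'⟩ := fp_infq K4 K3 h4 h3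
      refine ⟨K5, n5, h5, fun q1 a ha q2 => k1 q1 a ha (k4 (k5 q2)),
        fun q1 a ha q2 => k2 q1 a ha (k4' (k5 q2)), fun q1 q2 => ?_⟩
      refine k3 (fun h => q1 h) 1 (Subgroup.one_mem _) ?_
      rw [inv_one, one_mul]
      exact k5' q2)
    (w.head :: w.toList.map Prod.snd)
  obtain ⟨Q, _, π, τ, hQ, hτ, hfac⟩ := hc (G ⧸ K) (QuotientGroup.mk' K) hK
  obtain ⟨Ξ, hΞ1, hΞ2⟩ := exists_xi G A B φ Q π τ hτ
  have : Finite Q := hQ.1
  have hfac' : ∀ g h : G, π g = π h → g⁻¹ * h ∈ K := by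
    intro g h hgh
    have := hfac g h hgh
    exact QuotientGroup.eq.1 this
  have hne : Ξ p ≠ 1 := by
    by_cases hl : w.toList = []
    · have h1 : p = of w.head := by
        rw [← hw, ReducedWord.prod, hl, List.map_nil, List.prod_nil, mul_one]
      rw [h1, hΞ1]
      intro h2
      have h3 : π w.head = 1 := SemidirectProduct.inr_injective (by rw [h2, map_one])
      have h4 : w.head ≠ 1 := by
        intro h
        apply hp
        rw [h1, h, map_one]
      have h5 := (hS w.head (by simp)).2.2 h4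
      apply h5
      have h6 := hfac' 1 w.head (by rw [h3, map_one])
      rwa [inv_one, one_mul] at h6
    · rw [← hw]
      refine hΞ2 w hl ?_ ?_
      · rintro q hq hqA ⟨a, ha, hqa⟩
        exact (hS q.2 (by
          rw [List.mem_cons]; right
          exact List.mem_map.2 ⟨q, hq, rfl⟩)).1 hqA a ha (hfac' a q.2 hqa)
      · rintro q hq hqB ⟨b, hb, hqb⟩
        exact (hS q.2 (by
          rw [List.mem_cons]; right
          exact List.mem_map.2 ⟨q, hq, rfl⟩)).2.1 hqB b hb (hfac' b q.2 hqb)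
  obtain ⟨W, _, f, hW, hf⟩ := resP_SF Q (Q ⧸ B.map π) hQ (Ξ p) hne
  exact ⟨W, _, f.comp Ξ, hW, hf⟩

end PRT
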