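import Pool.Agent.PRT.Fpc

/-!
# PRT/ParaRank (module PRT-ParaRank): quotients determined by a para-basis

A para-basis gives isomorphisms of the quotients by the terms of the lower central series (or of the derived series)
with those of the free group of rank two; the lower central series of a residually finite 2-group has trivial
intersection.
-/

set_option autoImplicit false

namespace PRT

private theorem iso_aux {P : Type} [Group P] (p : Fin 2 → P) (NP : Subgroup P) [NP.Normal]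
    (NF : Subgroup (FreeGroup (Fin 2))) [NF.Normal]
    (h1 : ∃ h : P →* FreeGroup (Fin 2) ⧸ NF, ∀ i, h (p i) = QuotientGroup.mk' NF (FreeGroup.of i))
    (h2 : ∀ h h' : P →* P ⧸ NP, (∀ i, h (p i) = h' (p i)) → h = h')
    (k1 : ∀ h : P →* FreeGroup (Fin 2) ⧸ NF, NP ≤ h.ker)
    (k2 : ∀ h : FreeGroup (Fin 2) →* P ⧸ NP, NF ≤ h.ker) :
    Nonempty ((P ⧸ NP) ≃* (FreeGroup (Fin 2) ⧸ NF)) := by
  obtain ⟨h, hh⟩ := h1
  let α : P ⧸ NP →* FreeGroup (Fin 2) ⧸ NF := QuotientGroup.lift NP h (k1 h)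
  let g : FreeGroup (Fin 2) →* P ⧸ NP := FreeGroup.lift fun i => QuotientGroup.mk' NP (p i)
  let β : FreeGroup (Fin 2) ⧸ NF →* P ⧸ NP := QuotientGroup.lift NF g (k2 g)
  have hα : ∀ x : P, α (QuotientGroup.mk' NP x) = h x := fun x => rfl
  have hβ : ∀ i, β (QuotientGroup.mk' NF (FreeGroup.of i)) = QuotientGroup.mk' NP (p i) := fun i => by
    show g (FreeGroup.of i) = _
    exact FreeGroup.lift_apply_of
  refine ⟨MonoidHom.toMulEquiv α β ?_ ?_⟩
  · apply QuotientGroup.monoidHom_ext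
    apply h2
    intro i
    show β (α (QuotientGroup.mk' NP (p i))) = QuotientGroup.mk' NP (p i)
    rw [hα, hh, hβ]
  · apply QuotientGroup.monoidHom_ext
    apply FreeGroup.ext_hom
    intro i
    show α (β (QuotientGroup.mk' NF (FreeGroup.of i))) = QuotientGroup.mk' NF (FreeGroup.of i)
    rw [hβ, hα, hh]

private theorem gam_map {G W : Type} [Group G] [Group W] (f : G →* W) (n : ℕ) :
    (PF.gam G n).map f ≤ PF.gam W n := by
  show ((⊤ : Subgroup G).lowerCentralSeries n).map f ≤ (⊤ : Subgroup W).lowerCentralSeries n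
  rw [Subgroup.map_lowerCentralSeries]
  exact Subgroup.lowerCentralSeries_mono n le_top

private theorem gam_quot (G : Type) [Group G] (n : ℕ) : PF.gam (G ⧸ PF.gam G n) n = ⊥ := by
  have h1 : Subgroup.map (QuotientGroup.mk' (PF.gam G n)) (PF.gam G n) = PF.gam (G ⧸ PF.gam G n) n := by
    show Subgroup.map _ ((⊤ : Subgroup G).lowerCentralSeries n) = _
    rw [Subgroup.map_lowerCentralSeries,
      Subgroup.map_top_of_surjective _ (QuotientGroup.mk'_surjective _)]
  rw [← h1, Subgroup.map_eq_bot_iff, QuotientGroup.ker_mk']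

private theorem gam_ker {G W : Type} [Group G] [Group W] (n : ℕ) (hW : PF.gam W n = ⊥) (f : G →* W) :
    PF.gam G n ≤ f.ker := by
  rw [← Subgroup.map_eq_bot_iff, eq_bot_iff, ← hW]
  exact gam_map f n

theorem rank_of_para {P : Type} [Group P] (p : Fin 2 → P) (hp : Para p) (n : ℕ) :
    Nonempty ((P ⧸ PF.gam P n) ≃* (FreeGroup (Fin 2) ⧸ PF.gam (FreeGroup (Fin 2)) n)) := by
  have hn : ∀ (G : Type) [Group G], Group.IsNilpotent (G ⧸ PF.gam G n) := fun G _ =>
    Subgroup.nilpotent_iff_lowerCentralSeries.2 ⟨n, gam_quot G n⟩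
  refine iso_aux p (PF.gam P n) (PF.gam (FreeGroup (Fin 2)) n) ?_ ?_ ?_ ?_
  · obtain ⟨h, hh, -⟩ := hp (FreeGroup (Fin 2) ⧸ PF.gam (FreeGroup (Fin 2)) n) (hn _)
      (fun i => QuotientGroup.mk' _ (FreeGroup.of i))
    exact ⟨h, hh⟩
  · intro h h' e
    exact (hp (P ⧸ PF.gam P n) (hn _) fun i => h' (p i)).unique e fun i => rfl
  · exact gam_ker n (gam_quot _ n)
  · exact gam_ker n (gam_quot _ n)

private theorem der_quot (G : Type) [Group G] (m : ℕ) :
    derivedSeries (G ⧸ derivedSeries G m) m = ⊥ := by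
  rw [← map_derivedSeries_eq (QuotientGroup.mk'_surjective (derivedSeries G m)) m,
    Subgroup.map_eq_bot_iff, QuotientGroup.ker_mk']

private theorem der_ker {G W : Type} [Group G] [Group W] (m : ℕ) (hW : derivedSeries W m = ⊥)
    (f : G →* W) : derivedSeries G m ≤ f.ker := by
  rw [← Subgroup.map_eq_bot_iff, eq_bot_iff, ← hW]
  exact map_derivedSeries_le_derivedSeries f m

theorem solv_of_paraS {P : Type} [Group P] (p : Fin 2 → P) (m : ℕ) (hp : ParaS m p) :
    Nonempty ((P ⧸ derivedSeries P m) ≃*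
      (FreeGroup (Fin 2) ⧸ derivedSeries (FreeGroup (Fin 2)) m)) := by
  refine iso_aux p (derivedSeries P m) (derivedSeries (FreeGroup (Fin 2)) m) ?_ ?_ ?_ ?_
  · obtain ⟨h, hh, -⟩ := hp (FreeGroup (Fin 2) ⧸ derivedSeries (FreeGroup (Fin 2)) m) (der_quot _ m)
      (fun i => QuotientGroup.mk' _ (FreeGroup.of i))
    exact ⟨h, hh⟩
  · intro h h' e
    exact (hp (P ⧸ derivedSeries P m) (der_quot _ m) fun i => h' (p i)).unique e fun i => rfl
  · exact der_ker m (der_quot _ m)
  · exact der_ker m (der_quot _ m)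

theorem iInf_gam {P : Type} [Group P] (hP : ResP P) : (⨅ n : ℕ, PF.gam P n) = ⊥ := by
  rw [eq_bot_iff]
  intro g hg
  rw [Subgroup.mem_bot]
  by_contra hg1
  obtain ⟨W, iW, f, hW, hf⟩ := hP g hg1
  obtain ⟨n, hn⟩ := Subgroup.nilpotent_iff_lowerCentralSeries.1 (fp_nilp hW)
  exact hf (gam_ker n hn f (Subgroup.mem_iInf.1 hg n))

end PRT
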