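import Pool.Agent.PRT.ShiftPara
import Pool.Agent.PRT.FrVar

/-!
# PRT/ParaSol (module PRT-ParaSol): solvable quotients in Step 2

The images of `P` in the shift lie in the commutator subgroup (`deep_step`), so a homomorphism to a solvable group of derived
length `m + 2` restricts to a homomorphism from `P` to a group of derived length `m + 1`.
-/

set_option autoImplicit false

namespace PRT

private theorem rels {P E Q D : Type} [Group P] [Group E] [Group Q] [Group D] (ι : P →* E) (a : E)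
    (p : Fin 2 → P) (o : E →* Q) (t : Q)
    (h : IsShift (n := 2) ![a, a * ι (p 0), a * ι (p 0) * ι (p 1)] o t) (k : Q →* D) :
    k (o (ι (p 0))) = (k (o a))⁻¹ * k t * k (o a) * (k t)⁻¹ ∧
    k (o (ι (p 1))) = (k (o a) * k (o (ι (p 0))))⁻¹ * k t * (k (o a) * k (o (ι (p 0)))) * (k t)⁻¹ := by
  have h0 : t * o a = o (a * ι (p 0)) * t := h.rel 0
  have h1 : t * o (a * ι (p 0)) = o (a * ι (p 0) * ι (p 1)) * t := h.rel 1
  have h0' := congrArg k h0
  have h1' := congrArg k h1
  simp only [map_mul] at h0' h1'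
  constructor
  · rw [mul_assoc, mul_assoc, ← mul_assoc (k t), h0']
    group
  · rw [mul_assoc, mul_assoc, ← mul_assoc (k t), h1']
    group

private theorem comm4 {A : Type} [CommGroup A] (x y : A) : x⁻¹ * y * x * y⁻¹ = 1 := by
  rw [mul_comm x⁻¹ y, mul_assoc y, inv_mul_cancel, mul_one, mul_inv_cancel]

theorem deep_step {P E Q : Type} [Group P] [Group E] [Group Q] (ι : P →* E) (a : E)
    (p : Fin 2 → P) (hp : Para p) (o : E →* Q) (t : Q)
    (h : IsShift (n := 2) ![a, a * ι (p 0), a * ι (p 0) * ι (p 1)] o t) (g : P) :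
    o (ι g) ∈ derivedSeries Q 1 := by
  obtain ⟨r0, r1⟩ := rels ι a p o t h (Abelianization.of : Q →* Abelianization Q)
  have e0 : Abelianization.of (o (ι (p 0))) = 1 := by
    rw [r0]
    exact comm4 _ _
  have e1 : Abelianization.of (o (ι (p 1))) = 1 := by
    rw [r1]
    exact comm4 _ _
  obtain ⟨k, -, hk⟩ := hp (Abelianization Q) inferInstance fun _ => 1
  have h1 : (Abelianization.of.comp (o.comp ι) : P →* Abelianization Q) = k := by
    refine hk _ fun i => ?_
    fin_cases i
    · exact e0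
    · exact e1
  have h2 : (1 : P →* Abelianization Q) = k := hk _ fun i => rfl
  have h3 : Abelianization.of (o (ι g)) = 1 := by
    have h4 : (Abelianization.of.comp (o.comp ι) : P →* Abelianization Q) g = 1 := by
      rw [h1, ← h2]
      rfl
    exact h4
  have h5 : o (ι g) ∈ (Abelianization.of : Q →* Abelianization Q).ker := h3
  rw [Abelianization.ker_of] at h5
  rw [derivedSeries_one]
  exact h5

private theorem map_sub (W : Type) [Group W] (n : ℕ) :
    (derivedSeries (derivedSeries W 1) n).map (derivedSeries W 1).subtype ≤ derivedSeries W (n + 1) := by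
  induction n with
  | zero =>
      rw [derivedSeries_zero, ← MonoidHom.range_eq_map, Subgroup.range_subtype]
  | succ n ih =>
      rw [derivedSeries_succ (derivedSeries W 1) n, Subgroup.map_commutator, derivedSeries_succ W (n + 1)]
      exact Subgroup.commutator_mono ih ih

private theorem sub_bot (W : Type) [Group W] (m : ℕ) (hW : derivedSeries W (m + 1) = ⊥) :
    derivedSeries (derivedSeries W 1) m = ⊥ := by
  have h1 := map_sub W m
  rw [hW, le_bot_iff] at h1
  exact (Subgroup.map_eq_bot_iff_of_injective _ (Subgroup.subtype_injective _)).1 h1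

theorem paraS_step {P E Q : Type} [Group P] [Group E] [Group Q] (ι : P →* E) (a : E)
    (hE : FrOne ι a) (p : Fin 2 → P) (hp : Para p) (m : ℕ) (hS : ParaS (m + 1) p)
    (o : E →* Q) (t : Q)
    (h : IsShift (n := 2) ![a, a * ι (p 0), a * ι (p 0) * ι (p 1)] o t) :
    ParaS (m + 2) ![o a, t] := by
  intro W _ hW f
  have hW' := sub_bot W (m + 1) hW
  obtain ⟨α, hα⟩ : ∃ α, α = f 0 := ⟨_, rfl⟩
  obtain ⟨β, hβ⟩ : ∃ β, β = f 1 := ⟨_, rfl⟩
  have hc : α⁻¹ * β * α * β⁻¹ ∈ derivedSeries W 1 := by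
    rw [derivedSeries_one]
    have h1 : α⁻¹ * β * (α⁻¹)⁻¹ * β⁻¹ ∈ commutator W := Subgroup.commutator_mem_commutator
      (Subgroup.mem_top α⁻¹) (Subgroup.mem_top β)
    rwa [inv_inv] at h1
  have hc' : β * (α⁻¹ * β * α * β⁻¹) * β⁻¹ ∈ derivedSeries W 1 :=
    (derivedSeries_normal W 1).conj_mem _ hc β
  obtain ⟨g, hg, -⟩ := hS (derivedSeries W 1) hW' ![⟨_, hc⟩, ⟨_, hc'⟩]
  have hg0 : ((g (p 0) : derivedSeries W 1) : W) = α⁻¹ * β * α * β⁻¹ := congrArg Subtype.val (hg 0)
  have hg1 : ((g (p 1) : derivedSeries W 1) : W) = β * (α⁻¹ * β * α * β⁻¹) * β⁻¹ :=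
    congrArg Subtype.val (hg 1)
  obtain ⟨k, ⟨hk1, hk2⟩, -⟩ := hE W ((derivedSeries W 1).subtype.comp g) α
  have hkι : ∀ x, k (ι x) = ((g x : derivedSeries W 1) : W) := fun x => DFunLike.congr_fun hk1 x
  have hrel : ∀ i : Fin 2, β * k ((![a, a * ι (p 0), a * ι (p 0) * ι (p 1)] : Fin 3 → E) i.castSucc) =
      k ((![a, a * ι (p 0), a * ι (p 0) * ι (p 1)] : Fin 3 → E) i.succ) * β := by
    intro i
    fin_cases i
    · show β * k a = k (a * ι (p 0)) * β
      rw [map_mul, hkι, hk2, hg0]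
      group
    · show β * k (a * ι (p 0)) = k (a * ι (p 0) * ι (p 1)) * β
      rw [map_mul, map_mul, map_mul, hkι, hkι, hk2, hg0, hg1]
      group
  obtain ⟨K, ⟨hK1, hK2⟩, -⟩ := h.lift W k β hrel
  have hKo : ∀ x, K (o x) = k x := fun x => DFunLike.congr_fun hK1 x
  refine ⟨K, ?_, ?_⟩
  · intro i
    fin_cases i
    · show K (o a) = f 0
      rw [hKo, hk2, hα]
    · show K t = f 1
      rw [hK2, hβ]
  · intro K' hK'
    have e0 : K' (o a) = K (o a) := by
      have h1 : K' (o a) = f 0 := hK' 0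
      rw [h1, hKo, hk2, hα]
    have e1 : K' t = K t := by
      have h1 : K' t = f 1 := hK' 1
      rw [h1, hK2, hβ]
    obtain ⟨r0, r1⟩ := rels ι a p o t h K
    obtain ⟨r0', r1'⟩ := rels ι a p o t h K'
    have f0 : K' (o (ι (p 0))) = K (o (ι (p 0))) := by
      rw [r0, r0', e0, e1]
    have f1 : K' (o (ι (p 1))) = K (o (ι (p 1))) := by
      rw [r1, r1', e0, e1, f0]
    have hin : ∀ (L : Q →* W) (x : P), L (o (ι x)) ∈ derivedSeries W 1 := fun L x =>
      map_derivedSeries_le_derivedSeries L 1 (Subgroup.mem_map_of_mem L (deep_step ι a p hp o t h x))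
    obtain ⟨u, -, hu⟩ := hS (derivedSeries W 1) hW' fun i => ⟨K (o (ι (p i))), hin K (p i)⟩
    have g1 : (K.comp (o.comp ι)).codRestrict (derivedSeries W 1) (hin K) = u := hu _ fun i => rfl
    have g2 : (K'.comp (o.comp ι)).codRestrict (derivedSeries W 1) (hin K') = u := by
      refine hu _ fun i => Subtype.ext ?_
      fin_cases i
      · exact f0
      · exact f1
    have g3 : ∀ x, K' (o (ι x)) = K (o (ι x)) := fun x =>
      congrArg Subtype.val (DFunLike.congr_fun (g2.trans g1.symm) x)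
    obtain ⟨v, -, hv⟩ := hE W ((K.comp o).comp ι) (K (o a))
    have g4 : K.comp o = v := hv _ ⟨rfl, rfl⟩
    have g5 : K'.comp o = v := hv _ ⟨MonoidHom.ext g3, e0⟩
    obtain ⟨w, -, hw⟩ := h.lift W (K.comp o) (K t) (fun i => by
      rw [MonoidHom.comp_apply, MonoidHom.comp_apply, ← map_mul, ← map_mul, h.rel i])
    have g6 : K = w := hw _ ⟨rfl, rfl⟩
    have g7 : K' = w := hw _ ⟨g5.trans g4.symm, e1⟩
    rw [g7, g6]

end PRT
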