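import Pool.Agent.PRT.Defs

/-! # PRT/ParaT (module PRT-ParaT): the para-basis of Step 2 -/

set_option autoImplicit false

namespace PRT

theorem para_three {P E : Type} [Group P] [Group E] (ι : P →* E) (a : E) (hE : FrOne ι a)
    (p : Fin 2 → P) (hp : Para p) : Para ![a, a * ι (p 0), a * ι (p 0) * ι (p 1)] := by
  intro W _ hW f
  obtain ⟨g, hg, hgu⟩ := hp W hW ![(f 0)⁻¹ * f 1, (f 1)⁻¹ * f 2]
  obtain ⟨h, ⟨hh1, hh2⟩, hhu⟩ := hE W g (f 0)
  have hg0 : g (p 0) = (f 0)⁻¹ * f 1 := hg 0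
  have hg1 : g (p 1) = (f 1)⁻¹ * f 2 := hg 1
  have hι : ∀ x, h (ι x) = g x := fun x => DFunLike.congr_fun hh1 x
  refine ⟨h, ?_, ?_⟩
  · intro i
    fin_cases i
    · exact hh2
    · show h (a * ι (p 0)) = f 1
      rw [map_mul, hh2, hι, hg0, mul_inv_cancel_left]
    · show h (a * ι (p 0) * ι (p 1)) = f 2
      rw [map_mul, map_mul, hh2, hι, hι, hg0, hg1, mul_inv_cancel_left, mul_inv_cancel_left]
  · intro k hk
    have k0 : k a = f 0 := hk 0
    have k1 : k (a * ι (p 0)) = f 1 := hk 1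
    have k2 : k (a * ι (p 0) * ι (p 1)) = f 2 := hk 2
    apply hhu
    refine ⟨?_, k0⟩
    apply hgu
    intro i
    fin_cases i
    · show k (ι (p 0)) = (f 0)⁻¹ * f 1
      rw [← k0, ← k1, map_mul, inv_mul_cancel_left]
    · show k (ι (p 1)) = (f 1)⁻¹ * f 2
      rw [← k1, ← k2, map_mul k (a * ι (p 0)), inv_mul_cancel_left]

end PRT
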