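import Pool.Agent.PRT.HnnRes
import Pool.Agent.PRT.CompatSh
import Pool.Agent.PRT.ParaInj

/-!
# PRT/ShiftEx (module PRT-ShiftEx): existence of the shift HNN extension
-/

set_option autoImplicit false

namespace PRT

private theorem shx_hom_eq {G D : Type} [Group G] [Group D] {n : ℕ} (z : Fin (n + 1) → G)
    (f g : shA z →* D)
    (h : ∀ (i : Fin n) (hi : z i.castSucc ∈ shA z), f ⟨z i.castSucc, hi⟩ = g ⟨z i.castSucc, hi⟩) :
    f = g := by
  have hle : shA z ≤ (f.eqLocus g).map (shA z).subtype := by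
    unfold shA
    rw [Subgroup.closure_le]
    rintro _ ⟨i, rfl⟩
    exact ⟨⟨z i.castSucc, Subgroup.subset_closure ⟨i, rfl⟩⟩, h i _, rfl⟩
  apply MonoidHom.ext
  intro a
  obtain ⟨b, hb, hba⟩ := hle a.2
  have : b = a := Subtype.ext hba
  rw [← this]
  exact hb

private theorem shx_cond {G D : Type} [Group G] [Group D] {n : ℕ} (z : Fin (n + 1) → G)
    (φ : shA z ≃* shB z)
    (hφ : ∀ (i : Fin n) (h : z i.castSucc ∈ shA z), (φ ⟨z i.castSucc, h⟩ : G) = z i.succ)
    (f : G →* D) (d : D) (hd : ∀ i : Fin n, d * f (z i.castSucc) = f (z i.succ) * d)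
    (a : shA z) : d * f (a : G) = f (φ a : G) * d := by
  have h1 : ((MulAut.conj d).toMonoidHom.comp (f.comp (shA z).subtype)) =
      (f.comp ((shB z).subtype.comp φ.toMonoidHom)) := by
    refine shx_hom_eq z _ _ ?_
    intro i hi
    show d * f (z i.castSucc) * d⁻¹ = f (φ ⟨z i.castSucc, hi⟩ : G)
    rw [hφ, hd, mul_inv_cancel_right]
  have h2 : d * f (a : G) * d⁻¹ = f (φ a : G) := DFunLike.congr_fun h1 a
  rw [← h2, inv_mul_cancel_right]

theorem exists_shift (G : Type) [Group G] {n : ℕ} (z : Fin (n + 1) → G) (hz : Para z)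
    (hG : ResP G) (hA : ClP (shA z)) (hB : ClP (shB z)) :
    ∃ (P : Type) (_ : Group P) (o : G →* P) (t : P), IsShift z o t ∧ ResP P := by
  obtain ⟨φ, hφ⟩ := exists_phi z hz
  refine ⟨HNNExtension G (shA z) (shB z) φ, inferInstance, HNNExtension.of, HNNExtension.t, ?_, ?_⟩
  · refine ⟨HNNExtension.of_injective φ, ?_, ?_⟩
    · intro i
      have hi : z i.castSucc ∈ shA z := Subgroup.subset_closure ⟨i, rfl⟩
      have h1 := HNNExtension.t_mul_of (φ := φ) ⟨z i.castSucc, hi⟩
      rw [hφ] at h1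
      exact h1
    · intro D _ f d hd
      refine ⟨HNNExtension.lift f d (shx_cond z φ hφ f d hd), ⟨?_, ?_⟩, ?_⟩
      · apply MonoidHom.ext
        intro g
        exact HNNExtension.lift_of f d (shx_cond z φ hφ f d hd) g
      · exact HNNExtension.lift_t f d (shx_cond z φ hφ f d hd)
      · rintro h ⟨h1, h2⟩
        refine HNNExtension.hom_ext ?_ ?_
        · rw [h1]
          apply MonoidHom.ext
          intro g
          exact (HNNExtension.lift_of f d (shx_cond z φ hφ f d hd) g).symm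
        · rw [h2]
          exact (HNNExtension.lift_t f d (shx_cond z φ hφ f d hd)).symm
  · exact resP_hnn G (shA z) (shB z) φ hG hA hB (compat_shift G z hz φ hφ)

end PRT
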