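import Pool.Agent.PRT.ClR
import Pool.Agent.PRT.FrEx
import Pool.Agent.PRT.ParaT
import Pool.Agent.PRT.ShiftEx
import Pool.Agent.PRT.H2Hnn
import Pool.Agent.PRT.ParaSol

/-!
# PRT/StepB (module PRT-StepB): Step 2

One step of the induction: the shift HNN extension of the free product of `P` and `⟨a⟩` for the
para-basis `a`, `a p_0`, `a p_0 p_1`.
-/

set_option autoImplicit false

namespace PRT

private theorem shA_three {E : Type} [Group E] (x y w : E) :
    shA (n := 2) ![x, y, w] = Subgroup.closure {x, y} := by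
  unfold shA
  congr 1
  ext g
  constructor
  · rintro ⟨i, rfl⟩
    fin_cases i
    · exact Or.inl rfl
    · exact Or.inr rfl
  · rintro (h | h)
    · exact ⟨0, h.symm⟩
    · exact ⟨1, (Set.mem_singleton_iff.1 h).symm⟩

private theorem shB_three {E : Type} [Group E] (x y w : E) :
    shB (n := 2) ![x, y, w] = Subgroup.closure {y, w} := by
  unfold shB
  congr 1
  ext g
  constructor
  · rintro ⟨i, rfl⟩
    fin_cases i
    · exact Or.inl rfl
    · exact Or.inr rfl
  · rintro (h | h)
    · exact ⟨0, h.symm⟩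
    · exact ⟨1, (Set.mem_singleton_iff.1 h).symm⟩

private theorem map_der {P Q : Type} [Group P] [Group Q] (f : P →* Q)
    (h : ∀ g, f g ∈ derivedSeries Q 1) (m : ℕ) :
    (derivedSeries P m).map f ≤ derivedSeries Q (m + 1) := by
  induction m with
  | zero =>
    rintro _ ⟨g, -, rfl⟩
    exact h g
  | succ m ih =>
    rw [derivedSeries_succ, derivedSeries_succ Q (m + 1), Subgroup.map_commutator]
    exact Subgroup.commutator_mono ih ih

private theorem fg_free {P E : Type} [Group P] [Group E] (ι : P →* E) (a : E)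
    (h : Subgroup.closure (Set.range ι ∪ {a}) = ⊤) (hP : Group.FG P) : Group.FG E := by
  rw [Group.fg_iff] at hP ⊢
  obtain ⟨S, hS, hfin⟩ := hP
  refine ⟨ι '' S ∪ {a}, ?_, (hfin.image ι).union (Set.finite_singleton a)⟩
  rw [eq_top_iff, ← h, Subgroup.closure_le]
  rintro x (⟨g, rfl⟩ | hx)
  · have h1 : Subgroup.closure S ≤ (Subgroup.closure (ι '' S ∪ {a})).comap ι := by
      rw [Subgroup.closure_le]
      intro s hs
      exact Subgroup.subset_closure (Or.inl ⟨s, hs, rfl⟩)
    rw [hS] at h1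
    exact h1 (Subgroup.mem_top g)
  · exact Subgroup.subset_closure (Or.inr hx)

theorem step_two {G P : Type} [Group G] [Group P] (m : ℕ) (j : G →* P) (p : Fin 2 → P)
    (hs : Stage m j p) :
    ∃ (Q : Type) (_ : Group Q) (j' : G →* Q) (p' : Fin 2 → Q), Stage (m + 1) j' p' := by
  obtain ⟨E, _, ι, a, hE, hresE, hι, hh2⟩ := exists_frOne P hs.res
  have hz : Para ![a, a * ι (p 0), a * ι (p 0) * ι (p 1)] := para_three ι a hE p hs.para
  obtain ⟨e, he, -⟩ := hs.para (Multiplicative ℤ) inferInstance (fun _ => Multiplicative.ofAdd 1)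
  have hA : ClP (shA (n := 2) ![a, a * ι (p 0), a * ι (p 0) * ι (p 1)]) := by
    rw [shA_three]
    exact clR ι a hE hresE (p 0) e (he 0)
  have hB : ClP (shB (n := 2) ![a, a * ι (p 0), a * ι (p 0) * ι (p 1)]) := by
    rw [shB_three]
    exact clR ι (a * ι (p 0)) (frOne_change ι a hE (p 0)) hresE (p 1) e (he 1)
  obtain ⟨Q, _, o, t, hsh, hresQ⟩ := exists_shift E _ hz hresE hA hB
  have hdeep := deep_step ι a p hs.para o t hsh
  have hgenE := frOne_gen ι a hE
  refine ⟨Q, inferInstance, (o.comp ι).comp j, ![o a, t], ?_⟩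
  refine ⟨?_, hresQ, shift_para _ hz o t hsh, paraS_step ι a hE p hs.para m hs.paraS o t hsh, ?_,
    ?_, ?_, ?_⟩
  · exact shift_fg _ o t hsh (fg_free ι a hgenE hs.fg)
  · exact hsh.inj.comp (hι.comp hs.inj)
  · intro g
    exact map_der (o.comp ι) hdeep m ⟨j g, hs.deep g, rfl⟩
  · exact h2inj_comp j (o.comp ι) hs.h2 (h2inj_comp ι o hh2 (h2inj_shift _ hz o t hsh))
  · have hr0 : t * o a = o (a * ι (p 0)) * t := hsh.rel 0
    have hr1 : t * o (a * ι (p 0)) = o (a * ι (p 0) * ι (p 1)) * t := hsh.rel 1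
    have hS : ∃ S, S = Subgroup.closure (Set.range ((o.comp ι).comp j) ∪ Set.range ![o a, t]) :=
      ⟨_, rfl⟩
    obtain ⟨S, hS⟩ := hS
    rw [← hS]
    have hoa : o a ∈ S := by
      rw [hS]
      exact Subgroup.subset_closure (Or.inr ⟨0, rfl⟩)
    have ht : t ∈ S := by
      rw [hS]
      exact Subgroup.subset_closure (Or.inr ⟨1, rfl⟩)
    have h0 : o (ι (p 0)) ∈ S := by
      rw [map_mul] at hr0
      have h1 : o (ι (p 0)) = (o a)⁻¹ * (t * o a) * t⁻¹ := by
        rw [hr0]
        group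
      rw [h1]
      exact S.mul_mem (S.mul_mem (S.inv_mem hoa) (S.mul_mem ht hoa)) (S.inv_mem ht)
    have hoa0 : o (a * ι (p 0)) ∈ S := by
      rw [map_mul]
      exact S.mul_mem hoa h0
    have h1 : o (ι (p 1)) ∈ S := by
      rw [map_mul o (a * ι (p 0)) (ι (p 1))] at hr1
      have h1 : o (ι (p 1)) = (o (a * ι (p 0)))⁻¹ * (t * o (a * ι (p 0))) * t⁻¹ := by
        rw [hr1]
        group
      rw [h1]
      exact S.mul_mem (S.mul_mem (S.inv_mem hoa0) (S.mul_mem ht hoa0)) (S.inv_mem ht)
    have hP : ∀ g : P, o (ι g) ∈ S := by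
      have h2 : (⊤ : Subgroup P) ≤ S.comap (o.comp ι) := by
        rw [← hs.gen, Subgroup.closure_le]
        rintro x (⟨g, rfl⟩ | ⟨i, rfl⟩)
        · show (o.comp ι) (j g) ∈ S
          rw [hS]
          exact Subgroup.subset_closure (Or.inl ⟨g, rfl⟩)
        · fin_cases i
          · exact h0
          · exact h1
      intro g
      exact h2 (Subgroup.mem_top g)
    have hEo : ∀ x : E, o x ∈ S := by
      have h2 : (⊤ : Subgroup E) ≤ S.comap o := by
        rw [← hgenE, Subgroup.closure_le]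
        rintro x (⟨g, rfl⟩ | hx)
        · exact hP g
        · rw [Set.mem_singleton_iff] at hx
          subst hx
          exact hoa
      intro g
      exact h2 (Subgroup.mem_top g)
    rw [eq_top_iff, ← shift_gen _ o t hsh, Subgroup.closure_le]
    rintro x (⟨g, rfl⟩ | hx)
    · exact hEo g
    · rw [Set.mem_singleton_iff] at hx
      subst hx
      exact ht

end PRT
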