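import Pool.Agent.PRT.StepA
import Pool.Agent.PRT.StepB
import Pool.Agent.PRT.ParaEx
import Pool.Agent.PRT.ParaRes
import Pool.Agent.PRT.ParaRank
import Pool.Agent.PRT.H2Map
import Pool.Agent.PRT.CdInd

/-!
# PRT/Main (module PRT-Main): assembly

Assembled from the statements.
-/

set_option autoImplicit false

open CategoryTheory

namespace PRT

theorem exists_stage (G : Type) [Group G] [Group.FG G] (hG : PF.IsParafree G) (m : ℕ) :
    ∃ (P : Type) (_ : Group P) (j : G →* P) (p : Fin 2 → P), Stage m j p := by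
  induction m with
  | zero =>
    obtain ⟨r, x, hx⟩ := exists_para G hG
    exact step_one G (resP_parafree G hG.1 x hx) x hx
  | succ m ih =>
    obtain ⟨P, iP, j, p, hs⟩ := ih
    exact step_two m j p hs

theorem main (G : Type) [Group G] [Group.FG G] (hG : PF.IsParafree G) (m : ℕ) :
    ∃ (P : Type) (_ : Group P) (j : G →* P) (a b : P), Group.FG P ∧
      ((⨅ n : ℕ, PF.gam P n) = ⊥ ∧
        ∀ n : ℕ, Nonempty ((P ⧸ PF.gam P n) ≃* (FreeGroup (Fin 2) ⧸ PF.gam (FreeGroup (Fin 2)) n))) ∧
      Nonempty ((P ⧸ derivedSeries P m) ≃*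
        (FreeGroup (Fin 2) ⧸ derivedSeries (FreeGroup (Fin 2)) m)) ∧
      Function.Injective j ∧ (∀ g, j g ∈ derivedSeries P m) ∧
      Subgroup.closure (Set.range j ∪ {a, b}) = ⊤ ∧
      Function.Injective (H2map j) ∧
      ∀ n : ℕ, HasProjectiveDimensionLE (TrM P) n → HasProjectiveDimensionLE (TrM G) n := by
  obtain ⟨P, iP, j, p, hs⟩ := exists_stage G hG m
  refine ⟨P, iP, j, p 0, p 1, hs.fg, ⟨iInf_gam hs.res, rank_of_para p hs.para⟩, ?_, hs.inj,
    hs.deep, ?_, h2map_injective j hs.h2, fun n => cd_mono j hs.inj n⟩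
  · refine solv_of_paraS p m ?_
    intro W _ hW f
    exact hs.paraS W (by
      rw [eq_bot_iff, ← hW]
      exact derivedSeries_antitone W (Nat.le_succ m)) f
  · have h : (Set.range p : Set P) = {p 0, p 1} := by
      ext x
      simp only [Set.mem_range, Fin.exists_fin_two, Set.mem_insert_iff, Set.mem_singleton_iff]
      constructor
      · rintro (h | h)
        · exact Or.inl h.symm
        · exact Or.inr h.symm
      · rintro (h | h)
        · exact Or.inl h.symm
        · exact Or.inr h.symm
    rw [← h]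
    exact hs.gen

end PRT
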