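import Pool.Agent.PRT.Defs

/-!
# PRT/ParaZ (module PRT-ParaZ): the para-basis of Step 1

A map of the family `zz` to a nilpotent group determines the values at `y`, `v` and at the `x i`.
-/

set_option autoImplicit false

namespace PRT

theorem para_zz {G E : Type} [Group G] [Group E] (ι : G →* E) (y v : E) (hE : FrTwo ι y v)
    {r : ℕ} (x : Fin r → G) (hx : Para x) : Para (zz ι y v x) := by
  intro W _ hW f
  have z0 : zz ι y v x (Fin.castSucc 0) = y := by
    unfold zz
    rw [Fin.snoc_castSucc]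
    rfl
  have zi : ∀ i : Fin r, zz ι y v x i.succ.castSucc =
      (v ^ ((i : ℕ) + 1))⁻¹ * ι (x i) * v ^ ((i : ℕ) + 1) := by
    intro i
    unfold zz
    rw [Fin.snoc_castSucc]
    rfl
  have zl : zz ι y v x (Fin.last _) = y⁻¹ * v := by
    unfold zz
    rw [Fin.snoc_last]
  let b : W := f (Fin.castSucc 0) * f (Fin.last _)
  obtain ⟨g, hg, hg'⟩ := hx W hW fun i =>
    b ^ ((i : ℕ) + 1) * f i.succ.castSucc * (b ^ ((i : ℕ) + 1))⁻¹
  obtain ⟨h, ⟨h1, h2, h3⟩, h4⟩ := hE W g (f (Fin.castSucc 0)) b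
  refine ⟨h, ?_, ?_⟩
  · intro j
    refine Fin.lastCases ?_ (fun j => ?_) j
    · rw [zl, map_mul, map_inv, h2, h3, inv_mul_cancel_left]
    · refine Fin.cases ?_ (fun i => ?_) j
      · rw [z0, h2]
      · have hgi : h (ι (x i)) = g (x i) := DFunLike.congr_fun h1 (x i)
        rw [zi, map_mul, map_mul, map_inv, map_pow, h3, hgi, hg]
        group
  · intro h' hh
    have e2 : h' y = f (Fin.castSucc 0) := by rw [← hh, z0]
    have e3 : h' v = b := by
      show h' v = f (Fin.castSucc 0) * f (Fin.last _)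
      rw [← hh, ← hh, z0, zl, ← map_mul, mul_inv_cancel_left]
    refine h4 h' ⟨hg' _ fun i => ?_, e2, e3⟩
    have := hh i.succ.castSucc
    rw [zi, map_mul, map_mul, map_inv, map_pow, e3] at this
    show h' (ι (x i)) = b ^ ((i : ℕ) + 1) * f i.succ.castSucc * (b ^ ((i : ℕ) + 1))⁻¹
    rw [← this]
    group

theorem exists_retr {G : Type} [Group G] {r : ℕ} (x : Fin r → G) (hx : Para x) (i : Fin r) :
    ∃ e : G →* Multiplicative ℤ, e (x i) = Multiplicative.ofAdd 1 := by
  obtain ⟨e, he, -⟩ := hx (Multiplicative ℤ) CommGroup.isNilpotent fun _ => Multiplicative.ofAdd 1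
  exact ⟨e, he i⟩

end PRT
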