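import Pool.Agent.PRT.ClA
import Pool.Agent.PRT.FrEx
import Pool.Agent.PRT.ParaZ
import Pool.Agent.PRT.ShiftEx
import Pool.Agent.PRT.H2Hnn
import Pool.Agent.PRT.ShiftPara

/-!
# PRT/StepA (module PRT-StepA): Step 1

PLAN.  `exists_frOne` twice and `frTwo_of_frOne`: `E`, `ι = ι2 ∘ ι1`, `y = ι2 y1`, `v`.  `z := zz ι y v x : Fin (r+1+1) → E`,
`para_zz`.  `shA z = closure (range (zA ι y v x))` (`Fin.snoc_castSucc`), closed by `clA` (`exists_retr`).
`shB z = closure (range (zA ι (y⁻¹ * v) v x))` (as sets: `z i.succ` for `i : Fin (r+1)`; `Fin.snoc` at `succ`; both sets are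
`{(v^(i+1))⁻¹ ι (x i) v^(i+1)} ∪ {y⁻¹ v}`), closed by `clA` for `frTwo_change`.  `exists_shift`: `P, o, t`.
`j := o ∘ ι`, `p := ![o (z 0), t]`, `z 0 = y`.  `fg`: `E` is f.g. (`frTwo_gen`), `shift_fg`.  `para`: `shift_para`.
`paraS (0 + 1)`: a group with `derivedSeries W 1 = ⊥` is commutative, so nilpotent.  `inj`, `deep` (`derivedSeries P 0 = ⊤`), `h2`: `h2inj_comp`,
`h2inj_shift`.  `gen`: `P` is generated by `o (E)` and `t`; `y = p 0`; the `z i` are in `⟨y, t⟩` (`shift_rel`), so `v = y * (y⁻¹ v)` also.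
-/

set_option autoImplicit false

open scoped commutatorElement

namespace PRT

private theorem zz_eq {G E : Type} [Group G] [Group E] (ι : G →* E) (y v : E) {r : ℕ}
    (x : Fin r → G) :
    zz ι y v x = Fin.cons y (Fin.snoc (fun i : Fin r =>
      (v ^ ((i : ℕ) + 1))⁻¹ * ι (x i) * v ^ ((i : ℕ) + 1)) (y⁻¹ * v)) :=
  (Fin.cons_snoc_eq_snoc_cons y _ _).symm

private theorem range_snoc' {α : Type} {n : ℕ} (w : Fin n → α) (a : α) :
    Set.range (Fin.snoc w a : Fin (n + 1) → α) = insert a (Set.range w) := by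
  ext b
  constructor
  · rintro ⟨k, rfl⟩
    induction k using Fin.lastCases with
    | last => left; exact Fin.snoc_last ..
    | cast k =>
      right
      refine ⟨k, ?_⟩
      rw [Fin.snoc_castSucc]
  · rintro (rfl | ⟨k, rfl⟩)
    · exact ⟨Fin.last n, Fin.snoc_last ..⟩
    · exact ⟨k.castSucc, Fin.snoc_castSucc ..⟩

private theorem shA_zz {G E : Type} [Group G] [Group E] (ι : G →* E) (y v : E) {r : ℕ}
    (x : Fin r → G) : shA (zz ι y v x) = Subgroup.closure (Set.range (zA ι y v x)) := by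
  unfold shA
  congr 2
  funext k
  exact Fin.snoc_castSucc ..

private theorem shB_zz {G E : Type} [Group G] [Group E] (ι : G →* E) (y v : E) {r : ℕ}
    (x : Fin r → G) :
    shB (zz ι y v x) = Subgroup.closure (Set.range (zA ι (y⁻¹ * v) v x)) := by
  have h1 : (fun k : Fin (r + 1) => zz ι y v x k.succ) = Fin.snoc (fun i : Fin r =>
      (v ^ ((i : ℕ) + 1))⁻¹ * ι (x i) * v ^ ((i : ℕ) + 1)) (y⁻¹ * v) := by
    funext k
    rw [zz_eq]
    rfl
  unfold shB zA
  rw [h1, range_snoc', Fin.range_cons]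

private theorem nilp_of_comm (W : Type) [Group W] (h : derivedSeries W 1 = ⊥) :
    Group.IsNilpotent W := by
  have h1 : ∀ a b : W, a * b = b * a := by
    intro a b
    have h2 : ⁅a, b⁆ ∈ derivedSeries W 1 := by
      rw [derivedSeries_one]
      exact Subgroup.commutator_mem_commutator (Subgroup.mem_top a) (Subgroup.mem_top b)
    rw [h, Subgroup.mem_bot, commutatorElement_eq_one_iff_mul_comm] at h2
    exact h2
  let cg : CommGroup W := { (inferInstance : Group W) with mul_comm := h1 }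
  exact (CommGroup.isNilpotent : Group.IsNilpotent W)

private theorem fg_of_gen {G E : Type} [Group G] [Group E] [Group.FG G] (ι : G →* E) (y v : E)
    (h : Subgroup.closure (Set.range ι ∪ {y, v}) = ⊤) : Group.FG E := by
  obtain ⟨T, hT⟩ := Group.fg_def.1 (inferInstance : Group.FG G)
  rw [Group.fg_iff]
  refine ⟨ι '' T ∪ {y, v}, ?_, (T.finite_toSet.image _).union (Set.toFinite _)⟩
  rw [eq_top_iff, ← h, Subgroup.closure_le]
  have h1 : (Set.range ι : Set E) ⊆ Subgroup.closure (ι '' (T : Set G) ∪ {y, v}) := by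
    rintro _ ⟨g, rfl⟩
    have h2 : ι g ∈ (Subgroup.closure (T : Set G)).map ι :=
      Subgroup.mem_map_of_mem _ (by rw [hT]; exact Subgroup.mem_top g)
    rw [MonoidHom.map_closure] at h2
    exact Subgroup.closure_mono Set.subset_union_left h2
  exact Set.union_subset h1 (Set.subset_union_right.trans Subgroup.subset_closure)

theorem step_one (G : Type) [Group G] [Group.FG G] (hG : ResP G) {r : ℕ} (x : Fin r → G)
    (hx : Para x) :
    ∃ (P : Type) (_ : Group P) (j : G →* P) (p : Fin 2 → P), Stage 0 j p := by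
  obtain ⟨E1, iE1, ι1, y1, f1, hE1, inj1, h21⟩ := exists_frOne G hG
  obtain ⟨E, iE, ι2, v, f2, hE, inj2, h22⟩ := exists_frOne E1 hE1
  have hT : FrTwo (ι2.comp ι1) (ι2 y1) v := frTwo_of_frOne ι1 y1 f1 ι2 v f2
  have hinj : Function.Injective (ι2.comp ι1) := inj2.comp inj1
  have h2E : H2Inj (ι2.comp ι1) := h2inj_comp ι1 ι2 h21 h22
  generalize ι2.comp ι1 = ι at hT hinj h2E
  generalize ι2 y1 = y at hT
  have hr := exists_retr x hx
  have hz := para_zz ι y v hT x hx
  have hA : ClP (shA (zz ι y v x)) := by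
    rw [shA_zz]
    exact clA ι y v hT hE x hr
  have hB : ClP (shB (zz ι y v x)) := by
    rw [shB_zz]
    exact clA ι (y⁻¹ * v) v (frTwo_change ι y v hT) hE x hr
  have hfgE : Group.FG E := fg_of_gen ι y v (frTwo_gen ι y v hT)
  have hz0 : zz ι y v x 0 = y := by
    rw [zz_eq]
    rfl
  have hzl : zz ι y v x (Fin.last _) = y⁻¹ * v := Fin.snoc_last ..
  have hgen := frTwo_gen ι y v hT
  generalize zz ι y v x = z at hz hA hB hz0 hzl
  obtain ⟨P, iP, o, t, hs, hP⟩ := exists_shift E z hz hE hA hB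
  have hpara := shift_para z hz o t hs
  refine ⟨P, iP, o.comp ι, ![o (z 0), t], ⟨shift_fg z o t hs hfgE, hP, hpara, ?_,
    hs.inj.comp hinj, fun g => ?_, h2inj_comp ι o h2E (h2inj_shift z hz o t hs), ?_⟩⟩
  · intro W _ hW f
    exact hpara W (nilp_of_comm W hW) f
  · rw [derivedSeries_zero]
    exact Subgroup.mem_top _
  · rw [eq_top_iff]
    set S : Subgroup P := Subgroup.closure (Set.range (o.comp ι) ∪ Set.range ![o (z 0), t]) with hS
    have h1 : o (z 0) ∈ S := Subgroup.subset_closure (Or.inr ⟨0, rfl⟩)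
    have h2 : t ∈ S := Subgroup.subset_closure (Or.inr ⟨1, rfl⟩)
    have h3 : o y ∈ S := by
      rw [← hz0]
      exact h1
    have h4 : o v ∈ S := by
      have h5 : v = y * z (Fin.last _) := by rw [hzl, mul_inv_cancel_left]
      rw [h5, map_mul, shift_rel z o t hs (Fin.last _)]
      exact S.mul_mem h3 (S.mul_mem (S.mul_mem (S.pow_mem h2 _) h1) (S.inv_mem (S.pow_mem h2 _)))
    have h5 : (⊤ : Subgroup E) ≤ S.comap o := by
      rw [← hgen, Subgroup.closure_le]
      rintro _ (⟨g, rfl⟩ | rfl | rfl)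
      · exact Subgroup.subset_closure (Or.inl ⟨g, rfl⟩)
      · exact h3
      · exact h4
    rw [← shift_gen z o t hs, Subgroup.closure_le]
    rintro _ (⟨g, rfl⟩ | rfl)
    · exact h5 (Subgroup.mem_top g)
    · exact h2

end PRT
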