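import Pool.Agent.PRT.Defs

/-!
# PRT/Uni (module PRT-Uni): unipotent elements of rings with `2 ^ s = 0`
-/

set_option autoImplicit false

namespace PRT

private theorem uni_one {C : Type} [CommRing C] (x : C) (m : ℕ) :
    ∃ r : C, (1 + x) ^ (2 ^ m) = 1 + x ^ (2 ^ m) + 2 * r := by
  induction m with
  | zero => exact ⟨0, by ring⟩
  | succ m ih =>
    obtain ⟨r, hr⟩ := ih
    refine ⟨x ^ (2 ^ m) + 2 * r ^ 2 + 2 * r + 2 * x ^ (2 ^ m) * r, ?_⟩
    rw [pow_succ, pow_mul, hr, pow_mul]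
    ring

private theorem uni_two {C : Type} [CommRing C] (r : C) (j : ℕ) :
    ∃ r' : C, (1 + 2 * r) ^ (2 ^ j) = 1 + 2 ^ (j + 1) * r' := by
  induction j with
  | zero => exact ⟨r, by ring⟩
  | succ j ih =>
    obtain ⟨r', hr⟩ := ih
    refine ⟨r' + 2 ^ j * r' ^ 2, ?_⟩
    rw [pow_succ, pow_mul, hr]
    ring

theorem two_pow_unip (R : Type) [Ring R] (s : ℕ) (hs : (2 : R) ^ s = 0) (N : R)
    (hN : IsNilpotent N) : ∃ m : ℕ, (1 + N) ^ (2 ^ m) = 1 := by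
  obtain ⟨k, hk⟩ := hN
  obtain ⟨r, hr⟩ := uni_one (Polynomial.X : Polynomial ℤ) k
  obtain ⟨r', hr'⟩ := uni_two r s
  have h1 := congrArg (Polynomial.aeval N) hr
  have h2 := congrArg (Polynomial.aeval N) hr'
  simp only [map_pow, map_add, map_mul, map_one, map_ofNat, Polynomial.aeval_X] at h1 h2
  have h3 : N ^ (2 ^ k) = 0 := pow_eq_zero_of_le (Nat.lt_two_pow_self).le hk
  have h4 : (2 : R) ^ (s + 1) = 0 := pow_eq_zero_of_le (Nat.le_succ s) hs
  rw [h3, add_zero] at h1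
  rw [h4, zero_mul, add_zero] at h2
  refine ⟨k + s, ?_⟩
  rw [pow_add, pow_mul, h1, h2]

end PRT
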